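import Pool.Agent.H727R3.Ltwo

set_option autoImplicit false
set_option linter.unusedSectionVars false

namespace Pool.Agent.H727R3

open Finset
open scoped Classical

variable {K : Type} [Field K] [Fintype K] [DecidableEq K] [CharP K 2] [Algebra (ZMod 2) K]

theorem card_FF_bot {m : ℕ} {e : Fin m → K} (he : Ind e) : (el (FF ⊥ (sp e))).card = 2 ^ m := by
  have := (FF_tuple' ⊥ m e he (fun i => mem_perp_bot _)).1
  have h2 : el (⊥ : Submodule (ZMod 2) K) = {0} := by ext x; simp
  rw [this, h2]; simp

theorem inner_L (E : Submodule (ZMod 2) K) :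
    |inner L E 1| ≤ (if (∀ b, chi (L E b) = 1) then (Fintype.card K : ℝ) else 0) + ((el E).card : ℝ) := by
  have h1 : inner L E 1 = ∑ b : K, chi (L E b) - ((el E).card : ℝ) := by
    unfold inner
    have h2 := Finset.sum_filter_add_sum_filter_not (univ : Finset K) (fun v => v ∈ E)
      (fun v => chi (L E v))
    have h3 : ∑ v ∈ univ.filter (fun v => v ∈ E), chi (L E v) = ((el E).card : ℝ) := by
      rw [Finset.sum_congr rfl (g := fun _ => (1 : ℝ))]
      · simp [el]
      · intro v hv
        rw [Finset.mem_filter] at hv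
        rw [L_eq_zero.mpr hv.2, chi_zero]
    rw [← h2, h3]
    simp only [one_mul]
    ring
  rw [h1, sum_signchar (fun b => chi (L E b)) (fun x y => by rw [L_add, chi_add])
    (fun x => chi_cases _)]
  refine (abs_sub _ _).trans ?_
  apply add_le_add
  · split_ifs <;> simp
  · simp

theorem bad_iff {E : Submodule (ZMod 2) K} {a : K} (ha : a ∉ E) :
    (∀ b, chi (L (adj E a) b) = 1) ↔ 1 + L E a ∈ FF ⊥ E := by
  rw [mem_FF]
  constructor
  · intro h w _
    have := h w
    rw [L_adj ha, chi_add, chi_sq, ← chi_add] at this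
    rw [← this]; congr 1; ring
  · intro h w
    have := h w (mem_perp_bot w)
    rw [L_adj ha, chi_add, chi_sq, ← chi_add, ← this]; congr 1; ring

theorem card_bad {m : ℕ} {e : Fin m → K} (he : Ind e) :
    (univ.filter (fun a : K => 1 + L (sp e) a ∈ FF ⊥ (sp e))).card ≤ 2 ^ (2 * m) := by
  rw [Finset.card_eq_sum_card_fiberwise (f := fun a => 1 + L (sp e) a) (t := el (FF ⊥ (sp e)))]
  · have h1 : ∀ u ∈ el (FF ⊥ (sp e)),
        (filter (fun a => 1 + L (sp e) a = u) (univ.filter (fun a : K => 1 + L (sp e) a ∈ FF ⊥ (sp e)))).card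
          ≤ 2 ^ m := by
      intro u _
      by_cases hne : (filter (fun a => 1 + L (sp e) a = u)
        (univ.filter (fun a : K => 1 + L (sp e) a ∈ FF ⊥ (sp e)))).Nonempty
      · obtain ⟨a, ha⟩ := hne
        rw [Finset.mem_filter] at ha
        have hsub : (filter (fun a => 1 + L (sp e) a = u)
            (univ.filter (fun a : K => 1 + L (sp e) a ∈ FF ⊥ (sp e)))) ⊆
            (el (sp e)).image (fun x => a + x) := by
          intro b hb
          rw [Finset.mem_filter] at hb
          rw [Finset.mem_image]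
          refine ⟨a + b, ?_, by rw [← add_assoc, CharTwo.add_self_eq_zero, zero_add]⟩
          rw [mem_el]
          apply L_inj
          exact add_left_cancel (ha.2.trans hb.2.symm)
        have := (Finset.card_le_card hsub).trans Finset.card_image_le
        unfold Ind at he
        rwa [he] at this
      · rw [Finset.not_nonempty_iff_eq_empty] at hne
        rw [hne]; simp
    refine (Finset.sum_le_sum h1).trans ?_
    rw [Finset.sum_const, card_FF_bot he, smul_eq_mul, ← pow_add]
    apply le_of_eq; congr 1; ring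
  · intro a ha
    have ha' := (Finset.mem_filter.mp ha).2
    exact mem_el.mpr ha'

theorem HV2 (m : ℕ) (e : Fin m → K) :
    |∑ a : K, ∑ b : K, vE (m + 2) (adj (adj (sp e) a) b)| ≤
      (Fintype.card K : ℝ) * (2 ^ (2 * m) + 2 ^ (m + 1)) := by
  have key : ∀ a : K, ∑ b : K, vE (m + 2) (adj (adj (sp e) a) b) =
      if Ind (Fin.cons a e : Fin (m + 1) → K) then
        chi (S (FF ⊥ (adj (sp e) a))) * inner L (adj (sp e) a) 1 else 0 := by
    intro a
    have := sum_f_adj (vE (m + 1 + 1)) L (m + 1) (fun D => chi (S (FF ⊥ D)))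
      (fun D hD => by unfold vE; rw [if_neg hD]) (fun D v hv hD => vE_adj hv hD)
      (Fin.cons a e : Fin (m + 1) → K)
    rw [sp_cons] at this
    exact this
  by_cases he : Ind e
  · have h1 : ∀ a : K, |∑ b : K, vE (m + 2) (adj (adj (sp e) a) b)| ≤
        (if 1 + L (sp e) a ∈ FF ⊥ (sp e) then (Fintype.card K : ℝ) else 0) + 2 ^ (m + 1) := by
      intro a
      rw [key a]
      split_ifs with h2 h3 h3
      · rw [abs_mul, abs_chi, one_mul]
        have h4 := (Ind_cons a e).mp h2
        have h5 := inner_L (adj (sp e) a)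
        have h6 : (el (adj (sp e) a)).card = 2 ^ (m + 1) := (card_adj_eq_iff e a).mpr h4
        rw [h6, if_pos ((bad_iff h4.2).mpr h3)] at h5
        exact_mod_cast h5
      · rw [abs_mul, abs_chi, one_mul]
        have h4 := (Ind_cons a e).mp h2
        have h5 := inner_L (adj (sp e) a)
        have h6 : (el (adj (sp e) a)).card = 2 ^ (m + 1) := (card_adj_eq_iff e a).mpr h4
        rw [h6, if_neg (fun h => h3 ((bad_iff h4.2).mp h))] at h5
        exact_mod_cast h5
      · simp; positivity
      · simp
    refine (Finset.abs_sum_le_sum_abs _ _).trans ?_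
    refine (Finset.sum_le_sum (fun a _ => h1 a)).trans ?_
    rw [Finset.sum_add_distrib, ← Finset.sum_filter, Finset.sum_const, Finset.sum_const,
      nsmul_eq_mul, nsmul_eq_mul, Finset.card_univ]
    have h7 : ((univ.filter (fun a : K => 1 + L (sp e) a ∈ FF ⊥ (sp e))).card : ℝ) ≤ 2 ^ (2 * m) := by
      exact_mod_cast card_bad he
    have h8 : (0 : ℝ) ≤ (Fintype.card K : ℝ) := by positivity
    nlinarith
  · have h1 : ∀ a : K, ∑ b : K, vE (m + 2) (adj (adj (sp e) a) b) = 0 := by
      intro a
      rw [key a, if_neg]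
      intro h
      exact he ((Ind_cons a e).mp h).1
    simp only [h1, Finset.sum_const_zero, abs_zero]
    positivity

end Pool.Agent.H727R3
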