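import Pool.Agent.H727R3.Core
import Mathlib

set_option autoImplicit false
set_option linter.unusedSectionVars false

namespace Pool.Agent.H727R3

open Finset Polynomial
open scoped Classical

section ev
variable {R : Type*} [CommRing R] [CharP R 2]

/-- evaluation of the polynomial over F_2 whose coefficient bits are the bits of a number -/
noncomputable def ev (α : R) : ℕ → R
  | 0 => 0
  | (n + 1) => (if (n + 1) % 2 = 1 then 1 else 0) + α * ev α ((n + 1) / 2)
decreasing_by omega

theorem ev_eq (α : R) (a : ℕ) : ev α a = (if a % 2 = 1 then 1 else 0) + α * ev α (a / 2) := by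
  cases a with
  | zero => simp [ev]
  | succ n => rw [ev]

theorem ev_zero (α : R) : ev α 0 = 0 := by rw [ev]

theorem ev_one (α : R) : ev α 1 = 1 := by
  rw [ev_eq]; norm_num [ev_zero]

theorem ev_two (α : R) : ev α 2 = α := by
  rw [ev_eq]; norm_num [ev_one]

theorem ev_xor (α : R) (a b : ℕ) : ev α (a ^^^ b) = ev α a + ev α b := by
  induction hs : a + b using Nat.strong_induction_on generalizing a b with
  | _ s ih =>
    rcases Nat.eq_zero_or_pos a with ha | ha
    · subst ha; rw [Nat.zero_xor, ev_zero, zero_add]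
    rcases Nat.eq_zero_or_pos b with hb | hb
    · subst hb; rw [Nat.xor_zero, ev_zero, add_zero]
    rw [ev_eq α (a ^^^ b), ev_eq α a, ev_eq α b, Nat.xor_div_two,
      ih (a / 2 + b / 2) (by omega) (a / 2) (b / 2) rfl]
    have h2 : (2 : R) = 0 := CharTwo.two_eq_zero
    have h1 : (if (a ^^^ b) % 2 = 1 then (1 : R) else 0) =
        (if a % 2 = 1 then 1 else 0) + (if b % 2 = 1 then 1 else 0) := by
      have hx := Nat.xor_mod_two_eq_one (a := a) (b := b)
      by_cases p1 : a % 2 = 1
      · by_cases p2 : b % 2 = 1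
        · rw [if_pos p1, if_pos p2, if_neg (by rw [hx]; tauto), one_add_one_eq_two, h2]
        · rw [if_pos p1, if_neg p2, if_pos (by rw [hx]; tauto), add_zero]
      · by_cases p2 : b % 2 = 1
        · rw [if_neg p1, if_pos p2, if_pos (by rw [hx]; tauto), zero_add]
        · rw [if_neg p1, if_neg p2, if_neg (by rw [hx]; tauto), add_zero]
    rw [h1]; ring

theorem ev_double (α : R) (a : ℕ) : ev α (2 * a) = α * ev α a := by
  rw [ev_eq]
  have h1 : 2 * a % 2 = 0 := by omega
  have h2 : 2 * a / 2 = a := by omega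
  rw [h1, h2]; simp

/-- multiplication by the generator -/
def xt (f n a : ℕ) : ℕ := if (2 * a).testBit n then (2 * a) ^^^ f else 2 * a

theorem ev_xt {α : R} {f n : ℕ} (hf : ev α f = 0) (a : ℕ) : ev α (xt f n a) = α * ev α a := by
  unfold xt
  split_ifs
  · rw [ev_xor, hf, add_zero, ev_double]
  · rw [ev_double]

/-- multiplication with fuel -/
def mm (f n : ℕ) : ℕ → ℕ → ℕ → ℕ
  | 0, _, _ => 0
  | (k + 1), a, b => (if b % 2 = 1 then a else 0) ^^^ mm f n k (xt f n a) (b / 2)

theorem ev_mm {α : R} {f n : ℕ} (hf : ev α f = 0) : ∀ (k a b : ℕ), b < 2 ^ k →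
    ev α (mm f n k a b) = ev α a * ev α b := by
  intro k
  induction k with
  | zero =>
    intro a b hb
    have : b = 0 := by simpa using hb
    subst this
    rw [mm, ev_zero, mul_zero]
  | succ k ih =>
    intro a b hb
    have hb2 : b / 2 < 2 ^ k := by rw [pow_succ] at hb; omega
    rw [mm, ev_xor, ih _ _ hb2, ev_xt hf, ev_eq α b]
    split_ifs
    · ring
    · rw [ev_zero]; ring

/-- multiplication -/
def MU (f n a b : ℕ) : ℕ := mm f n (Nat.log2 b + 1) a b

theorem ev_MU {α : R} {f n : ℕ} (hf : ev α f = 0) (a b : ℕ) :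
    ev α (MU f n a b) = ev α a * ev α b := by
  unfold MU
  exact ev_mm hf _ _ _ Nat.lt_log2_self

/-- iterated squaring -/
def sqn (f n : ℕ) : ℕ → ℕ
  | 0 => 2
  | (k + 1) => MU f n (sqn f n k) (sqn f n k)

theorem ev_sqn {α : R} {f n : ℕ} (hf : ev α f = 0) (k : ℕ) : ev α (sqn f n k) = α ^ (2 ^ k) := by
  induction k with
  | zero => rw [sqn, ev_two]; simp
  | succ k ih => rw [sqn, ev_MU hf, ih, pow_succ, pow_mul, sq]

end ev

theorem ev_map {R R' : Type*} [CommRing R] [CharP R 2] [CommRing R'] [CharP R' 2] (φ : R →+* R')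
    (α : R) (a : ℕ) : φ (ev α a) = ev (φ α) a := by
  induction a using Nat.strong_induction_on with
  | _ a ih =>
    rcases Nat.eq_zero_or_pos a with ha | ha
    · subst ha; rw [ev_zero, ev_zero, map_zero]
    · rw [ev_eq, ev_eq (φ α), map_add, map_mul, ih (a / 2) (by omega)]
      congr 1
      split_ifs <;> simp

theorem coeff_ev (i : ℕ) : ∀ a : ℕ, (ev (X : (ZMod 2)[X]) a).coeff i = if a.testBit i then 1 else 0 := by
  induction i with
  | zero =>
    intro a
    rw [ev_eq, coeff_add, coeff_X_mul_zero, add_zero, Nat.testBit_zero]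
    by_cases h : a % 2 = 1 <;> simp [h]
  | succ i ih =>
    intro a
    rw [ev_eq, coeff_add, coeff_X_mul, ih, Nat.testBit_succ]
    have : (if a % 2 = 1 then (1 : (ZMod 2)[X]) else 0).coeff (i + 1) = 0 := by
      split_ifs
      · rw [coeff_one]; simp
      · simp
    rw [this, zero_add]

theorem exists_alpha {K : Type} [Field K] [Fintype K] [DecidableEq K] [CharP K 2] [Algebra (ZMod 2) K]
    {n : ℕ} (hn : Fintype.card K = 2 ^ n) (f : ℕ) (hn0 : n ≠ 0) (hbit : f.testBit n = true)
    (hs : sqn f n n = 2) : ∃ α : K, ev α f = 0 := by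
  set fp : (ZMod 2)[X] := ev X f with hfp
  have hc : fp.coeff n = 1 := by rw [hfp, coeff_ev, hbit]; rfl
  have hfp0 : fp ≠ 0 := by
    intro h; rw [h] at hc; simp at hc
  have hdeg : fp.natDegree ≠ 0 := by
    have : n ≤ fp.natDegree := le_natDegree_of_ne_zero (by rw [hc]; exact one_ne_zero)
    omega
  -- divisibility
  have hdvd : fp ∣ X ^ (2 ^ n) - X := by
    rw [← AdjoinRoot.mk_eq_zero]
    haveI : Nontrivial (AdjoinRoot fp) := by
      apply AdjoinRoot.nontrivial
      intro h0
      exact hdeg (natDegree_eq_of_degree_eq_some h0)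
    haveI : CharP (AdjoinRoot fp) 2 :=
      charP_of_injective_algebraMap (algebraMap (ZMod 2) (AdjoinRoot fp)).injective 2
    have h1 : ev (AdjoinRoot.root fp) f = 0 := by
      have h2 := ev_map (AdjoinRoot.mk fp) X f
      rw [AdjoinRoot.mk_X] at h2
      rw [← h2, ← hfp, AdjoinRoot.mk_self]
    have h3 := ev_sqn (n := n) h1 n
    rw [hs, ev_two] at h3
    rw [map_sub, map_pow, AdjoinRoot.mk_X, ← h3, sub_self]
  have hdvd2 : fp.map (algebraMap (ZMod 2) K) ∣ X ^ (2 ^ n) - X := by
    have := Polynomial.map_dvd (algebraMap (ZMod 2) K) hdvd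
    simpa using this
  have hsplit : (X ^ (2 ^ n) - X : K[X]).Splits := by
    rw [← hn, splits_iff_card_roots, FiniteField.roots_X_pow_card_sub_X,
      FiniteField.X_pow_card_sub_X_natDegree_eq K Fintype.one_lt_card]
    rfl
  have hne : (X ^ (2 ^ n) - X : K[X]) ≠ 0 := by
    rw [← hn]; exact FiniteField.X_pow_card_sub_X_ne_zero K Fintype.one_lt_card
  have hsp2 := hsplit.of_dvd hne hdvd2
  obtain ⟨x, hx⟩ := hsp2.exists_eval_eq_zero (by
    rw [degree_map]
    intro h0
    exact hdeg (natDegree_eq_of_degree_eq_some h0))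
  refine ⟨x, ?_⟩
  rw [eval_map_algebraMap] at hx
  have h4 := ev_map (aeval (R := ZMod 2) x).toRingHom X f
  simp only [AlgHom.toRingHom_eq_coe, RingHom.coe_coe, aeval_X] at h4
  rw [← h4]
  exact hx

section cert
variable {K : Type} [Field K] [Fintype K] [DecidableEq K] [CharP K 2] [Algebra (ZMod 2) K]

theorem pc_bot : pc (⊥ : Submodule (ZMod 2) K) = 1 := by
  have : el (⊥ : Submodule (ZMod 2) K) = {0} := by ext x; simp
  unfold pc P
  rw [this]; simp

theorem pc_adj {E : Submodule (ZMod 2) K} {e : K} (he : e ∉ E) : pc (adj E e) = pc E * L E e := by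
  have h1 : P (adj E e) = P E * (P E + C (L E e)) := by
    unfold P
    rw [prod_adj he]
    congr 1
    have := P_comp E e
    unfold P at this
    rw [← this, Polynomial.prod_comp]
    apply Finset.prod_congr rfl
    intro v _
    simp; ring
  unfold pc
  rw [h1, derivative_mul, derivative_add, derivative_C, add_zero]
  simp only [eval_add, eval_mul, eval_C, P_eval, L_zero]
  ring

/-- the certificate checker -/
def run (f n : ℕ) : List ℕ → List ℕ → ℕ → ℕ → Bool
  | [], _, s, _ => Nat.beq s 0
  | _ :: _, [], _, _ => false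
  | t :: ts, u :: us, s, p => Nat.beq (MU f n t u) 1 &&
      run f n (ts.map (fun x => MU f n x x ^^^ MU f n t x)) us (s ^^^ MU f n p u) (MU f n p t)

theorem run_sound {α : K} {f n : ℕ} (hf : ev α f = 0) : ∀ (ts us : List ℕ) (s p : ℕ)
    (E : Submodule (ZMod 2) K) (vs : List K), run f n ts us s p = true →
    vs.map (L E) = ts.map (ev α) → ev α s = S E → ev α p = pc E →
    ∃ F : Submodule (ZMod 2) K, (el F).card = 2 ^ ts.length * (el E).card ∧ S F = 0 := by
  intro ts
  induction hlen : ts.length generalizing ts with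
  | zero =>
    intro us s p E vs hrun _ hs _
    have hts : ts = [] := List.eq_nil_of_length_eq_zero hlen
    subst hts
    rw [run, Nat.beq_eq] at hrun
    subst hrun
    rw [ev_zero] at hs
    exact ⟨E, by simp, hs.symm⟩
  | succ l ih =>
    intro us s p E vs hrun hvs hs hp
    obtain ⟨t, ts', rfl⟩ : ∃ t ts', ts = t :: ts' := by
      cases ts with
      | nil => simp at hlen
      | cons t ts' => exact ⟨t, ts', rfl⟩
    obtain ⟨v, vs', rfl⟩ : ∃ v vs', vs = v :: vs' := by
      cases vs with
      | nil => simp at hvs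
      | cons v vs' => exact ⟨v, vs', rfl⟩
    cases us with
    | nil => simp [run] at hrun
    | cons u us' =>
      rw [run, Bool.and_eq_true, Nat.beq_eq] at hrun
      obtain ⟨h1, h2⟩ := hrun
      rw [List.map_cons, List.map_cons, List.cons.injEq] at hvs
      obtain ⟨hv, hvs'⟩ := hvs
      have h3 : ev α t * ev α u = 1 := by rw [← ev_MU hf, h1, ev_one]
      have ht : ev α t ≠ 0 := by intro h; rw [h, zero_mul] at h3; exact zero_ne_one h3
      have hu : ev α u = (ev α t)⁻¹ := by
        field_simp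
        rw [mul_comm]; exact h3
      have hvE : v ∉ E := by
        intro h
        rw [← L_eq_zero] at h
        rw [← hv] at ht
        exact ht h
      have hlen' : (ts'.map (fun x => MU f n x x ^^^ MU f n t x)).length = l := by
        rw [List.length_map]
        simpa using hlen
      obtain ⟨F, hF1, hF2⟩ := ih _ hlen' us' _ _ (adj E v) vs' h2 (by
          rw [List.map_map]
          have e1 : vs'.map (L (adj E v)) = (vs'.map (L E)).map (fun y => y ^ 2 + ev α t * y) := by
            rw [List.map_map]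
            apply List.map_congr_left
            intro x _
            rw [L_adj hvE, hv]; rfl
          rw [e1, hvs', List.map_map]
          apply List.map_congr_left
          intro x _
          show ev α x ^ 2 + ev α t * ev α x = ev α (MU f n x x ^^^ MU f n t x)
          rw [ev_xor, ev_MU hf, ev_MU hf, sq])
        (by
          rw [ev_xor, ev_MU hf, hs, hp, S_adj hvE, g_eq hvE, hv, hu, div_eq_mul_inv])
        (by
          rw [ev_MU hf, hp, pc_adj hvE, hv])
      refine ⟨F, ?_, hF2⟩
      rw [hF1, card_adj hvE]; ring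

theorem cert_exists {n : ℕ} (hn : Fintype.card K = 2 ^ n) (f : ℕ) (hn0 : n ≠ 0)
    (hbit : f.testBit n = true) (hs : sqn f n n = 2) (ts us : List ℕ)
    (hr : run f n ts us 0 1 = true) :
    ∃ F : Submodule (ZMod 2) K, (el F).card = 2 ^ ts.length ∧ S F = 0 := by
  obtain ⟨α, hα⟩ := exists_alpha (K := K) hn f hn0 hbit hs
  obtain ⟨F, h1, h2⟩ := run_sound hα ts us 0 1 ⊥ (ts.map (ev α)) hr (by
    rw [List.map_map]
    apply List.map_congr_left
    intro x _
    show L ⊥ (ev α x) = ev α x
    rw [L_bot]) (by rw [ev_zero, S_bot]) (by rw [ev_one, pc_bot])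
  refine ⟨F, ?_, h2⟩
  have : el (⊥ : Submodule (ZMod 2) K) = {0} := by ext x; simp
  rw [h1, this]; simp

theorem c7_3 (hn : Fintype.card K = 2 ^ 7) :
    ∃ F : Submodule (ZMod 2) K, (el F).card = 2 ^ 3 ∧ S F = 0 :=
  cert_exists hn 131 (by norm_num) (by decide +kernel) (by decide +kernel)
    [1, 33, 82] [1, 38, 42] (by decide +kernel)

theorem c9_4 (hn : Fintype.card K = 2 ^ 9) :
    ∃ F : Submodule (ZMod 2) K, (el F).card = 2 ^ 4 ∧ S F = 0 :=
  cert_exists hn 529 (by norm_num) (by decide +kernel) (by decide +kernel)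
    [1, 184, 408, 98] [1, 287, 379, 403] (by decide +kernel)

theorem c11_4 (hn : Fintype.card K = 2 ^ 11) :
    ∃ F : Submodule (ZMod 2) K, (el F).card = 2 ^ 4 ∧ S F = 0 :=
  cert_exists hn 2053 (by norm_num) (by decide +kernel) (by decide +kernel)
    [1, 1590, 1932, 144] [1, 1169, 872, 430] (by decide +kernel)

theorem c11_5 (hn : Fintype.card K = 2 ^ 11) :
    ∃ F : Submodule (ZMod 2) K, (el F).card = 2 ^ 5 ∧ S F = 0 :=
  cert_exists hn 2053 (by norm_num) (by decide +kernel) (by decide +kernel)
    [1, 1970, 408, 1105, 76] [1, 1558, 1217, 1606, 137] (by decide +kernel)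

theorem c13_4 (hn : Fintype.card K = 2 ^ 13) :
    ∃ F : Submodule (ZMod 2) K, (el F).card = 2 ^ 4 ∧ S F = 0 :=
  cert_exists hn 8219 (by norm_num) (by decide +kernel) (by decide +kernel)
    [1, 3399, 1360, 4218] [1, 78, 2994, 7194] (by decide +kernel)

theorem c13_5 (hn : Fintype.card K = 2 ^ 13) :
    ∃ F : Submodule (ZMod 2) K, (el F).card = 2 ^ 5 ∧ S F = 0 :=
  cert_exists hn 8219 (by norm_num) (by decide +kernel) (by decide +kernel)
    [1, 6706, 2508, 3939, 664] [1, 743, 1653, 2572, 2241] (by decide +kernel)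

theorem c13_6 (hn : Fintype.card K = 2 ^ 13) :
    ∃ F : Submodule (ZMod 2) K, (el F).card = 2 ^ 6 ∧ S F = 0 :=
  cert_exists hn 8219 (by norm_num) (by decide +kernel) (by decide +kernel)
    [1, 7306, 1094, 908, 2600, 336] [1, 6273, 4066, 1168, 3517, 346] (by decide +kernel)

theorem c15_4 (hn : Fintype.card K = 2 ^ 15) :
    ∃ F : Submodule (ZMod 2) K, (el F).card = 2 ^ 4 ∧ S F = 0 :=
  cert_exists hn 32771 (by norm_num) (by decide +kernel) (by decide +kernel)
    [1, 23528, 29596, 3272] [1, 32173, 6862, 10920] (by decide +kernel)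

theorem c15_5 (hn : Fintype.card K = 2 ^ 15) :
    ∃ F : Submodule (ZMod 2) K, (el F).card = 2 ^ 5 ∧ S F = 0 :=
  cert_exists hn 32771 (by norm_num) (by decide +kernel) (by decide +kernel)
    [1, 3771, 22573, 27243, 4486] [1, 32564, 20702, 858, 21192] (by decide +kernel)

theorem c15_6 (hn : Fintype.card K = 2 ^ 15) :
    ∃ F : Submodule (ZMod 2) K, (el F).card = 2 ^ 6 ∧ S F = 0 :=
  cert_exists hn 32771 (by norm_num) (by decide +kernel) (by decide +kernel)
    [1, 26641, 18479, 21047, 17642, 738] [1, 8091, 28593, 22668, 9343, 15960] (by decide +kernel)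

theorem c15_7 (hn : Fintype.card K = 2 ^ 15) :
    ∃ F : Submodule (ZMod 2) K, (el F).card = 2 ^ 7 ∧ S F = 0 :=
  cert_exists hn 32771 (by norm_num) (by decide +kernel) (by decide +kernel)
    [1, 24779, 10080, 22565, 14715, 29213, 226] [1, 8152, 26991, 27840, 32182, 28597, 6539]
    (by decide +kernel)

theorem c17_6 (hn : Fintype.card K = 2 ^ 17) :
    ∃ F : Submodule (ZMod 2) K, (el F).card = 2 ^ 6 ∧ S F = 0 :=
  cert_exists hn 131081 (by norm_num) (by decide +kernel) (by decide +kernel)
    [1, 49024, 32639, 116231, 13116, 790] [1, 74712, 104532, 26745, 109968, 121169]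
    (by decide +kernel)

theorem c17_8 (hn : Fintype.card K = 2 ^ 17) :
    ∃ F : Submodule (ZMod 2) K, (el F).card = 2 ^ 8 ∧ S F = 0 :=
  cert_exists hn 131081 (by norm_num) (by decide +kernel) (by decide +kernel)
    [1, 79349, 43752, 7586, 114943, 37832, 17410, 2822]
    [1, 39905, 53425, 62260, 129828, 29979, 108106, 29271]
    (by decide +kernel)

theorem c19_6 (hn : Fintype.card K = 2 ^ 19) :
    ∃ F : Submodule (ZMod 2) K, (el F).card = 2 ^ 6 ∧ S F = 0 :=
  cert_exists hn 524327 (by norm_num) (by decide +kernel) (by decide +kernel)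
    [1, 326897, 243938, 437683, 324253, 37254] [1, 188974, 87845, 395232, 516436, 420917]
    (by decide +kernel)

end cert

end Pool.Agent.H727R3
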