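import Mathlib

set_option autoImplicit false
set_option linter.unusedSectionVars false

namespace Pool.Agent.H727R3

open Finset
open scoped Classical

theorem z2 (a : ZMod 2) : a = 0 ∨ a = 1 := by revert a; decide

section General

/-- Sum of a sign character over a finite additive group. -/
theorem sum_signchar {G : Type*} [AddCommGroup G] [Fintype G] (f : G → ℝ)
    (hadd : ∀ x y, f (x + y) = f x * f y) (h1 : ∀ x, f x = 1 ∨ f x = -1) :
    ∑ x, f x = if (∀ x, f x = 1) then (Fintype.card G : ℝ) else 0 := by
  classical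
  split_ifs with h
  · simp [h]
  · push Not at h
    obtain ⟨y, hy⟩ := h
    have hy' : f y = -1 := (h1 y).resolve_left hy
    have h2 : ∑ x, f x = ∑ x, f (x + y) :=
      (Fintype.sum_equiv (Equiv.addRight y) _ _ (fun x => rfl)).symm
    simp only [hadd, hy', mul_neg, mul_one, Finset.sum_neg_distrib] at h2
    linarith

end General

variable {K : Type} [Field K] [Fintype K] [DecidableEq K] [CharP K 2] [Algebra (ZMod 2) K]

/-- The sign character of a finite field of characteristic two. -/
noncomputable def chi (x : K) : ℝ := if Algebra.trace (ZMod 2) K x = 0 then 1 else -1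

theorem chi_cases (x : K) : chi x = 1 ∨ chi x = -1 := by
  unfold chi; split_ifs <;> simp

theorem chi_zero : chi (0 : K) = 1 := by simp [chi]

theorem chi_add (x y : K) : chi (x + y) = chi x * chi y := by
  unfold chi
  rw [map_add]
  generalize Algebra.trace (ZMod 2) K x = a
  generalize Algebra.trace (ZMod 2) K y = b
  have h11 : (1 : ZMod 2) + 1 = 0 := by decide
  rcases z2 a with rfl | rfl <;> rcases z2 b with rfl | rfl <;> simp [h11]

theorem chi_mul_self (x : K) : chi x * chi x = 1 := by
  rcases chi_cases x with h | h <;> simp [h]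

theorem abs_chi (x : K) : |chi x| = 1 := by
  rcases chi_cases x with h | h <;> simp [h]

theorem chi_ne_zero (x : K) : chi x ≠ 0 := by
  rcases chi_cases x with h | h <;> simp [h]

theorem chi_sum {ι : Type*} (s : Finset ι) (f : ι → K) : chi (∑ i ∈ s, f i) = ∏ i ∈ s, chi (f i) := by
  classical
  induction s using Finset.induction_on with
  | empty => simp [chi_zero]
  | insert a s ha ih => rw [Finset.sum_insert ha, Finset.prod_insert ha, chi_add, ih]

theorem trace_sq (x : K) : Algebra.trace (ZMod 2) K (x ^ 2) = Algebra.trace (ZMod 2) K x := by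
  have h1 := FiniteField.algebraMap_trace_eq_sum_pow (ZMod 2) K (x ^ 2)
  have h2 := FiniteField.algebraMap_trace_eq_sum_pow (ZMod 2) K x
  apply (algebraMap (ZMod 2) K).injective
  rw [h1, h2]
  simp only [Nat.card_eq_fintype_card, ZMod.card]
  have h3 : ∀ i, (x ^ 2) ^ (2 ^ i) = x ^ 2 ^ (i + 1) := by
    intro i; rw [← pow_mul, pow_succ']
  simp only [h3]
  have h4 := Finset.sum_range_succ' (fun i => x ^ 2 ^ i) (Module.finrank (ZMod 2) K)
  have h5 := Finset.sum_range_succ (fun i => x ^ 2 ^ i) (Module.finrank (ZMod 2) K)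
  rw [h5] at h4
  have h6 : x ^ 2 ^ (Module.finrank (ZMod 2) K) = x := by
    have := FiniteField.pow_card x
    rwa [Module.card_eq_pow_finrank (K := ZMod 2) (V := K), ZMod.card] at this
  rw [h6] at h4
  simp only [pow_zero, pow_one] at h4
  exact (add_right_cancel h4).symm

theorem chi_sq (x : K) : chi (x ^ 2) = chi x := by
  unfold chi; rw [trace_sq]

theorem exists_chi_neg {a : K} (ha : a ≠ 0) : ∃ y, chi (a * y) = -1 := by
  have hf : FiniteDimensional (ZMod 2) K := Module.Finite.of_finite
  have htr := (traceForm_nondegenerate (ZMod 2) K).1 a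
  simp_rw [Algebra.traceForm_apply] at htr
  by_contra h
  push Not at h
  apply ha
  apply htr
  intro y
  have := (chi_cases (a * y)).resolve_right (h y)
  unfold chi at this
  split_ifs at this with h3
  · exact h3
  · norm_num at this

theorem sum_chi_mul (a : K) :
    ∑ x : K, chi (a * x) = if a = 0 then (Fintype.card K : ℝ) else 0 := by
  classical
  rw [sum_signchar (fun x => chi (a * x)) (fun x y => by rw [mul_add, chi_add])
    (fun x => chi_cases _)]
  by_cases ha : a = 0
  · subst ha; simp [chi_zero]
  · rw [if_neg ha, if_neg]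
    push Not
    obtain ⟨y, hy⟩ := exists_chi_neg ha
    exact ⟨y, by rw [hy]; norm_num⟩

theorem sum_chi_mul' (a : K) :
    ∑ x : K, chi (x * a) = if a = 0 then (Fintype.card K : ℝ) else 0 := by
  rw [← sum_chi_mul a]
  exact Finset.sum_congr rfl (fun x _ => by rw [mul_comm])

/-- squares: the Frobenius is bijective. -/
theorem exists_sqrt (x : K) : ∃ y : K, y ^ 2 = x := by
  have hinj : Function.Injective (fun y : K => y ^ 2) := by
    intro a b hab
    have h : (a + b) ^ 2 = 0 := by
      have : (a + b) ^ 2 = a ^ 2 + b ^ 2 := add_pow_char a b (p := 2)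
      rw [this]
      have h2 : a ^ 2 = b ^ 2 := hab
      rw [h2]
      exact CharTwo.add_self_eq_zero _
    have h3 : a + b = 0 := by simpa using h
    have := CharTwo.add_eq_zero.mp h3
    exact this
  exact (Finite.injective_iff_surjective.mp hinj) x

theorem sq_inj {a b : K} (h : a ^ 2 = b ^ 2) : a = b := by
  have h2 : (a + b) ^ 2 = 0 := by
    rw [add_pow_char a b (p := 2), h]
    exact CharTwo.add_self_eq_zero _
  have h3 : a + b = 0 := by simpa using h2
  exact CharTwo.add_eq_zero.mp h3

/-! ### Submodules -/

/-- elements of a subspace as a finset -/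
noncomputable def el (D : Submodule (ZMod 2) K) : Finset K := Finset.univ.filter (· ∈ D)

@[simp] theorem mem_el {D : Submodule (ZMod 2) K} {x : K} : x ∈ el D ↔ x ∈ D := by simp [el]

/-- submodule from closure under addition -/
def mkSub (s : Set K) (h0 : (0 : K) ∈ s) (hadd : ∀ x ∈ s, ∀ y ∈ s, x + y ∈ s) :
    Submodule (ZMod 2) K where
  carrier := s
  zero_mem' := h0
  add_mem' := fun {x y} hx hy => hadd x hx y hy
  smul_mem' := by
    intro c x hx
    rcases z2 c with rfl | rfl
    · simpa using h0
    · simpa using hx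

@[simp] theorem mem_mkSub {s : Set K} {h0 : (0 : K) ∈ s} {hadd} {x : K} :
    x ∈ mkSub s h0 hadd ↔ x ∈ s := Iff.rfl

/-- orthogonal complement with respect to the trace form -/
def perp (D : Submodule (ZMod 2) K) : Submodule (ZMod 2) K :=
  mkSub {w | ∀ d ∈ D, chi (d * w) = 1} (by intro d _; rw [mul_zero, chi_zero])
    (by
      intro x hx y hy d hd
      rw [mul_add, chi_add, hx d hd, hy d hd, one_mul])

theorem mem_perp {D : Submodule (ZMod 2) K} {w : K} :
    w ∈ perp D ↔ ∀ d ∈ D, chi (d * w) = 1 := Iff.rfl

theorem card_el_pos (D : Submodule (ZMod 2) K) : 0 < (el D).card :=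
  Finset.card_pos.mpr ⟨0, by simp⟩

/-- sum of a sign character over a subspace -/
theorem sum_el_char (D : Submodule (ZMod 2) K) (f : K → ℝ)
    (hadd : ∀ x y, f (x + y) = f x * f y) (h1 : ∀ x, f x = 1 ∨ f x = -1) :
    ∑ x ∈ el D, f x = if (∀ x ∈ D, f x = 1) then ((el D).card : ℝ) else 0 := by
  classical
  have h2 : ∑ x ∈ el D, f x = ∑ x : D, f x := by
    rw [Finset.sum_subtype (el D) (p := fun x => x ∈ D) (fun x => mem_el)]
  have hc : (Fintype.card D : ℝ) = ((el D).card : ℝ) := by
    have : Fintype.card D = (el D).card := Fintype.card_of_subtype (el D) (fun x => mem_el)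
    rw [this]
  rw [h2, sum_signchar (fun x : D => f x) (fun x y => hadd x y) (fun x => h1 x), hc]
  congr 1
  simp

theorem card_mul_card_perp (D : Submodule (ZMod 2) K) :
    (el D).card * (el (perp D)).card = Fintype.card K := by
  classical
  have h1 : ∑ w : K, ∑ d ∈ el D, chi (d * w) = (Fintype.card K : ℝ) := by
    rw [Finset.sum_comm]
    simp only [sum_chi_mul]
    rw [Finset.sum_ite_eq' (el D) (0 : K)]
    simp
  have h2 : ∑ w : K, ∑ d ∈ el D, chi (d * w) = ((el D).card : ℝ) * ((el (perp D)).card : ℝ) := by
    have : ∀ w : K, ∑ d ∈ el D, chi (d * w) = if w ∈ perp D then ((el D).card : ℝ) else 0 := by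
      intro w
      rw [sum_el_char D (fun d => chi (d * w)) (fun x y => by rw [add_mul, chi_add])
        (fun x => chi_cases _)]
      simp only [mem_perp]
    simp only [this]
    rw [← Finset.sum_filter, Finset.sum_const, nsmul_eq_mul, mul_comm]
    rfl
  have := h1.symm.trans h2
  exact_mod_cast this.symm

theorem perp_perp (D : Submodule (ZMod 2) K) : perp (perp D) = D := by
  have hsub : el D ⊆ el (perp (perp D)) := by
    intro x hx
    rw [mem_el] at hx ⊢
    intro w hw
    rw [mul_comm]; exact hw x hx
  have h1 := card_mul_card_perp D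
  have h2 := card_mul_card_perp (perp D)
  have hp := card_el_pos (perp D)
  have hc : (el (perp (perp D))).card = (el D).card := by
    rw [mul_comm] at h1
    exact Nat.eq_of_mul_eq_mul_left hp (h2.trans h1.symm)
  have heq := Finset.eq_of_subset_of_card_le hsub hc.le
  ext x
  rw [← mem_el, ← mem_el (D := D), heq]

end Pool.Agent.H727R3
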