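import Pool.Agent.H727R3.Core

set_option autoImplicit false
set_option linter.unusedSectionVars false

namespace Pool.Agent.H727R3

open Finset
open scoped Classical

variable {K : Type} [Field K] [Fintype K] [DecidableEq K] [CharP K 2] [Algebra (ZMod 2) K]

/-- the quadratic extension -/
abbrev QA (K : Type) [Field K] := QuadraticAlgebra K (1 : K) (1 : K)

noncomputable instance instFintypeQA : Fintype (QA K) :=
  Fintype.ofEquiv (K × K) (QuadraticAlgebra.equivProd (1 : K) (1 : K)).symm

theorem card_QA : Fintype.card (QA K) = Fintype.card K ^ 2 := by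
  rw [Fintype.card_congr (QuadraticAlgebra.equivProd (1 : K) (1 : K)), Fintype.card_prod, sq]

/-- the quadratic form -/
def nm (z : QA K) : K := QuadraticAlgebra.norm z

theorem nm_mul (z w : QA K) : nm (z * w) = nm z * nm w := map_mul _ _ _

theorem nm_one : nm (1 : QA K) = 1 := map_one _

theorem neg_eq_self' (x : K) : -x = x := CharTwo.neg_eq x

theorem nm_eq (z : QA K) : nm z = z.re ^ 2 + z.re * z.im + z.im ^ 2 := by
  unfold nm
  rw [QuadraticAlgebra.norm_def, CharTwo.sub_eq_add]; ring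

theorem qa_add_self (z : QA K) : z + z = 0 := by
  ext
  · simp [CharTwo.add_self_eq_zero]
  · simp [CharTwo.add_self_eq_zero]

theorem qa_add_eq_zero {z w : QA K} : z + w = 0 ↔ z = w := by
  constructor
  · intro h
    have : z + w + w = w := by rw [h, zero_add]
    rwa [add_assoc, qa_add_self, add_zero] at this
  · rintro rfl; exact qa_add_self z

theorem mul_star_self (z : QA K) : z * star z = algebraMap K (QA K) (nm z) :=
  (QuadraticAlgebra.algebraMap_norm_eq_mul_star z).symm

theorem nm_eq_zero (hw : ∀ r : K, r ^ 2 ≠ 1 + 1 * r) {z : QA K} : nm z = 0 ↔ z = 0 := by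
  have : Fact (∀ r : K, r ^ 2 ≠ 1 + 1 * r) := ⟨hw⟩
  exact QuadraticAlgebra.norm_eq_zero_iff_eq_zero

theorem nm_star (z : QA K) : nm (star z) = nm z := QuadraticAlgebra.norm_star z

/-- the additive character of the extension -/
noncomputable def psi (z : QA K) : ℝ := chi z.im

theorem psi_add (z w : QA K) : psi (z + w) = psi z * psi w := by
  unfold psi; rw [QuadraticAlgebra.im_add, chi_add]

theorem psi_cases (z : QA K) : psi z = 1 ∨ psi z = -1 := chi_cases _

/-- the norm one elements -/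
noncomputable def UU (K : Type) [Field K] [Fintype K] [DecidableEq K] [CharP K 2]
    [Algebra (ZMod 2) K] : Finset (QA K) := univ.filter (fun z => nm z = 1)

theorem mem_UU {z : QA K} : z ∈ UU K ↔ nm z = 1 := by simp [UU]

/-- the character sum over the conic -/
noncomputable def W (z : QA K) : ℝ := ∑ w ∈ UU K, psi (z * w)

theorem W_zero : W (0 : QA K) = (UU K).card := by
  unfold W
  rw [Finset.sum_congr rfl (fun w _ => by rw [zero_mul]), Finset.sum_const]
  have : psi (0 : QA K) = 1 := by unfold psi; rw [QuadraticAlgebra.im_zero, chi_zero]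
  rw [this]; simp

theorem sum_UU_mul {M : Type*} [AddCommMonoid M] (f : QA K → M) {u : QA K} (hu : nm u = 1) :
    ∑ w ∈ UU K, f (u * w) = ∑ w ∈ UU K, f w := by
  have h1 : u * star u = 1 := by rw [mul_star_self, hu, map_one]
  refine Finset.sum_bij' (fun w _ => u * w) (fun w _ => star u * w) ?_ ?_ ?_ ?_ ?_
  · intro w hw
    rw [mem_UU] at hw ⊢
    rw [nm_mul, hu, hw, one_mul]
  · intro w hw
    rw [mem_UU] at hw ⊢
    rw [nm_mul, nm_star, hu, hw, one_mul]
  · intro w _
    rw [← mul_assoc, mul_comm (star u), h1, one_mul]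
  · intro w _
    rw [← mul_assoc, h1, one_mul]
  · intro w _; rfl

theorem W_mul (z : QA K) {u : QA K} (hu : nm u = 1) : W (z * u) = W z := by
  unfold W
  rw [← sum_UU_mul (fun w => psi (z * w)) hu]
  exact Finset.sum_congr rfl (fun w _ => by rw [mul_assoc])

theorem sum_psi (hw : ∀ r : K, r ^ 2 ≠ 1 + 1 * r) (t : QA K) :
    ∑ z : QA K, psi (z * t) = if t = 0 then (Fintype.card K : ℝ) ^ 2 else 0 := by
  rw [sum_signchar (fun z => psi (z * t)) (fun x y => by rw [add_mul, psi_add])
    (fun x => psi_cases _), card_QA]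
  push_cast
  have h1 : (∀ x : QA K, psi (x * t) = 1) ↔ t = 0 := by
    constructor
    · intro h
      by_contra ht
      have hn : nm t ≠ 0 := fun h0 => ht ((nm_eq_zero hw).mp h0)
      obtain ⟨c, hc⟩ := exists_chi_neg hn
      have h2 := h (⟨0, c⟩ * star t)
      have h3 : (⟨0, c⟩ : QA K) * star t * t = ⟨0, nm t * c⟩ := by
        rw [mul_assoc, mul_comm (star t), mul_star_self]
        ext
        · simp
        · simp [mul_comm]
      rw [h3] at h2
      unfold psi at h2
      simp only at h2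
      rw [hc] at h2
      norm_num at h2
    · rintro rfl x
      rw [mul_zero]
      unfold psi; rw [QuadraticAlgebra.im_zero, chi_zero]
  simp only [h1]

theorem sum_W_sq (hw : ∀ r : K, r ^ 2 ≠ 1 + 1 * r) :
    ∑ z : QA K, W z ^ 2 = (Fintype.card K : ℝ) ^ 2 * (UU K).card := by
  have h1 : ∀ z : QA K, W z ^ 2 = ∑ w ∈ UU K, ∑ w' ∈ UU K, psi (z * (w + w')) := by
    intro z
    unfold W
    rw [sq, Finset.sum_mul_sum]
    exact Finset.sum_congr rfl (fun w _ => Finset.sum_congr rfl (fun w' _ => by rw [mul_add, psi_add]))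
  rw [Finset.sum_congr rfl (fun z _ => h1 z), Finset.sum_comm]
  have h2 : ∀ w ∈ UU K, ∑ z : QA K, ∑ w' ∈ UU K, psi (z * (w + w')) = (Fintype.card K : ℝ) ^ 2 := by
    intro w hwU
    rw [Finset.sum_comm, Finset.sum_congr rfl (fun w' _ => sum_psi hw (w + w'))]
    simp only [qa_add_eq_zero]
    rw [Finset.sum_ite_eq, if_pos hwU]
  rw [Finset.sum_congr rfl h2, Finset.sum_const, nsmul_eq_mul, mul_comm]

theorem card_fiber (c : K) (hc : c ≠ 0) :
    (univ.filter (fun z : QA K => nm z = c)).card = (UU K).card := by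
  obtain ⟨d, hd⟩ := exists_sqrt c
  have hd0 : d ≠ 0 := by rintro rfl; apply hc; rw [← hd]; ring
  symm
  refine Finset.card_bij' (fun z _ => algebraMap K (QA K) d * z)
    (fun z _ => algebraMap K (QA K) d⁻¹ * z) ?_ ?_ ?_ ?_
  · intro z hz
    rw [mem_UU] at hz
    rw [Finset.mem_filter]
    refine ⟨Finset.mem_univ _, ?_⟩
    rw [nm_mul, hz, mul_one]
    unfold nm
    rw [QuadraticAlgebra.norm_algebraMap, hd]
  · intro z hz
    rw [Finset.mem_filter] at hz
    rw [mem_UU, nm_mul, hz.2]
    unfold nm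
    rw [QuadraticAlgebra.norm_algebraMap, inv_pow, hd, inv_mul_cancel₀ hc]
  · intro z _
    rw [← mul_assoc, ← map_mul, inv_mul_cancel₀ hd0, map_one, one_mul]
  · intro z _
    rw [← mul_assoc, ← map_mul, mul_inv_cancel₀ hd0, map_one, one_mul]

theorem card_UU (hw : ∀ r : K, r ^ 2 ≠ 1 + 1 * r) (hK : 1 < Fintype.card K) :
    (UU K).card = Fintype.card K + 1 := by
  have h1 : (univ : Finset (QA K)).card = ∑ c : K, (univ.filter (fun z : QA K => nm z = c)).card :=
    Finset.card_eq_sum_card_fiberwise (fun z _ => Finset.mem_univ _)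
  rw [Finset.card_univ, card_QA, ← Finset.add_sum_erase _ _ (Finset.mem_univ (0 : K))] at h1
  rw [Finset.sum_congr rfl (fun c hc => card_fiber c (Finset.ne_of_mem_erase hc)), Finset.sum_const,
    Finset.card_erase_of_mem (Finset.mem_univ _), Finset.card_univ, smul_eq_mul] at h1
  have h2 : (univ.filter (fun z : QA K => nm z = 0)).card = 1 := by
    rw [Finset.card_eq_one]
    refine ⟨0, ?_⟩
    ext z
    simp [nm_eq_zero hw]
  rw [h2] at h1
  obtain ⟨q, hq⟩ : ∃ q, Fintype.card K = q + 2 := ⟨Fintype.card K - 2, by omega⟩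
  rw [hq] at h1 ⊢
  have h3 : q + 2 - 1 = q + 1 := by omega
  rw [h3] at h1
  have h4 : (q + 1) * (UU K).card = (q + 1) * (q + 2 + 1) := by
    have : (q + 2) ^ 2 = 1 + (q + 1) * (q + 2 + 1) := by ring
    omega
  exact Nat.eq_of_mul_eq_mul_left (by omega) h4

theorem W_sq (z : QA K) : W z ^ 2 = ∑ t ∈ UU K, W (z * (1 + t)) := by
  have h1 : W z ^ 2 = ∑ w ∈ UU K, psi (z * w) * W z := by
    rw [← Finset.sum_mul]
    rw [sq]; rfl
  have h2 : ∀ w ∈ UU K, psi (z * w) * W z = ∑ t ∈ UU K, psi (z * (1 + t) * w) := by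
    intro w hwU
    rw [mem_UU] at hwU
    rw [← W_mul z hwU]
    unfold W
    rw [Finset.mul_sum]
    apply Finset.sum_congr rfl
    intro t _
    rw [← psi_add]
    congr 1; ring
  rw [h1, Finset.sum_congr rfl h2, Finset.sum_comm]
  rfl

theorem card_chord (hw : ∀ r : K, r ^ 2 ≠ 1 + 1 * r) {x : QA K} (hx : x ≠ 0) :
    ((UU K).filter (fun w => x + w ∈ UU K)).card ≤ 2 := by
  have key : ∀ w ∈ (UU K).filter (fun w => x + w ∈ UU K), w * w * star x + x * star x * w + x = 0 := by
    intro w hwm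
    rw [Finset.mem_filter, mem_UU, mem_UU] at hwm
    obtain ⟨h1, h2⟩ := hwm
    have h3 : w * star w = 1 := by rw [mul_star_self, h1, map_one]
    have h4 : (x + w) * (star x + star w) = 1 := by
      rw [← star_add, mul_star_self, h2, map_one]
    have h5 : x * star x + x * star w + w * star x = 0 := by
      have : (x + w) * (star x + star w) = x * star x + x * star w + w * star x + w * star w := by ring
      rw [this, h3] at h4
      have h6 : x * star x + x * star w + w * star x + 1 + 1 = 1 + 1 := by rw [h4]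
      rw [add_assoc _ (1 : QA K) 1, qa_add_self, add_zero] at h6
      exact h6
    have h7 : w * w * star x + x * star x * w + x * (w * star w) =
        w * (x * star x + x * star w + w * star x) := by ring
    rw [h3, h5, mul_zero, mul_one] at h7
    exact h7
  rcases Finset.eq_empty_or_nonempty ((UU K).filter (fun w => x + w ∈ UU K)) with he | ⟨w1, hw1⟩
  · rw [he]; simp
  · have hsub : (UU K).filter (fun w => x + w ∈ UU K) ⊆ {w1, x + w1} := by
      intro w2 hw2
      have k1 := key w1 hw1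
      have k2 := key w2 hw2
      have k3 : star x * ((w1 + w2) * (x + (w1 + w2))) = 0 := by
        have e1 : star x * ((w1 + w2) * (x + (w1 + w2))) =
            (w1 * w1 * star x + x * star x * w1 + x) + (w2 * w2 * star x + x * star x * w2 + x)
            + (star x * w1 * w2 + star x * w1 * w2) + (-(x + x)) := by ring
        rw [e1, k1, k2, qa_add_self (star x * w1 * w2), qa_add_self x]; simp
      have k4 : nm x * (nm (w1 + w2) * nm (x + (w1 + w2))) = 0 := by
        rw [← nm_star x, ← nm_mul, ← nm_mul, k3, (nm_eq_zero hw).mpr rfl]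
      have hnx : nm x ≠ 0 := fun h0 => hx ((nm_eq_zero hw).mp h0)
      rw [Finset.mem_insert, Finset.mem_singleton]
      rcases mul_eq_zero.mp k4 with h | h
      · exact absurd h hnx
      rcases mul_eq_zero.mp h with h | h
      · left
        exact (qa_add_eq_zero.mp ((nm_eq_zero hw).mp h)).symm
      · right
        have h8 := (nm_eq_zero hw).mp h
        rw [← add_assoc] at h8
        exact (qa_add_eq_zero.mp h8).symm
    exact (Finset.card_le_card hsub).trans Finset.card_le_two

theorem chord_sum (hw : ∀ r : K, r ^ 2 ≠ 1 + 1 * r) {z : QA K} (hz : z ≠ 0) :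
    ((UU K).card : ℝ) * ∑ t ∈ (UU K).erase 1, W (z * (1 + t)) ^ 2 ≤
      2 * ∑ x ∈ univ.erase (0 : QA K), W x ^ 2 := by
  have h1 : ∀ w ∈ UU K, ∑ t ∈ (UU K).erase 1, W (z * (1 + t)) ^ 2 =
      ∑ x ∈ univ.erase (0 : QA K), (if x + w ∈ UU K then W (z * x) ^ 2 else 0) := by
    intro w hwU
    have hwU' := hwU
    rw [mem_UU] at hwU'
    have hws : w * star w = 1 := by rw [mul_star_self, hwU', map_one]
    rw [← Finset.sum_filter]
    refine Finset.sum_bij' (fun t _ => w + w * t) (fun x _ => star w * (x + w)) ?_ ?_ ?_ ?_ ?_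
    · intro t ht
      rw [Finset.mem_erase, mem_UU] at ht
      rw [Finset.mem_filter, Finset.mem_erase]
      refine ⟨⟨?_, Finset.mem_univ _⟩, ?_⟩
      · intro h0
        have h2 := congrArg (fun y => star w * y) h0
        simp only [mul_zero, mul_add, ← mul_assoc] at h2
        rw [mul_comm (star w), hws, one_mul, qa_add_eq_zero] at h2
        exact ht.1 h2.symm
      · have : w + w * t + w = w * t := by
          rw [add_right_comm, qa_add_self, zero_add]
        rw [this, mem_UU, nm_mul, hwU', ht.2, one_mul]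
    · intro x hx
      rw [Finset.mem_filter, Finset.mem_erase, mem_UU] at hx
      rw [Finset.mem_erase, mem_UU]
      refine ⟨?_, ?_⟩
      · intro h0
        have h2 := congrArg (fun y => w * y) h0
        simp only [mul_one, ← mul_assoc] at h2
        rw [hws, one_mul] at h2
        apply hx.1.1
        have : x + w + w = w + w := by rw [h2]
        rwa [add_assoc, qa_add_self, add_zero] at this
      · rw [nm_mul, nm_star, hwU', hx.2, one_mul]
    · intro t _
      have : w + w * t + w = w * t := by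
        rw [add_right_comm, qa_add_self, zero_add]
      rw [this, ← mul_assoc, mul_comm (star w), hws, one_mul]
    · intro x _
      rw [← mul_assoc, hws, one_mul, add_comm x w, ← add_assoc, qa_add_self, zero_add]
    · intro t _
      rw [← W_mul (z * (1 + t)) hwU']
      congr 2; ring
  have h2 : ((UU K).card : ℝ) * ∑ t ∈ (UU K).erase 1, W (z * (1 + t)) ^ 2 =
      ∑ w ∈ UU K, ∑ x ∈ univ.erase (0 : QA K), (if x + w ∈ UU K then W (z * x) ^ 2 else 0) := by
    rw [← Finset.sum_congr rfl h1, Finset.sum_const, nsmul_eq_mul]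
  rw [h2, Finset.sum_comm]
  have h3 : ∑ x ∈ univ.erase (0 : QA K), W x ^ 2 = ∑ x ∈ univ.erase (0 : QA K), W (z * x) ^ 2 := by
    have hnz : nm z ≠ 0 := fun h0 => hz ((nm_eq_zero hw).mp h0)
    have hzi : z * (algebraMap K (QA K) (nm z)⁻¹ * star z) = 1 := by
      rw [mul_left_comm, mul_star_self, ← map_mul, inv_mul_cancel₀ hnz, map_one]
    symm
    refine Finset.sum_bij' (fun x _ => z * x)
      (fun x _ => (algebraMap K (QA K) (nm z)⁻¹ * star z) * x) ?_ ?_ ?_ ?_ ?_
    · intro x hx
      rw [Finset.mem_erase] at hx ⊢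
      refine ⟨?_, Finset.mem_univ _⟩
      intro h0
      apply hx.1
      calc x = (z * (algebraMap K (QA K) (nm z)⁻¹ * star z)) * x := by rw [hzi, one_mul]
        _ = (algebraMap K (QA K) (nm z)⁻¹ * star z) * (z * x) := by ring
        _ = 0 := by rw [h0, mul_zero]
    · intro x hx
      rw [Finset.mem_erase] at hx ⊢
      refine ⟨?_, Finset.mem_univ _⟩
      intro h0
      apply hx.1
      have := congrArg (fun y => z * y) h0
      simp only [mul_zero, ← mul_assoc] at this
      rw [mul_assoc z, hzi, one_mul] at this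
      exact this
    · intro x _
      rw [← mul_assoc, mul_comm _ z, hzi, one_mul]
    · intro x _
      rw [← mul_assoc, hzi, one_mul]
    · intro x _; rfl
  rw [h3, Finset.mul_sum]
  apply Finset.sum_le_sum
  intro x hx
  rw [← Finset.sum_filter, Finset.sum_const, nsmul_eq_mul]
  apply mul_le_mul_of_nonneg_right _ (sq_nonneg _)
  have := card_chord hw (Finset.ne_of_mem_erase hx)
  exact_mod_cast this

theorem W_bound (hw : ∀ r : K, r ^ 2 ≠ 1 + 1 * r) (hK : 1 < Fintype.card K) {z : QA K} (hz : z ≠ 0) :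
    (W z ^ 2 - ((Fintype.card K : ℝ) + 1)) ^ 2 ≤ 2 * (Fintype.card K : ℝ) ^ 3 := by
  set N : ℝ := (Fintype.card K : ℝ) with hN
  have hU : ((UU K).card : ℝ) = N + 1 := by rw [card_UU hw hK]; push_cast; rfl
  have h1mem : (1 : QA K) ∈ UU K := by rw [mem_UU]; exact nm_one
  have h1 : W z ^ 2 = (N + 1) + ∑ t ∈ (UU K).erase 1, W (z * (1 + t)) := by
    rw [W_sq, ← Finset.add_sum_erase _ _ h1mem, qa_add_self, mul_zero, W_zero, hU]
  have h2 : (∑ t ∈ (UU K).erase 1, W (z * (1 + t))) ^ 2 ≤
      N * ∑ t ∈ (UU K).erase 1, W (z * (1 + t)) ^ 2 := by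
    have := sq_sum_le_card_mul_sum_sq (s := (UU K).erase 1) (f := fun t => W (z * (1 + t)))
    rw [Finset.card_erase_of_mem h1mem, card_UU hw hK, Nat.add_sub_cancel] at this
    exact this
  have h3 := chord_sum hw hz
  have h4 : ∑ x ∈ univ.erase (0 : QA K), W x ^ 2 = N ^ 2 * (N + 1) - (N + 1) ^ 2 := by
    have h5 := sum_W_sq hw
    rw [← Finset.add_sum_erase _ _ (Finset.mem_univ (0 : QA K)), W_zero, hU] at h5
    linarith
  rw [h4, hU] at h3
  have hN1 : (1 : ℝ) < N := by rw [hN]; exact_mod_cast hK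
  have h6 : ∑ t ∈ (UU K).erase 1, W (z * (1 + t)) ^ 2 ≤ 2 * (N ^ 2 - (N + 1)) := by
    have h7 : (N + 1) * ∑ t ∈ (UU K).erase 1, W (z * (1 + t)) ^ 2 ≤ (N + 1) * (2 * (N ^ 2 - (N + 1))) := by
      refine h3.trans (le_of_eq ?_); ring
    exact le_of_mul_le_mul_left h7 (by linarith)
  rw [h1]
  have h8 : (N + 1 + ∑ t ∈ (UU K).erase 1, W (z * (1 + t)) - (N + 1)) ^ 2 =
      (∑ t ∈ (UU K).erase 1, W (z * (1 + t))) ^ 2 := by ring
  rw [h8]
  refine h2.trans ?_
  have h9 := mul_le_mul_of_nonneg_left h6 (show (0 : ℝ) ≤ N by linarith)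
  refine h9.trans ?_
  nlinarith

/-- the number of solutions -/
noncomputable def RR (D : Submodule (ZMod 2) K) (β : K) : Finset (QA K) :=
  univ.filter (fun w => nm w = β ^ 2 ∧ (w.re ∈ perp D ∧ w.im ∈ perp D))

theorem count_ge (hw : ∀ r : K, r ^ 2 ≠ 1 + 1 * r) (hK : 1 < Fintype.card K)
    (D : Submodule (ZMod 2) K) {β : K} (hβ : β ≠ 0) {B : ℝ} (hB : ∀ z : QA K, z ≠ 0 → |W z| ≤ B) :
    (Fintype.card K : ℝ) + 1 - (((el D).card : ℝ) ^ 2 - 1) * B ≤
      ((el D).card : ℝ) ^ 2 * (RR D β).card := by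
  have h1 : ((el D).card : ℝ) ^ 2 * (RR D β).card =
      ∑ w ∈ univ.filter (fun w : QA K => nm w = β ^ 2), (∑ a ∈ el D, chi (a * w.re)) *
        (∑ b ∈ el D, chi (b * w.im)) := by
    unfold RR
    rw [← Finset.filter_filter, Finset.card_filter]
    push_cast
    rw [Finset.mul_sum]
    apply Finset.sum_congr rfl
    intro w _
    rw [sum_el_char D (fun a => chi (a * w.re)) (fun x y => by rw [add_mul, chi_add]) (fun x => chi_cases _),
      sum_el_char D (fun a => chi (a * w.im)) (fun x y => by rw [add_mul, chi_add]) (fun x => chi_cases _)]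
    have e1 : (∀ x ∈ D, chi (x * w.re) = 1) ↔ w.re ∈ perp D := Iff.rfl
    have e2 : (∀ x ∈ D, chi (x * w.im) = 1) ↔ w.im ∈ perp D := Iff.rfl
    rw [if_congr e1 rfl rfl, if_congr e2 rfl rfl]
    by_cases p1 : w.re ∈ perp D
    · by_cases p2 : w.im ∈ perp D
      · rw [if_pos ⟨p1, p2⟩, if_pos p1, if_pos p2]; ring
      · rw [if_neg (fun h => p2 h.2), if_neg p2]; ring
    · rw [if_neg (fun h => p1 h.1), if_neg p1]; ring
  have h2 : ∀ a b : K, ∑ w ∈ univ.filter (fun w : QA K => nm w = β ^ 2), chi (a * w.re) * chi (b * w.im)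
      = W (⟨β * (a + b), β * a⟩ : QA K) := by
    intro a b
    unfold W
    refine Finset.sum_bij' (fun z _ => algebraMap K (QA K) β⁻¹ * z)
      (fun z _ => algebraMap K (QA K) β * z) ?_ ?_ ?_ ?_ ?_
    · intro z hz
      rw [Finset.mem_filter] at hz
      rw [mem_UU, nm_mul, hz.2]
      unfold nm
      rw [QuadraticAlgebra.norm_algebraMap, ← mul_pow, inv_mul_cancel₀ hβ, one_pow]
    · intro z hz
      rw [mem_UU] at hz
      rw [Finset.mem_filter]
      refine ⟨Finset.mem_univ _, ?_⟩
      rw [nm_mul, hz, mul_one]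
      unfold nm
      rw [QuadraticAlgebra.norm_algebraMap]
    · intro z _
      rw [← mul_assoc, ← map_mul, mul_inv_cancel₀ hβ, map_one, one_mul]
    · intro z _
      rw [← mul_assoc, ← map_mul, inv_mul_cancel₀ hβ, map_one, one_mul]
    · intro z _
      rw [← chi_add]
      unfold psi
      congr 1
      simp only [QuadraticAlgebra.im_mul, QuadraticAlgebra.re_mul, QuadraticAlgebra.algebraMap_re,
        QuadraticAlgebra.algebraMap_im]
      have : β * (a + b) * (β⁻¹ * z.im + 0 * z.re + 1 * 0 * z.im) +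
          β * a * (β⁻¹ * z.re + 1 * 0 * z.im) +
          1 * (β * a) * (β⁻¹ * z.im + 0 * z.re + 1 * 0 * z.im) =
          (β * β⁻¹) * (a * z.re + b * z.im + (a * z.im + a * z.im)) := by ring
      rw [this, mul_inv_cancel₀ hβ, CharTwo.add_self_eq_zero]; ring
  have h3 : ((el D).card : ℝ) ^ 2 * (RR D β).card =
      ∑ p ∈ el D ×ˢ el D, W (⟨β * (p.1 + p.2), β * p.1⟩ : QA K) := by
    rw [h1, Finset.sum_product]
    simp only [← h2]
    rw [Finset.sum_congr rfl (fun w _ => Finset.sum_mul_sum _ _ _ _), Finset.sum_comm]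
    apply Finset.sum_congr rfl
    intro a _
    rw [Finset.sum_comm]
  have h0mem : ((0 : K), (0 : K)) ∈ el D ×ˢ el D := by
    rw [Finset.mem_product]
    exact ⟨mem_el.mpr D.zero_mem, mem_el.mpr D.zero_mem⟩
  rw [h3, ← Finset.add_sum_erase _ _ h0mem]
  have h4 : W (⟨β * ((0 : K) + 0), β * 0⟩ : QA K) = (Fintype.card K : ℝ) + 1 := by
    have : (⟨β * ((0 : K) + 0), β * 0⟩ : QA K) = 0 := by
      ext <;> simp
    rw [this, W_zero, card_UU hw hK]; push_cast; rfl
  have h5 : ∑ p ∈ (el D ×ˢ el D).erase (0, 0), (-B) ≤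
      ∑ p ∈ (el D ×ˢ el D).erase (0, 0), W (⟨β * (p.1 + p.2), β * p.1⟩ : QA K) := by
    apply Finset.sum_le_sum
    intro p hp
    have hne : (⟨β * (p.1 + p.2), β * p.1⟩ : QA K) ≠ 0 := by
      intro h0
      have hre := congrArg QuadraticAlgebra.re h0
      have him := congrArg QuadraticAlgebra.im h0
      simp only [QuadraticAlgebra.re_zero, QuadraticAlgebra.im_zero] at hre him
      have q1 : p.1 = 0 := (mul_eq_zero.mp him).resolve_left hβ
      have q2 : p.1 + p.2 = 0 := (mul_eq_zero.mp hre).resolve_left hβ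
      rw [q1, zero_add] at q2
      exact Finset.ne_of_mem_erase hp (Prod.ext q1 q2)
    exact (abs_le.mp (hB _ hne)).1
  have h6 : ∑ p ∈ (el D ×ˢ el D).erase (0, 0), (-B) = -((((el D).card : ℝ) ^ 2 - 1) * B) := by
    rw [Finset.sum_const, Finset.card_erase_of_mem h0mem, Finset.card_product, nsmul_eq_mul]
    have : 1 ≤ (el D).card * (el D).card := by
      have := card_el_pos D
      exact Nat.one_le_iff_ne_zero.mpr (by positivity)
    rw [Nat.cast_sub this]; push_cast; ring
  rw [h4]
  linarith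

theorem conic_exists (hw : ∀ r : K, r ^ 2 ≠ 1 + 1 * r) (hK : 1 < Fintype.card K)
    (D : Submodule (ZMod 2) K) (hD : S D ≠ 0) {B : ℝ} (hB : ∀ z : QA K, z ≠ 0 → |W z| ≤ B)
    (hlt : ((el D).card : ℝ) ^ 2 * 3 < (Fintype.card K : ℝ) + 1 - (((el D).card : ℝ) ^ 2 - 1) * B) :
    ∃ F : Submodule (ZMod 2) K, (el F).card = 4 * (el D).card ∧ S F = 0 := by
  have h1 := count_ge hw hK D hD hB
  have hpos : (0 : ℝ) < ((el D).card : ℝ) ^ 2 := by
    have := card_el_pos D
    positivity
  have h2 : (3 : ℝ) < (RR D (S D)).card := by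
    have := lt_of_lt_of_le hlt h1
    exact lt_of_mul_lt_mul_left this hpos.le
  have h3 : 3 < (RR D (S D)).card := by exact_mod_cast h2
  set T : Finset (QA K) := {⟨0, S D⟩, ⟨S D, 0⟩, ⟨S D, S D⟩} with hT
  have h4 : T.card ≤ 3 := Finset.card_le_three
  obtain ⟨w, hwR, hwT⟩ := Finset.exists_mem_notMem_of_card_lt_card (lt_of_le_of_lt h4 h3)
  unfold RR at hwR
  rw [Finset.mem_filter] at hwR
  obtain ⟨_, hnm, hre, him⟩ := hwR
  rw [nm_eq] at hnm
  rw [hT] at hwT
  simp only [Finset.mem_insert, Finset.mem_singleton, not_or] at hwT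
  have hx : w.re ≠ 0 := by
    intro h0
    rw [h0] at hnm
    have : w.im = S D := sq_inj (by rw [← hnm]; ring)
    exact hwT.1 (by ext <;> simp [h0, this])
  have hy : w.im ≠ 0 := by
    intro h0
    rw [h0] at hnm
    have : w.re = S D := sq_inj (by rw [← hnm]; ring)
    exact hwT.2.1 (by ext <;> simp [h0, this])
  have hxy : w.im ≠ w.re := by
    intro h0
    rw [h0] at hnm
    have h5 : w.re ^ 2 = S D ^ 2 := by
      rw [← hnm]
      have : w.re ^ 2 + w.re * w.re + w.re ^ 2 = w.re ^ 2 + (w.re ^ 2 + w.re ^ 2) := by ring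
      rw [this, CharTwo.add_self_eq_zero, add_zero]
    have : w.re = S D := sq_inj h5
    exact hwT.2.2 (by ext <;> simp [h0, this])
  have hxb : w.re ∉ (⊥ : Submodule (ZMod 2) K) := by rwa [Submodule.mem_bot]
  have hyb : w.im ∉ adj (⊥ : Submodule (ZMod 2) K) w.re := by
    rw [mem_adj, Submodule.mem_bot, Submodule.mem_bot]
    rintro (h | h)
    · exact hy h
    · apply hxy
      have : w.im + w.re + w.re = w.re := by rw [h, zero_add]
      rwa [add_assoc, CharTwo.add_self_eq_zero, add_zero] at this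
  refine ⟨FF D (adj (adj ⊥ w.re) w.im), ?_, ?_⟩
  · rw [card_FF_adj hyb him, card_FF_adj hxb hre, FF_bot]; ring
  · rw [S_FF_adj hyb him, S_FF_adj hxb hre, FF_bot, L_adj hxb, L_bot, L_bot]
    have e1 : (w.im ^ 2 + w.re * w.im) ^ 2 + (w.re ^ 2 + S D ^ 2) ^ 2 =
        (w.re ^ 2 + w.re * w.im + w.im ^ 2 + S D ^ 2) ^ 2 - 2 * ((w.im ^ 2 + w.re * w.im) * (w.re ^ 2 + S D ^ 2)) := by
      ring
    have h2 : (2 : K) = 0 := CharTwo.two_eq_zero
    rw [e1, hnm, CharTwo.add_self_eq_zero, h2]; ring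

end Pool.Agent.H727R3
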