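import Pool.Agent.H727R3.Lfun

set_option autoImplicit false
set_option linter.unusedSectionVars false

namespace Pool.Agent.H727R3

open Finset
open scoped Classical

variable {K : Type} [Field K] [Fintype K] [DecidableEq K] [CharP K 2] [Algebra (ZMod 2) K]

/-- additive Hilbert 90 -/
theorem artin_schreier {a : K} (ha : chi a = 1) : ∃ t : K, t ^ 2 + t = a := by
  set im : Submodule (ZMod 2) K := mkSub {x | ∃ t : K, t ^ 2 + t = x} ⟨0, by ring⟩
    (by
      rintro x ⟨s, rfl⟩ y ⟨t, rfl⟩
      refine ⟨s + t, ?_⟩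
      have := add_pow_char s t (p := 2)
      rw [this]; ring) with him
  have h1 : ∀ u ∈ perp im, u = 0 ∨ u = 1 := by
    intro u hu
    obtain ⟨s, rfl⟩ := exists_sqrt u
    have h2 : ∀ t : K, chi ((s + s ^ 2) * t) = 1 := by
      intro t
      have h3 := hu (t ^ 2 + t) ⟨t, rfl⟩
      have h4 : (t ^ 2 + t) * s ^ 2 = (s * t) ^ 2 + s ^ 2 * t := by ring
      rw [h4, chi_add, chi_sq, ← chi_add] at h3
      rw [← h3]; congr 1; ring
    have h5 : s + s ^ 2 = 0 := by
      by_contra h
      obtain ⟨y, hy⟩ := exists_chi_neg h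
      rw [h2 y] at hy; norm_num at hy
    have h6 : s * (1 + s) = 0 := by rw [← h5]; ring
    rcases mul_eq_zero.mp h6 with h | h
    · left; rw [h]; ring
    · right
      have := CharTwo.add_eq_zero.mp h
      rw [← this]; ring
  have h2 : a ∈ perp (perp im) := by
    intro u hu
    rcases h1 u hu with rfl | rfl
    · rw [zero_mul, chi_zero]
    · rw [one_mul, ha]
  rw [perp_perp] at h2
  exact h2

/-- The main family of subspaces. -/
def FF (D E : Submodule (ZMod 2) K) : Submodule (ZMod 2) K :=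
  mkSub {u | ∀ w ∈ perp D, chi (u * L E w) = 1} (by intro w _; rw [zero_mul, chi_zero])
    (by
      intro x hx y hy w hw
      rw [add_mul, chi_add, hx w hw, hy w hw, one_mul])

theorem mem_FF {D E : Submodule (ZMod 2) K} {u : K} :
    u ∈ FF D E ↔ ∀ w ∈ perp D, chi (u * L E w) = 1 := Iff.rfl

theorem FF_bot (D : Submodule (ZMod 2) K) : FF D ⊥ = D := by
  conv_rhs => rw [← perp_perp D]
  ext u
  rw [mem_FF, mem_perp]
  simp only [L_bot, mul_comm]

theorem sq_mem_FF_adj {D E : Submodule (ZMod 2) K} {e : K} (he : e ∉ E) (s : K) :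
    s ^ 2 ∈ FF D (adj E e) ↔ s + L E e * s ^ 2 ∈ FF D E := by
  rw [mem_FF, mem_FF]
  apply forall_congr'
  intro w
  apply forall_congr'
  intro _
  rw [L_adj he]
  have h : s ^ 2 * (L E w ^ 2 + L E e * L E w) = (s * L E w) ^ 2 + L E e * s ^ 2 * L E w := by ring
  have h2 : (s + L E e * s ^ 2) * L E w = s * L E w + L E e * s ^ 2 * L E w := by ring
  rw [h, h2, chi_add, chi_add, chi_sq]

section step
variable {D E : Submodule (ZMod 2) K} {e : K}

/-- auxiliary subspace of square roots -/
def HH (D E : Submodule (ZMod 2) K) (e : K) : Submodule (ZMod 2) K :=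
  mkSub {s | s + L E e * s ^ 2 ∈ FF D E} (by
      show (0 : K) + L E e * 0 ^ 2 ∈ FF D E
      simp)
    (by
      intro x hx y hy
      show (x + y) + L E e * (x + y) ^ 2 ∈ FF D E
      have h := (FF D E).add_mem hx hy
      have h2 := add_pow_char x y (p := 2)
      rw [h2]
      convert h using 1
      ring)

theorem mem_HH {s : K} : s ∈ HH D E e ↔ s + L E e * s ^ 2 ∈ FF D E := Iff.rfl

theorem el_FF_adj (he : e ∉ E) : el (FF D (adj E e)) = (el (HH D E e)).image (· ^ 2) := by
  ext x
  rw [mem_el, Finset.mem_image]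
  obtain ⟨s, rfl⟩ := exists_sqrt x
  rw [sq_mem_FF_adj he]
  constructor
  · intro h; exact ⟨s, mem_el.mpr h, rfl⟩
  · rintro ⟨t, ht, hts⟩
    have := sq_inj hts
    subst this
    exact mem_HH.mp (mem_el.mp ht)

theorem fiber_eq (he : e ∉ E) (hep : e ∈ perp D) {g0 : K} (hg : g0 ∈ FF D E) :
    ∃ s : K, s + L E e * s ^ 2 = g0 ∧
      (el (HH D E e)).filter (fun x => x + L E e * x ^ 2 = g0) = {s, s + (L E e)⁻¹} := by
  have hy : L E e ≠ 0 := fun h => he (L_eq_zero.mp h)
  have h1 : chi (L E e * g0) = 1 := by rw [mul_comm]; exact hg e hep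
  obtain ⟨t, ht⟩ := artin_schreier h1
  refine ⟨t / L E e, ?_, ?_⟩
  · field_simp
    rw [← ht]; ring
  · ext x
    rw [Finset.mem_filter, mem_el, mem_HH, Finset.mem_insert, Finset.mem_singleton]
    have h0 : t / L E e + L E e * (t / L E e) ^ 2 = g0 := by
      field_simp
      rw [← ht]; ring
    constructor
    · rintro ⟨_, hx⟩
      have h2 : (x + t / L E e) * (1 + L E e * (x + t / L E e)) = 0 := by
        have h3 : (x + t / L E e) ^ 2 = x ^ 2 + (t / L E e) ^ 2 := add_pow_char _ _ (p := 2)
        have h4 : (x + t / L E e) * (1 + L E e * (x + t / L E e))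
            = (x + L E e * x ^ 2) + (t / L E e + L E e * (t / L E e) ^ 2) := by
          have h5 : (x + t / L E e) * (1 + L E e * (x + t / L E e))
            = (x + t / L E e) + L E e * (x + t / L E e) ^ 2 := by ring
          rw [h5, h3]; ring
        rw [h4, hx, h0, CharTwo.add_self_eq_zero]
      rcases mul_eq_zero.mp h2 with h | h
      · left; exact CharTwo.add_eq_zero.mp h
      · right
        have h3 := CharTwo.add_eq_zero.mp h
        have h4 : x + t / L E e = (L E e)⁻¹ := by field_simp; field_simp at h3; rw [mul_comm]; exact h3.symm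
        rw [← h4, add_comm x, ← add_assoc, CharTwo.add_self_eq_zero, zero_add]
    · intro hx
      have key : x + L E e * x ^ 2 = g0 := by
        rcases hx with rfl | rfl
        · exact h0
        · have h3 : (t / L E e + (L E e)⁻¹) ^ 2 = (t / L E e) ^ 2 + ((L E e)⁻¹) ^ 2 :=
            add_pow_char _ _ (p := 2)
          rw [h3]
          have h4 : L E e * ((L E e)⁻¹) ^ 2 = (L E e)⁻¹ := by field_simp
          have h5 : t / L E e + (L E e)⁻¹ + L E e * ((t / L E e) ^ 2 + ((L E e)⁻¹) ^ 2)
            = (t / L E e + L E e * (t / L E e) ^ 2) + ((L E e)⁻¹ + L E e * ((L E e)⁻¹) ^ 2) := by ring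
          rw [h5, h0, h4, CharTwo.add_self_eq_zero, add_zero]
      exact ⟨by rw [key]; exact hg, key⟩

theorem ne_fiber (he : e ∉ E) (s : K) : s ≠ s + (L E e)⁻¹ := by
  have hy : L E e ≠ 0 := fun h => he (L_eq_zero.mp h)
  intro h
  have : (L E e)⁻¹ = 0 := by
    have := congrArg (fun x => s + x) h
    simp only [CharTwo.add_self_eq_zero] at this
    rw [← add_assoc, CharTwo.add_self_eq_zero, zero_add] at this
    exact this.symm
  exact hy (inv_eq_zero.mp this)

theorem maps_HH : ∀ x ∈ el (HH D E e), x + L E e * x ^ 2 ∈ el (FF D E) := by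
  intro x hx
  rw [mem_el] at hx ⊢
  exact hx

theorem card_FF_adj (he : e ∉ E) (hep : e ∈ perp D) :
    (el (FF D (adj E e))).card = 2 * (el (FF D E)).card := by
  rw [el_FF_adj he, Finset.card_image_of_injective _ (fun a b h => sq_inj h)]
  rw [Finset.card_eq_sum_card_fiberwise (f := fun x => x + L E e * x ^ 2) (t := el (FF D E))
    (fun x hx => maps_HH x hx)]
  rw [Finset.sum_congr rfl (g := fun _ => 2)]
  · simp [mul_comm]
  · intro g0 hg0
    obtain ⟨s, _, hs2⟩ := fiber_eq he hep (mem_el.mp hg0)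
    rw [hs2, Finset.card_pair (ne_fiber he s)]

theorem S_FF_adj (he : e ∉ E) (hep : e ∈ perp D) :
    S (FF D (adj E e)) = L E e ^ 2 + S (FF D E) ^ 2 := by
  have hy : L E e ≠ 0 := fun h => he (L_eq_zero.mp h)
  have h1 : S (FF D (adj E e)) = (∑ s ∈ el (HH D E e), s⁻¹) ^ 2 := by
    unfold S
    rw [el_FF_adj he, Finset.sum_image (fun a _ b _ h => sq_inj h), CharTwo.sum_sq]
    exact Finset.sum_congr rfl (fun x _ => by rw [inv_pow])
  have h2 : ∑ s ∈ el (HH D E e), s⁻¹ = L E e + S (FF D E) := by
    rw [← Finset.sum_fiberwise_of_maps_to (g := fun x => x + L E e * x ^ 2)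
      (t := el (FF D E)) (fun x hx => maps_HH x hx)]
    have h3 : ∀ g0 ∈ el (FF D E), ∑ s ∈ (el (HH D E e)).filter (fun x => x + L E e * x ^ 2 = g0),
        s⁻¹ = (if g0 = 0 then L E e else 0) + g0⁻¹ := by
      intro g0 hg0
      obtain ⟨s, hs1, hs2⟩ := fiber_eq he hep (mem_el.mp hg0)
      rw [hs2, Finset.sum_pair (ne_fiber he s)]
      split_ifs with hz
      · subst hz
        have h4 : s * (1 + L E e * s) = 0 := by rw [← hs1]; ring
        rcases mul_eq_zero.mp h4 with h | h
        · subst h; simp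
        · have h5 := CharTwo.add_eq_zero.mp h
          have h6 : s = (L E e)⁻¹ := by field_simp; rw [mul_comm]; exact h5.symm
          rw [h6, CharTwo.add_self_eq_zero]; simp
      · have hs0 : s ≠ 0 := by
          rintro rfl; apply hz; rw [← hs1]; ring
        have hs3 : 1 + L E e * s ≠ 0 := by
          intro h; apply hz; rw [← hs1]
          have : s + L E e * s ^ 2 = s * (1 + L E e * s) := by ring
          rw [this, h, mul_zero]
        have hs4 : s + (L E e)⁻¹ = (1 + L E e * s) / L E e := by field_simp; ring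
        have hs5 : g0 = s * (1 + L E e * s) := by rw [← hs1]; ring
        rw [hs4, hs5, zero_add, inv_div]
        have h6 : s⁻¹ + L E e / (1 + L E e * s) = ((1 + L E e * s) + L E e * s) / (s * (1 + L E e * s)) := by
          rw [eq_div_iff (mul_ne_zero hs0 hs3), add_mul, div_mul_eq_mul_div]
          have h7 : L E e * (s * (1 + L E e * s)) / (1 + L E e * s) = L E e * s := by
            rw [← mul_assoc, mul_div_assoc, div_self hs3, mul_one]
          rw [h7, ← mul_assoc, inv_mul_cancel₀ hs0, one_mul]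
        rw [h6, add_assoc, CharTwo.add_self_eq_zero, add_zero, one_div]
    rw [Finset.sum_congr rfl h3, Finset.sum_add_distrib, Finset.sum_ite_eq' (el (FF D E)) (0 : K)]
    simp [S]
  rw [h1, h2, add_pow_char _ _ (p := 2)]

end step

/-- span of a tuple -/
def sp {m : ℕ} (v : Fin m → K) : Submodule (ZMod 2) K := Submodule.span (ZMod 2) (Set.range v)

theorem sp_cons {m : ℕ} (x : K) (v : Fin m → K) : sp (Fin.cons x v : Fin (m + 1) → K) = adj (sp v) x := by
  unfold sp adj
  rw [Fin.range_cons, Submodule.span_insert, sup_comm]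

theorem sp_zero (v : Fin 0 → K) : sp v = ⊥ := by
  unfold sp; simp

theorem FF_tuple (D : Submodule (ZMod 2) K) : ∀ (r : ℕ) (e : Fin r → K), LinearIndependent (ZMod 2) e →
    (∀ i, e i ∈ perp D) →
    (el (FF D (sp e))).card = 2 ^ r * (el D).card ∧
    S (FF D (sp e)) = S (FF ⊥ (sp e)) + S D ^ (2 ^ r) := by
  intro r
  induction r with
  | zero =>
    intro e _ _
    rw [sp_zero, FF_bot, FF_bot, S_bot]
    simp
  | succ r ih =>
    intro e he hp
    have hcons : e = Fin.cons (e 0) (Fin.tail e) := (Fin.cons_self_tail e).symm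
    rw [hcons] at he ⊢
    rw [linearIndependent_finCons] at he
    obtain ⟨h1, h2⟩ := ih (Fin.tail e) he.1 (fun i => hp _)
    have hne : e 0 ∉ sp (Fin.tail e) := he.2
    rw [sp_cons]
    have hp0 : e 0 ∈ perp (⊥ : Submodule (ZMod 2) K) := by
      intro d hd
      rw [Submodule.mem_bot] at hd
      rw [hd, zero_mul, chi_zero]
    constructor
    · rw [card_FF_adj hne (hp 0), h1]; ring
    · rw [S_FF_adj hne (hp 0), S_FF_adj hne hp0, h2, add_pow_char _ _ (p := 2)]
      ring

end Pool.Agent.H727R3
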