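import Pool.Agent.H727R3.Conic

set_option autoImplicit false
set_option linter.unusedSectionVars false

namespace Pool.Agent.H727R3

open Finset
open scoped Classical

variable {K : Type} [Field K] [Fintype K] [DecidableEq K] [CharP K 2] [Algebra (ZMod 2) K]

theorem no_root {n : ℕ} (hn : Fintype.card K = 2 ^ n) (hodd : n % 2 = 1) :
    ∀ r : K, r ^ 2 ≠ 1 + 1 * r := by
  intro r hr
  rw [one_mul] at hr
  have h2 : (2 : K) = 0 := CharTwo.two_eq_zero
  have h3 : r ^ 3 = 1 := by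
    have : r ^ 3 = r * r ^ 2 := by ring
    rw [this, hr]
    have : r * (1 + r) = r ^ 2 + r := by ring
    rw [this, hr]
    have : 1 + r + r = 1 + (r + r) := by ring
    rw [this, CharTwo.add_self_eq_zero, add_zero]
  have h4 : r ^ (2 ^ n) = r := by rw [← hn]; exact FiniteField.pow_card r
  obtain ⟨j, hj⟩ : ∃ j, 2 ^ n = 3 * j + 2 := by
    obtain ⟨t, ht⟩ : ∃ t, n = 2 * t + 1 := ⟨n / 2, by omega⟩
    subst ht
    clear hn hodd h4
    induction t with
    | zero => exact ⟨0, by norm_num⟩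
    | succ t ih =>
      obtain ⟨j, hj⟩ := ih
      refine ⟨4 * j + 2, ?_⟩
      have : 2 ^ (2 * (t + 1) + 1) = 4 * 2 ^ (2 * t + 1) := by ring
      rw [this, hj]; ring
  rw [hj, pow_add, pow_mul, h3, one_pow, one_mul, hr] at h4
  have h5 : (1 : K) + (r + r) = r + r := by rw [← add_assoc, h4]
  rw [CharTwo.add_self_eq_zero, add_zero] at h5
  exact one_ne_zero h5

theorem norm_form_ne (hw : ∀ r : K, r ^ 2 ≠ 1 + 1 * r) {a b : K} (ha : a ≠ 0) :
    a ^ 2 + a * b + b ^ 2 ≠ 0 := by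
  intro h0
  apply hw (b / a)
  field_simp
  have : b ^ 2 = a ^ 2 + a * b + b ^ 2 + (a ^ 2 + a * b) - 2 * (a ^ 2 + a * b) := by ring
  rw [h0] at this
  rw [this]
  have h2 : (2 : K) = 0 := CharTwo.two_eq_zero
  rw [h2]; ring

theorem S_two {a : K} (ha : a ≠ 0) : S (adj (⊥ : Submodule (ZMod 2) K) a) = a⁻¹ := by
  have hb : a ∉ (⊥ : Submodule (ZMod 2) K) := by rwa [Submodule.mem_bot]
  rw [S_adj hb, S_bot, zero_add]
  unfold g
  have : el (⊥ : Submodule (ZMod 2) K) = {0} := by ext x; simp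
  rw [this, Finset.sum_singleton, zero_add]

theorem card_bot' : (el (⊥ : Submodule (ZMod 2) K)).card = 1 := by
  have : el (⊥ : Submodule (ZMod 2) K) = {0} := by ext x; simp
  rw [this]; simp

theorem notMem_bot {a : K} (ha : a ≠ 0) : a ∉ (⊥ : Submodule (ZMod 2) K) := by
  rwa [Submodule.mem_bot]

theorem S_four (hw : ∀ r : K, r ^ 2 ≠ 1 + 1 * r) {a b : K} (ha : a ≠ 0)
    (hb : b ∉ adj (⊥ : Submodule (ZMod 2) K) a) :
    S (adj (adj (⊥ : Submodule (ZMod 2) K) a) b) ≠ 0 := by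
  have hb0 : b ≠ 0 := by
    rintro rfl; exact hb (Submodule.zero_mem _)
  have hab : b + a ≠ 0 := by
    intro h
    apply hb
    rw [mem_adj, h]
    right; exact Submodule.zero_mem _
  rw [S_adj hb, S_two ha, g_eq hb]
  have hp : pc (adj (⊥ : Submodule (ZMod 2) K) a) = L (adj ⊥ a) b * g (adj ⊥ a) b := (L_mul_g hb).symm
  rw [← g_eq hb]
  have hg : g (adj (⊥ : Submodule (ZMod 2) K) a) b = b⁻¹ + (a + b)⁻¹ := by
    unfold g
    rw [sum_adj (notMem_bot ha)]
    have : el (⊥ : Submodule (ZMod 2) K) = {0} := by ext x; simp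
    rw [this, Finset.sum_singleton, Finset.sum_singleton, zero_add, zero_add]
  rw [hg]
  have hab' : a + b ≠ 0 := by rwa [add_comm]
  intro h0
  have h1 : a⁻¹ + (b⁻¹ + (a + b)⁻¹) = (a ^ 2 + a * b + b ^ 2 + 2 * (a * b)) / (a * b * (a + b)) := by
    field_simp; ring
  have h2 : (2 : K) = 0 := CharTwo.two_eq_zero
  rw [h1, h2, zero_mul, add_zero] at h0
  rcases div_eq_zero_iff.mp h0 with h | h
  · exact norm_form_ne hw ha h
  · exact mul_ne_zero (mul_ne_zero ha hb0) hab' h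

/-- real inequality for the bound -/
theorem abs_lt_of_bound {x N B : ℝ} (h : (x ^ 2 - (N + 1)) ^ 2 ≤ 2 * N ^ 3) (hB : 0 ≤ B)
    (h1 : N + 1 ≤ B ^ 2) (h2 : 2 * N ^ 3 < (B ^ 2 - (N + 1)) ^ 2) : |x| ≤ B := by
  by_contra hc
  rw [not_le] at hc
  have h3 : B ^ 2 ≤ x ^ 2 := by
    rw [← sq_abs x]; exact pow_le_pow_left₀ hB hc.le 2
  have h4 : (B ^ 2 - (N + 1)) ^ 2 ≤ (x ^ 2 - (N + 1)) ^ 2 :=
    pow_le_pow_left₀ (by linarith) (by linarith) 2
  linarith

theorem exists_three {n : ℕ} (hn : Fintype.card K = 2 ^ n) (hodd : n % 2 = 1) (h9 : 9 ≤ n) :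
    ∃ F : Submodule (ZMod 2) K, (el F).card = 2 ^ 3 ∧ S F = 0 := by
  have hw := no_root hn hodd
  have hN : 512 ≤ Fintype.card K := by
    rw [hn]
    calc 512 = 2 ^ 9 := by norm_num
      _ ≤ 2 ^ n := Nat.pow_le_pow_right (by norm_num) h9
  have hK : 1 < Fintype.card K := by omega
  have hNr : (512 : ℝ) ≤ (Fintype.card K : ℝ) := by exact_mod_cast hN
  have hD : S (adj (⊥ : Submodule (ZMod 2) K) 1) ≠ 0 := by
    rw [S_two one_ne_zero]; simp
  have hcard : (el (adj (⊥ : Submodule (ZMod 2) K) 1)).card = 2 := by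
    rw [card_adj (notMem_bot one_ne_zero), card_bot']
  set N : ℝ := (Fintype.card K : ℝ) with hNdef
  have hB : ∀ z : QA K, z ≠ 0 → |W z| ≤ (N - 12) / 3 := by
    intro z hz
    have h1 : N ^ 2 / 10 ≤ ((N - 12) / 3) ^ 2 - (N + 1) := by nlinarith
    apply abs_lt_of_bound (W_bound hw hK hz) (by linarith)
    · have : 0 ≤ N ^ 2 / 10 := by positivity
      linarith
    · have h2 : (N ^ 2 / 10) ^ 2 ≤ (((N - 12) / 3) ^ 2 - (N + 1)) ^ 2 :=
        pow_le_pow_left₀ (by positivity) h1 2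
      have h3 : 2 * N ^ 3 < (N ^ 2 / 10) ^ 2 := by
        have : (N ^ 2 / 10) ^ 2 = N ^ 3 * (N / 100) := by ring
        rw [this]
        have h4 : 0 < N ^ 3 := by positivity
        nlinarith
      linarith
  obtain ⟨F, h1, h2⟩ := conic_exists hw hK _ hD hB (by rw [hcard]; push_cast; rw [← hNdef]; linarith)
  refine ⟨F, ?_, h2⟩
  rw [h1, hcard]; norm_num

theorem exists_four {n : ℕ} (hn : Fintype.card K = 2 ^ n) (hodd : n % 2 = 1) (h17 : 17 ≤ n) :
    ∃ F : Submodule (ZMod 2) K, (el F).card = 2 ^ 4 ∧ S F = 0 := by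
  have hw := no_root hn hodd
  have hN : 131072 ≤ Fintype.card K := by
    rw [hn]
    calc 131072 = 2 ^ 17 := by norm_num
      _ ≤ 2 ^ n := Nat.pow_le_pow_right (by norm_num) h17
  have hK : 1 < Fintype.card K := by omega
  have hNr : (131072 : ℝ) ≤ (Fintype.card K : ℝ) := by exact_mod_cast hN
  obtain ⟨b, hb⟩ : ∃ b : K, b ∉ adj (⊥ : Submodule (ZMod 2) K) 1 := by
    by_contra hcon
    have h1 : el (adj (⊥ : Submodule (ZMod 2) K) 1) = univ := by
      ext x
      simp only [mem_el, Finset.mem_univ, iff_true]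
      by_contra hx
      exact hcon ⟨x, hx⟩
    have h2 : (el (adj (⊥ : Submodule (ZMod 2) K) 1)).card = 2 := by
      rw [card_adj (notMem_bot one_ne_zero), card_bot']
    rw [h1, Finset.card_univ] at h2
    omega
  have hD := S_four hw one_ne_zero hb
  have hcard : (el (adj (adj (⊥ : Submodule (ZMod 2) K) 1) b)).card = 4 := by
    rw [card_adj hb, card_adj (notMem_bot one_ne_zero), card_bot']
  set N : ℝ := (Fintype.card K : ℝ) with hNdef
  have hB : ∀ z : QA K, z ≠ 0 → |W z| ≤ (N - 48) / 15 := by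
    intro z hz
    have h1 : N ^ 2 * (443 / 100000) ≤ ((N - 48) / 15) ^ 2 - (N + 1) := by nlinarith
    apply abs_lt_of_bound (W_bound hw hK hz) (by linarith)
    · have : 0 ≤ N ^ 2 * (443 / 100000) := by positivity
      linarith
    · have h2 : (N ^ 2 * (443 / 100000)) ^ 2 ≤ (((N - 48) / 15) ^ 2 - (N + 1)) ^ 2 :=
        pow_le_pow_left₀ (by positivity) h1 2
      have h3 : 2 * N ^ 3 < (N ^ 2 * (443 / 100000)) ^ 2 := by
        have : (N ^ 2 * (443 / 100000)) ^ 2 = N ^ 3 * (N * (443 / 100000) ^ 2) := by ring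
        rw [this]
        have h4 : 0 < N ^ 3 := by positivity
        nlinarith
      linarith
  obtain ⟨F, h1, h2⟩ := conic_exists hw hK _ hD hB (by rw [hcard]; push_cast; rw [← hNdef]; linarith)
  refine ⟨F, ?_, h2⟩
  rw [h1, hcard]; norm_num

end Pool.Agent.H727R3
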