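import Pool.Agent.H727R3.Exist

set_option autoImplicit false
set_option linter.unusedSectionVars false

namespace Pool.Agent.H727R3

theorem good_of {n m s : ℕ} (ha : 2 * ((m + 1) * (s + 2)) + m + 5 ≤ n * (s + 1))
    (hb : 2 * ((s + 1) * (m + 1)) + 2 * (s + 2) + (m + s + 3) + 3 ≤ n * (s + 1))
    (hc : m + 1 + 6 * (s + 2) ≤ n + 4) : Good n m s := by
  unfold Good
  have hX : 2 * (n * (m + s + 3)) = n * (2 * m + s + 3) + n * (s + 1) + 2 * n := by ring
  have hV : 2 * (n * (m + s + 3)) = n * (2 * m + 2 * s + 3) + 3 * n := by ring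
  have h1 : 8 * 2 ^ n * (2 ^ ((m + 1) * (s + 2)) * 2 ^ ((n * (2 * m + s + 3) + m + 1) / 2)) ≤
      2 * 2 ^ (n * (m + s + 3)) := by
    have e1 : 8 * 2 ^ n * (2 ^ ((m + 1) * (s + 2)) * 2 ^ ((n * (2 * m + s + 3) + m + 1) / 2)) =
        2 ^ (3 + n + (m + 1) * (s + 2) + (n * (2 * m + s + 3) + m + 1) / 2) := by
      rw [pow_add, pow_add, pow_add]; ring
    rw [e1, ← pow_succ']
    apply Nat.pow_le_pow_right (by norm_num)
    generalize (m + 1) * (s + 2) = P at *
    generalize n * (2 * m + s + 3) = X at *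
    generalize n * (m + s + 3) = Y at *
    generalize n * (s + 1) = Z at *
    omega
  have h2 : 8 * 2 ^ n * ((2 ^ (s + 2) - 1) * 2 ^ ((s + 1) * (m + 1)) *
      2 ^ ((n * (2 * m + s + 3) + m + s + 2) / 2)) ≤ 2 * 2 ^ (n * (m + s + 3)) := by
    have e1 : 8 * 2 ^ n * (2 ^ (s + 2) * 2 ^ ((s + 1) * (m + 1)) *
        2 ^ ((n * (2 * m + s + 3) + m + s + 2) / 2)) =
        2 ^ (3 + n + (s + 2) + (s + 1) * (m + 1) + (n * (2 * m + s + 3) + m + s + 2) / 2) := by
      rw [pow_add _ _ ((n * (2 * m + s + 3) + m + s + 2) / 2), pow_add _ _ ((s + 1) * (m + 1)),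
        pow_add _ _ (s + 2), pow_add]; ring
    have e2 : 8 * 2 ^ n * ((2 ^ (s + 2) - 1) * 2 ^ ((s + 1) * (m + 1)) *
      2 ^ ((n * (2 * m + s + 3) + m + s + 2) / 2)) ≤ 8 * 2 ^ n * (2 ^ (s + 2) * 2 ^ ((s + 1) * (m + 1)) *
        2 ^ ((n * (2 * m + s + 3) + m + s + 2) / 2)) := by
      apply Nat.mul_le_mul_left
      apply Nat.mul_le_mul_right
      apply Nat.mul_le_mul_right
      exact Nat.sub_le _ _
    refine e2.trans ?_
    rw [e1, ← pow_succ']
    apply Nat.pow_le_pow_right (by norm_num)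
    generalize (s + 1) * (m + 1) = P at *
    generalize n * (2 * m + s + 3) = X at *
    generalize n * (m + s + 3) = Y at *
    generalize n * (s + 1) = Z at *
    omega
  have h3 : 8 * 2 ^ n * ((s + 1) * (2 ^ ((n * (2 * m + 2 * s + 3) + m + 1) / 2) *
      (2 ^ (2 * s) + 2 ^ (s + 1)))) ≤ 2 * 2 ^ (n * (m + s + 3)) := by
    have f1 : s + 1 ≤ 2 ^ s := Nat.lt_two_pow_self
    have f2 : 2 ^ (2 * s) + 2 ^ (s + 1) ≤ 2 ^ (2 * s + 2) := by
      have : 2 ^ s ≤ 2 ^ (2 * s) := Nat.pow_le_pow_right (by norm_num) (by omega)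
      rw [pow_succ, pow_add _ (2 * s) 2]; omega
    have e2 : 8 * 2 ^ n * ((s + 1) * (2 ^ ((n * (2 * m + 2 * s + 3) + m + 1) / 2) *
      (2 ^ (2 * s) + 2 ^ (s + 1)))) ≤ 8 * 2 ^ n * (2 ^ s * (2 ^ ((n * (2 * m + 2 * s + 3) + m + 1) / 2) *
      (2 ^ (2 * s + 2)))) := by
      apply Nat.mul_le_mul_left
      apply Nat.mul_le_mul f1
      exact Nat.mul_le_mul_left _ f2
    refine e2.trans ?_
    have e1 : 8 * 2 ^ n * (2 ^ s * (2 ^ ((n * (2 * m + 2 * s + 3) + m + 1) / 2) *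
      (2 ^ (2 * s + 2)))) = 2 ^ (3 + n + s + (n * (2 * m + 2 * s + 3) + m + 1) / 2 + (2 * s + 2)) := by
      rw [pow_add _ _ (2 * s + 2), pow_add _ _ ((n * (2 * m + 2 * s + 3) + m + 1) / 2),
        pow_add _ _ s, pow_add]; ring
    rw [e1, ← pow_succ']
    apply Nat.pow_le_pow_right (by norm_num)
    generalize n * (2 * m + 2 * s + 3) = X at *
    generalize n * (m + s + 3) = Y at *
    omega
  have h4 : 0 < 2 ^ (n * (m + s + 3)) := by positivity
  rw [mul_add, mul_add]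
  omega

theorem good_large {n k : ℕ} (hn : 100 ≤ n) (hk : 5 ≤ k) (h2 : 2 * k + 1 ≤ n) :
    ∃ m s, k = m + s + 3 ∧ s + 2 ≤ m ∧ Good n m s := by
  set q := Nat.sqrt n with hq
  have hq1 : q * q ≤ n := Nat.sqrt_le n
  have hq2 : n < (q + 1) * (q + 1) := Nat.lt_succ_sqrt n
  have hq3 : 10 ≤ q := by
    by_contra hlt
    have : q + 1 ≤ 10 := by omega
    have : (q + 1) * (q + 1) ≤ 10 * 10 := Nat.mul_le_mul this this
    omega
  rcases Nat.lt_or_ge q ((k - 1) / 2) with hc | hc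
  · -- take r = q
    obtain ⟨s, hs⟩ : ∃ s, q = s + 2 := ⟨q - 2, by omega⟩
    obtain ⟨m, hm⟩ : ∃ m, k = m + s + 3 := ⟨k - s - 3, by omega⟩
    have hms : s + 2 ≤ m := by omega
    have h2m : 2 * (m + 1) + 2 * q + 1 ≤ n := by omega
    refine ⟨m, s, hm, hms, good_of ?_ ?_ ?_⟩
    · have e1 : n * (s + 1) + n = n * q := by rw [hs]; ring
      have e2 : (2 * (m + 1) + 2 * q + 1) * q ≤ n * q := Nat.mul_le_mul_right q h2m
      have e3 : 2 * ((m + 1) * (s + 2)) = 2 * (m + 1) * q := by rw [hs]; ring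
      rw [e3]
      nlinarith
    · have e1 : n * (s + 1) + n = n * q := by rw [hs]; ring
      have e2 : (2 * (m + 1) + 2 * q + 1) * (s + 1) ≤ n * (s + 1) := Nat.mul_le_mul_right (s + 1) h2m
      have e3 : (2 * (m + 1) + 2 * q + 1) * (s + 1) = 2 * ((s + 1) * (m + 1)) + (2 * q + 1) * (s + 1) := by ring
      have e4 : (2 * q + 1) * (s + 1) + (2 * q + 1) = (2 * q + 1) * q := by rw [hs]; ring
      nlinarith
    · nlinarith
  · -- take r = (k-1)/2
    obtain ⟨s, hs⟩ : ∃ s, (k - 1) / 2 = s + 2 := ⟨(k - 1) / 2 - 2, by omega⟩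
    obtain ⟨m, hm⟩ : ∃ m, k = m + s + 3 := ⟨k - s - 3, by omega⟩
    have hms : s + 2 ≤ m := by omega
    have hms2 : m ≤ s + 3 := by omega
    have hsq : s + 2 ≤ q := by omega
    have hsn : (s + 2) * (s + 2) ≤ n := le_trans (Nat.mul_le_mul hsq hsq) hq1
    refine ⟨m, s, hm, hms, good_of ?_ ?_ ?_⟩
    · have h20 : 2 * s + 24 ≤ n := by nlinarith
      have e1 : (2 * s + 24) * (s + 1) ≤ n * (s + 1) := Nat.mul_le_mul_right _ h20
      have e2 : (m + 1) * (s + 2) ≤ (s + 4) * (s + 2) := Nat.mul_le_mul_right _ (by omega)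
      nlinarith
    · have h20 : 2 * s + 24 ≤ n := by nlinarith
      have e1 : (2 * s + 24) * (s + 1) ≤ n * (s + 1) := Nat.mul_le_mul_right _ h20
      have e2 : (s + 1) * (m + 1) ≤ (s + 1) * (s + 4) := Nat.mul_le_mul_left _ (by omega)
      nlinarith
    · nlinarith

/-- Boolean version of the numeric check -/
def goodb (n m s : ℕ) : Bool :=
  Nat.blt (8 * 2 ^ n * (2 ^ ((m + 1) * (s + 2)) * 2 ^ ((n * (2 * m + s + 3) + m + 1) / 2) +
      (2 ^ (s + 2) - 1) * 2 ^ ((s + 1) * (m + 1)) * 2 ^ ((n * (2 * m + s + 3) + m + s + 2) / 2) +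
      (s + 1) * (2 ^ ((n * (2 * m + 2 * s + 3) + m + 1) / 2) * (2 ^ (2 * s) + 2 ^ (s + 1)))))
    (7 * 2 ^ (n * (m + s + 3)))

theorem goodb_iff {n m s : ℕ} : goodb n m s = true ↔ Good n m s := by
  unfold goodb Good
  rw [Nat.blt_eq]

/-- the list of exceptional pairs -/
def exc (n k : ℕ) : Bool :=
  (n == 17 && (k == 6 || k == 8)) || (n == 19 && k == 6)

def chk (n k : ℕ) : Bool :=
  exc n k || (List.range 8).any (fun s => Nat.ble (2 * s + 5) k && goodb n (k - s - 3) s)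

theorem chk_all : (List.range 100).all (fun n => Nat.blt n 17 || Nat.beq (n % 2) 0 ||
    (List.range 50).all (fun k => Nat.blt k 5 || Nat.blt n (2 * k + 1) || chk n k)) = true := by
  decide +kernel

theorem good_all {n k : ℕ} (hn : 17 ≤ n) (hodd : n % 2 = 1) (hk : 5 ≤ k) (h2 : 2 * k + 1 ≤ n)
    (he : exc n k = false) : ∃ m s, k = m + s + 3 ∧ s + 2 ≤ m ∧ Good n m s := by
  rcases Nat.lt_or_ge n 100 with hlt | hge
  · have h := chk_all
    rw [List.all_eq_true] at h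
    have h1 := h n (List.mem_range.mpr hlt)
    have h3 : Nat.blt n 17 = false := by
      rw [Bool.eq_false_iff]; intro h; rw [Nat.blt_eq] at h; omega
    have h4 : Nat.beq (n % 2) 0 = false := by
      rw [Bool.eq_false_iff]; intro h; rw [Nat.beq_eq] at h; omega
    rw [h3, h4, Bool.false_or, Bool.false_or, List.all_eq_true] at h1
    have h5 := h1 k (List.mem_range.mpr (by omega))
    have h6 : Nat.blt k 5 = false := by
      rw [Bool.eq_false_iff]; intro h; rw [Nat.blt_eq] at h; omega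
    have h7 : Nat.blt n (2 * k + 1) = false := by
      rw [Bool.eq_false_iff]; intro h; rw [Nat.blt_eq] at h; omega
    rw [h6, h7, Bool.false_or, Bool.false_or] at h5
    unfold chk at h5
    rw [he, Bool.false_or, List.any_eq_true] at h5
    obtain ⟨s, _, hs⟩ := h5
    rw [Bool.and_eq_true, Nat.ble_eq, goodb_iff] at hs
    exact ⟨k - s - 3, s, by omega, by omega, hs.2⟩
  · exact good_large hge hk h2

end Pool.Agent.H727R3
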