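import Pool.Agent.H727R3.Cert
import Pool.Agent.H727R3.Low
import Pool.Agent.H727R3.Num

set_option autoImplicit false
set_option linter.unusedSectionVars false

namespace Pool.Agent.H727R3

open Finset
open scoped Classical

variable {K : Type} [Field K] [Fintype K] [DecidableEq K] [CharP K 2] [Algebra (ZMod 2) K]

/-- the image of the linearized product map -/
def IL (E : Submodule (ZMod 2) K) : Submodule (ZMod 2) K :=
  mkSub {w | ∃ x, L E x = w} ⟨0, L_zero E⟩ (by
    rintro a ⟨x, rfl⟩ b ⟨y, rfl⟩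
    exact ⟨x + y, L_add E x y⟩)

theorem mem_IL {E : Submodule (ZMod 2) K} {w : K} : w ∈ IL E ↔ ∃ x, L E x = w := Iff.rfl

theorem sum_fiber {M : Type*} [AddCommMonoid M] (E : Submodule (ZMod 2) K) (x0 : K) (f : K → M) :
    ∑ x ∈ univ.filter (fun x => L E x = L E x0), f x = ∑ v ∈ el E, f (v + x0) := by
  refine Finset.sum_bij' (fun x _ => x + x0) (fun v _ => v + x0) ?_ ?_ ?_ ?_ ?_
  · intro x hx
    rw [Finset.mem_filter] at hx
    rw [mem_el]
    exact L_inj hx.2
  · intro v hv
    rw [mem_el] at hv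
    rw [Finset.mem_filter]
    exact ⟨Finset.mem_univ _, L_transl hv x0⟩
  · intro x _
    rw [add_assoc, CharTwo.add_self_eq_zero, add_zero]
  · intro x _
    rw [add_assoc, CharTwo.add_self_eq_zero, add_zero]
  · intro x _
    congr 1
    rw [add_assoc, CharTwo.add_self_eq_zero, add_zero]

theorem card_IL (E : Submodule (ZMod 2) K) : (el (IL E)).card * (el E).card = Fintype.card K := by
  have h1 : (univ : Finset K).card = ∑ w ∈ el (IL E), (univ.filter (fun x => L E x = w)).card :=
    Finset.card_eq_sum_card_fiberwise (fun x _ => mem_el.mpr ⟨x, rfl⟩)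
  rw [← Finset.card_univ, h1, ← smul_eq_mul, ← Finset.sum_const]
  apply Finset.sum_congr rfl
  intro w hw
  rw [mem_el, mem_IL] at hw
  obtain ⟨x0, rfl⟩ := hw
  have := sum_fiber E x0 (fun _ => (1 : ℕ))
  simpa using this.symm

theorem S_IL (hK : 2 < Fintype.card K) (E : Submodule (ZMod 2) K) : S E + pc E * S (IL E) = 0 := by
  have h0 : ∑ x : K, x⁻¹ = 0 := by
    have h1 : ∑ x : K, x⁻¹ = ∑ x : K, x :=
      Function.Bijective.sum_comp (inv_involutive (G := K)).bijective (fun x => x)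
    rw [h1]
    have := FiniteField.sum_pow_lt_card_sub_one K 1 (by omega)
    simpa using this
  have hmaps : ∀ x ∈ (univ : Finset K), L E x ∈ el (IL E) := fun x _ => mem_el.mpr ⟨x, rfl⟩
  have h1 : ∑ x : K, x⁻¹ = ∑ w ∈ el (IL E), ∑ x ∈ univ.filter (fun x => L E x = w), x⁻¹ :=
    (Finset.sum_fiberwise_of_maps_to hmaps _).symm
  have h0mem : (0 : K) ∈ el (IL E) := mem_el.mpr (Submodule.zero_mem _)
  rw [h0, ← Finset.add_sum_erase _ _ h0mem] at h1
  have h2 : ∑ x ∈ univ.filter (fun x => L E x = 0), x⁻¹ = S E := by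
    have := sum_fiber E 0 (fun x => x⁻¹)
    rw [L_zero] at this
    rw [this]
    unfold S
    exact Finset.sum_congr rfl (fun v _ => by rw [add_zero])
  have h3 : ∑ w ∈ (el (IL E)).erase 0, ∑ x ∈ univ.filter (fun x => L E x = w), x⁻¹ =
      pc E * S (IL E) := by
    unfold S
    rw [Finset.mul_sum, ← Finset.add_sum_erase _ _ h0mem, inv_zero, mul_zero, zero_add]
    apply Finset.sum_congr rfl
    intro w hw
    rw [Finset.mem_erase, mem_el, mem_IL] at hw
    obtain ⟨hw0, x0, rfl⟩ := hw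
    have hx0 : x0 ∉ E := fun h => hw0 (L_eq_zero.mpr h)
    rw [sum_fiber E x0 (fun x => x⁻¹), ← div_eq_mul_inv, ← g_eq hx0]
    rfl
  rw [h2, h3] at h1
  exact h1.symm

theorem dual_exists {n k : ℕ} (hn : Fintype.card K = 2 ^ n) (hn2 : 2 ≤ n) (hk : k ≤ n)
    (h : ∃ F : Submodule (ZMod 2) K, (el F).card = 2 ^ k ∧ S F = 0) :
    ∃ F : Submodule (ZMod 2) K, (el F).card = 2 ^ (n - k) ∧ S F = 0 := by
  obtain ⟨F, h1, h2⟩ := h
  have hK : 2 < Fintype.card K := by
    rw [hn]
    calc 2 < 2 ^ 2 := by norm_num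
      _ ≤ 2 ^ n := Nat.pow_le_pow_right (by norm_num) hn2
  refine ⟨IL F, ?_, ?_⟩
  · have h3 := card_IL F
    rw [h1, hn] at h3
    have h4 : 2 ^ n = 2 ^ (n - k) * 2 ^ k := by rw [← pow_add]; congr 1; omega
    rw [h4] at h3
    exact Nat.eq_of_mul_eq_mul_right (by positivity) h3
  · have h3 := S_IL hK F
    rw [h2, zero_add] at h3
    exact (mul_eq_zero.mp h3).resolve_left (pc_ne_zero F)

theorem el_inj {E F : Submodule (ZMod 2) K} (h : el E = el F) : E = F := by
  ext x
  rw [← mem_el, h, mem_el]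

theorem eq_of_le_card {E F : Submodule (ZMod 2) K} (h : E ≤ F) (hc : (el F).card ≤ (el E).card) :
    E = F := by
  apply el_inj
  apply Finset.eq_of_subset_of_card_le _ hc
  intro x hx
  rw [mem_el] at hx ⊢
  exact h hx

theorem adj_le {E F : Submodule (ZMod 2) K} (h : E ≤ F) {e : K} (he : e ∈ F) : adj E e ≤ F := by
  unfold adj
  apply sup_le h
  rwa [Submodule.span_singleton_le_iff_mem]

theorem exists_mem_notMem {E F : Submodule (ZMod 2) K} (hc : (el E).card < (el F).card) :
    ∃ x ∈ F, x ∉ E := by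
  obtain ⟨x, hx, hx2⟩ := Finset.exists_mem_notMem_of_card_lt_card hc
  rw [mem_el] at hx
  exact ⟨x, hx, fun h => hx2 (mem_el.mpr h)⟩

theorem S_ne_one {F : Submodule (ZMod 2) K} (hF : (el F).card = 2 ^ 1) : S F ≠ 0 := by
  obtain ⟨a, haF, ha⟩ := exists_mem_notMem (E := ⊥) (F := F) (by rw [card_bot', hF]; norm_num)
  have ha0 : a ≠ 0 := by rwa [Submodule.mem_bot] at ha
  have h1 : adj ⊥ a = F := by
    apply eq_of_le_card (adj_le bot_le haF)
    rw [card_adj ha, card_bot', hF]; norm_num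
  rw [← h1, S_two ha0]
  exact inv_ne_zero ha0

theorem S_ne_two (hw : ∀ r : K, r ^ 2 ≠ 1 + 1 * r) {F : Submodule (ZMod 2) K}
    (hF : (el F).card = 2 ^ 2) : S F ≠ 0 := by
  obtain ⟨a, haF, ha⟩ := exists_mem_notMem (E := ⊥) (F := F) (by rw [card_bot', hF]; norm_num)
  have ha0 : a ≠ 0 := by rwa [Submodule.mem_bot] at ha
  obtain ⟨b, hbF, hb⟩ := exists_mem_notMem (E := adj ⊥ a) (F := F) (by
    rw [card_adj ha, card_bot', hF]; norm_num)
  have h1 : adj (adj ⊥ a) b = F := by
    apply eq_of_le_card (adj_le (adj_le bot_le haF) hbF)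
    rw [card_adj hb, card_adj ha, card_bot', hF]; norm_num
  rw [← h1]
  exact S_four hw ha0 hb

/-- existence for all admissible dimensions in the lower half -/
theorem exists_low {n k : ℕ} (hn : Fintype.card K = 2 ^ n) (hodd : n % 2 = 1) (hk : 3 ≤ k)
    (h2 : 2 * k + 1 ≤ n) : ∃ F : Submodule (ZMod 2) K, (el F).card = 2 ^ k ∧ S F = 0 := by
  rcases Nat.lt_or_ge k 5 with hk5 | hk5
  · obtain rfl | rfl : k = 3 ∨ k = 4 := by omega
    · rcases Nat.lt_or_ge n 9 with h9 | h9
      · obtain rfl : n = 7 := by omega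
        exact c7_3 hn
      · exact exists_three hn hodd h9
    · rcases Nat.lt_or_ge n 17 with h17 | h17
      · obtain rfl | rfl | rfl | rfl : n = 9 ∨ n = 11 ∨ n = 13 ∨ n = 15 := by omega
        · exact c9_4 hn
        · exact c11_4 hn
        · exact c13_4 hn
        · exact c15_4 hn
      · exact exists_four hn hodd h17
  · rcases Nat.lt_or_ge n 17 with h17 | h17
    · obtain rfl | rfl | rfl : n = 11 ∨ n = 13 ∨ n = 15 := by omega
      · obtain rfl : k = 5 := by omega
        exact c11_5 hn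
      · obtain rfl | rfl : k = 5 ∨ k = 6 := by omega
        · exact c13_5 hn
        · exact c13_6 hn
      · obtain rfl | rfl | rfl : k = 5 ∨ k = 6 ∨ k = 7 := by omega
        · exact c15_5 hn
        · exact c15_6 hn
        · exact c15_7 hn
    · cases he : exc n k with
      | true =>
        unfold exc at he
        simp only [Bool.or_eq_true, Bool.and_eq_true, beq_iff_eq] at he
        rcases he with ⟨rfl, rfl | rfl⟩ | ⟨rfl, rfl⟩
        · exact c17_6 hn
        · exact c17_8 hn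
        · exact c19_6 hn
      | false =>
        obtain ⟨m, s, hm, hms, hg⟩ := good_all h17 hodd hk5 h2 he
        rw [hm]
        exact main_exists hn hms (by omega) (by omega) hg

theorem exists_all {n k : ℕ} (hn : Fintype.card K = 2 ^ n) (hodd : n % 2 = 1) (hk : 3 ≤ k)
    (h2 : k + 3 ≤ n) : ∃ F : Submodule (ZMod 2) K, (el F).card = 2 ^ k ∧ S F = 0 := by
  rcases Nat.lt_or_ge n (2 * k + 1) with h | h
  · have h3 := exists_low (K := K) (k := n - k) hn hodd (by omega) (by omega)
    have h4 := dual_exists hn (by omega) (by omega) h3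
    have h5 : n - (n - k) = k := by omega
    rwa [h5] at h4
  · exact exists_low hn hodd hk h

theorem not_exists {n k : ℕ} (hn : Fintype.card K = 2 ^ n) (hodd : n % 2 = 1) (hn3 : 3 ≤ n)
    (hk : k = 1 ∨ k = 2 ∨ k + 2 = n ∨ k + 1 = n) :
    ¬ ∃ F : Submodule (ZMod 2) K, (el F).card = 2 ^ k ∧ S F = 0 := by
  have hw := no_root hn hodd
  rintro h
  rcases hk with rfl | rfl | h3 | h3
  · obtain ⟨F, h1, h2⟩ := h; exact S_ne_one h1 h2
  · obtain ⟨F, h1, h2⟩ := h; exact S_ne_two hw h1 h2
  · obtain ⟨F, h1, h2⟩ := dual_exists hn (by omega) (by omega) h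
    have : n - k = 2 := by omega
    rw [this] at h1
    exact S_ne_two hw h1 h2
  · obtain ⟨F, h1, h2⟩ := dual_exists hn (by omega) (by omega) h
    have : n - k = 1 := by omega
    rw [this] at h1
    exact S_ne_one h1 h2

theorem g_ne_zero {E : Submodule (ZMod 2) K} {x : K} (hx : x ∉ E) : g E x ≠ 0 := by
  rw [g_eq hx]
  exact div_ne_zero (pc_ne_zero E) (fun h => hx (L_eq_zero.mp h))

theorem g_mem {E : Submodule (ZMod 2) K} {x : K} (hx : x ∈ E) : g E x = S E := by
  unfold g S
  refine Finset.sum_bij' (fun v _ => v + x) (fun v _ => v + x) ?_ ?_ ?_ ?_ ?_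
  · intro v hv; rw [mem_el] at hv ⊢; exact E.add_mem hv hx
  · intro v hv; rw [mem_el] at hv ⊢; exact E.add_mem hv hx
  · intro v _; rw [add_assoc, CharTwo.add_self_eq_zero, add_zero]
  · intro v _; rw [add_assoc, CharTwo.add_self_eq_zero, add_zero]
  · intro v _; rfl

theorem card_el_iff (F : Submodule (ZMod 2) K) (k : ℕ) :
    Module.finrank (ZMod 2) F = k ↔ (el F).card = 2 ^ k := by
  have h1 : (el F).card = 2 ^ Module.finrank (ZMod 2) F := by
    have h2 : Fintype.card F = Fintype.card (ZMod 2) ^ Module.finrank (ZMod 2) F :=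
      Module.card_eq_pow_finrank
    rw [ZMod.card] at h2
    rw [← h2, Fintype.card_subtype]
    congr 1
  rw [h1]
  constructor
  · intro h; rw [h]
  · intro h; exact Nat.pow_right_injective (le_refl 2) h

theorem finsum_el (F : Submodule (ZMod 2) K) (f : K → K) :
    ∑ᶠ v ∈ (F : Set K), f v = ∑ v ∈ el F, f v := by
  have h1 : (F : Set K) = ((el F : Finset K) : Set K) := by
    ext x; simp
  rw [h1, finsum_mem_coe_finset]

end Pool.Agent.H727R3
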