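import Pool.Agent.H727R3.Main

set_option autoImplicit false
set_option linter.unusedSectionVars false

namespace Pool.Agent.H727R3

open Finset
open scoped Classical

variable {K : Type} [Field K] [Fintype K] [DecidableEq K] [CharP K 2] [Algebra (ZMod 2) K]

theorem chi_pow2 (x : K) (k : ℕ) : chi (x ^ (2 ^ k)) = chi x := by
  induction k with
  | zero => simp
  | succ k ih => rw [pow_succ, pow_mul, chi_sq, ih]

/-- scaling of tuples -/
def scT {m : ℕ} (c : K) (hc : c ≠ 0) : (Fin m → K) ≃ (Fin m → K) where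
  toFun d := fun i => c * d i
  invFun d := fun i => c⁻¹ * d i
  left_inv d := by funext i; simp only; rw [← mul_assoc, inv_mul_cancel₀ hc, one_mul]
  right_inv d := by funext i; simp only; rw [← mul_assoc, mul_inv_cancel₀ hc, one_mul]

theorem Ind_scale {m : ℕ} {c : K} (hc : c ≠ 0) (d : Fin m → K) :
    Ind (fun i => c * d i) ↔ Ind d := by
  unfold Ind
  rw [sp_scal, card_scal hc]

theorem orth_scale {h r : ℕ} {c : K} (hc : c ≠ 0) (d : Fin h → K) (e : Fin r → K) :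
    orth (fun i => c⁻¹ * d i) (fun j => c * e j) ↔ orth d e := by
  unfold orth
  apply forall_congr'; intro i
  apply forall_congr'; intro j
  have : c⁻¹ * d i * (c * e j) = d i * e j := by field_simp
  rw [this]

theorem TT_scale (m s : ℕ) {c : K} (hc : c ≠ 0) :
    ∑ d : Fin (m + 1) → K, ∑ e : Fin (s + 2) → K, (if (Ind d ∧ Ind e) ∧ orth d e then
      chi (c ^ (2 ^ (s + 2)) * (S (sp d) ^ (2 ^ (s + 2)) + S (FF ⊥ (sp e)))) else 0) = TT K m s := by
  unfold TT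
  have hc' : c⁻¹ ≠ 0 := inv_ne_zero hc
  symm
  rw [← Equiv.sum_comp (scT (m := m + 1) c⁻¹ hc')]
  apply Finset.sum_congr rfl
  intro d _
  rw [← Equiv.sum_comp (scT (m := s + 2) c hc)]
  apply Finset.sum_congr rfl
  intro e _
  symm
  show _ = uD (m + 1) (sp (fun i => c⁻¹ * d i)) * vE (s + 2) (sp (fun j => c * e j)) *
    (if orth (fun i => c⁻¹ * d i) (fun j => c * e j) then 1 else 0)
  simp only [orth_scale hc]
  unfold uD vE
  rw [sp_scal, sp_scal, card_scal hc', card_scal hc, S_scal hc', S_FF_scal hc, inv_inv]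
  unfold Ind
  by_cases h1 : (el (sp d)).card = 2 ^ (m + 1)
  · by_cases h2 : (el (sp e)).card = 2 ^ (s + 2)
    · by_cases h3 : orth d e
      · rw [if_pos ⟨⟨h1, h2⟩, h3⟩, if_pos h1, if_pos h2, if_pos h3, mul_one, h2, ← chi_pow2 (c * S (sp d)) (s + 2),
          mul_pow, ← chi_add]
        congr 1; ring
      · rw [if_neg (fun h => h3 h.2), if_neg h3, mul_zero]
    · rw [if_neg (fun h => h2 h.1.2), if_neg h2, mul_zero, zero_mul]
  · rw [if_neg (fun h => h1 h.1.1), if_neg h1, zero_mul, zero_mul]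

/-- The numeric condition -/
def Good (n m s : ℕ) : Prop :=
  8 * 2 ^ n * (2 ^ ((m + 1) * (s + 2)) * 2 ^ ((n * (2 * m + s + 3) + m + 1) / 2) +
      (2 ^ (s + 2) - 1) * 2 ^ ((s + 1) * (m + 1)) * 2 ^ ((n * (2 * m + s + 3) + m + s + 2) / 2) +
      (s + 1) * (2 ^ ((n * (2 * m + 2 * s + 3) + m + 1) / 2) * (2 ^ (2 * s) + 2 ^ (s + 1)))) <
    7 * 2 ^ (n * (m + s + 3))

theorem sum_all (m s : ℕ) (h0 : ∀ (d : Fin (m + 1) → K) (e : Fin (s + 2) → K), Ind d → Ind e →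
    orth d e → S (sp d) ^ (2 ^ (s + 2)) + S (FF ⊥ (sp e)) ≠ 0) :
    PP K (m + 1) (s + 2) + ((Fintype.card K : ℝ) - 1) * TT K m s = 0 := by
  -- total double sum
  have h1 : ∑ t : K, ∑ d : Fin (m + 1) → K, ∑ e : Fin (s + 2) → K,
      (if (Ind d ∧ Ind e) ∧ orth d e then
      chi (t * (S (sp d) ^ (2 ^ (s + 2)) + S (FF ⊥ (sp e)))) else 0) = 0 := by
    rw [Finset.sum_comm]
    apply Finset.sum_eq_zero
    intro d _
    rw [Finset.sum_comm]
    apply Finset.sum_eq_zero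
    intro e _
    by_cases h2 : (Ind d ∧ Ind e) ∧ orth d e
    · simp only [if_pos h2]
      rw [sum_chi_mul', if_neg (h0 d e h2.1.1 h2.1.2 h2.2)]
    · simp only [if_neg h2]
      rw [Finset.sum_const_zero]
  have h2 : ∀ t : K, t ≠ 0 → ∑ d : Fin (m + 1) → K, ∑ e : Fin (s + 2) → K,
      (if (Ind d ∧ Ind e) ∧ orth d e then
      chi (t * (S (sp d) ^ (2 ^ (s + 2)) + S (FF ⊥ (sp e)))) else 0) = TT K m s := by
    intro t ht
    obtain ⟨c, hc⟩ := (pow2_bij (K := K) (s + 2)).2 t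
    simp only at hc
    have hc0 : c ≠ 0 := by
      rintro rfl
      apply ht
      rw [← hc, zero_pow (by positivity)]
    rw [← hc]
    exact TT_scale m s hc0
  rw [← Finset.add_sum_erase _ _ (Finset.mem_univ (0 : K))] at h1
  have h3 : ∑ t ∈ univ.erase (0 : K), ∑ d : Fin (m + 1) → K, ∑ e : Fin (s + 2) → K,
      (if (Ind d ∧ Ind e) ∧ orth d e then
      chi (t * (S (sp d) ^ (2 ^ (s + 2)) + S (FF ⊥ (sp e)))) else 0) =
      ((Fintype.card K : ℝ) - 1) * TT K m s := by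
    rw [Finset.sum_congr rfl (fun t ht => h2 t (Finset.ne_of_mem_erase ht)), Finset.sum_const,
      Finset.card_erase_of_mem (Finset.mem_univ _), Finset.card_univ, nsmul_eq_mul,
      Nat.cast_sub Fintype.card_pos]
    push_cast
    rfl
  rw [h3] at h1
  rw [← h1]
  congr 1
  unfold PP
  apply Finset.sum_congr rfl
  intro d _
  apply Finset.sum_congr rfl
  intro e _
  rw [zero_mul, chi_zero]

theorem main_exists {n m s : ℕ} (hn : Fintype.card K = 2 ^ n) (hms : s + 2 ≤ m)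
    (h2k : 2 * (m + s + 3) ≤ n) (hk4 : m + s + 3 + 4 ≤ n) (hg : Good n m s) :
    ∃ F : Submodule (ZMod 2) K, (el F).card = 2 ^ (m + s + 3) ∧ S F = 0 := by
  have key : ∃ (d : Fin (m + 1) → K) (e : Fin (s + 2) → K), Ind d ∧ Ind e ∧
    orth d e ∧ S (sp d) ^ (2 ^ (s + 2)) + S (FF ⊥ (sp e)) = 0 := by
    by_contra hcon
    have h0 : ∀ (d : Fin (m + 1) → K) (e : Fin (s + 2) → K), Ind d → Ind e →
        orth d e → S (sp d) ^ (2 ^ (s + 2)) + S (FF ⊥ (sp e)) ≠ 0 := by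
      intro d e h1 h2 h3 h4
      exact hcon ⟨d, e, h1, h2, h3, h4⟩
    have h1 := sum_all m s h0
    have h2 := PP_ge (K := K) (h := m + 1) (r := s + 2) hn (by omega) (by omega) (by omega)
    have h3 := sum_Th_le (K := K) hms hn h2k
    have h4 : |(2 : ℝ) ^ ((m + 1) * (s + 2)) * TT K m s| ≤
        ∑ A : Matrix (Fin (m + 1)) (Fin (s + 2)) (ZMod 2), |Th K A| := by
      rw [TT_eq]; exact Finset.abs_sum_le_sum_abs _ _
    have hN : (Fintype.card K : ℝ) = 2 ^ n := by rw [hn]; push_cast; rfl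
    have hN1 : (1 : ℝ) ≤ 2 ^ n := one_le_pow₀ (by norm_num)
    rw [hN] at h1
    unfold Good at hg
    have hg' : (8 : ℝ) * 2 ^ n * (2 ^ ((m + 1) * (s + 2)) * 2 ^ ((n * (2 * m + s + 3) + m + 1) / 2) +
      (2 ^ (s + 2) - 1) * 2 ^ ((s + 1) * (m + 1)) * 2 ^ ((n * (2 * m + s + 3) + m + s + 2) / 2) +
      (s + 1) * (2 ^ ((n * (2 * m + 2 * s + 3) + m + 1) / 2) * (2 ^ (2 * s) + 2 ^ (s + 1)))) <
      7 * 2 ^ (n * (m + s + 3)) := by
      have h5 : (((2 ^ (s + 2) - 1 : ℕ)) : ℝ) = 2 ^ (s + 2) - 1 := by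
        rw [Nat.cast_sub Nat.one_le_two_pow]; push_cast; rfl
      rw [← h5]
      exact_mod_cast hg
    set X : ℝ := 2 ^ ((m + 1) * (s + 2)) * 2 ^ ((n * (2 * m + s + 3) + m + 1) / 2) +
      (2 ^ (s + 2) - 1) * 2 ^ ((s + 1) * (m + 1)) * 2 ^ ((n * (2 * m + s + 3) + m + s + 2) / 2) +
      (s + 1) * (2 ^ ((n * (2 * m + 2 * s + 3) + m + 1) / 2) * (2 ^ (2 * s) + 2 ^ (s + 1))) with hX
    have h6 : |(2 : ℝ) ^ ((m + 1) * (s + 2)) * TT K m s| ≤ X := h4.trans h3
    have h7 := neg_abs_le ((2 : ℝ) ^ ((m + 1) * (s + 2)) * TT K m s)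
    have h8 : (2 : ℝ) ^ ((m + 1) * (s + 2)) * PP K (m + 1) (s + 2) =
        -((2 ^ n - 1) * ((2 : ℝ) ^ ((m + 1) * (s + 2)) * TT K m s)) := by
      have : PP K (m + 1) (s + 2) = - ((2 ^ n - 1) * TT K m s) := by linarith
      rw [this]; ring
    have h9 : -((2 ^ n - 1) * ((2 : ℝ) ^ ((m + 1) * (s + 2)) * TT K m s)) ≤ (2 ^ n - 1) * X := by
      rw [← mul_neg]
      apply mul_le_mul_of_nonneg_left _ (by linarith)
      linarith
    have hX0 : 0 ≤ X := le_trans (abs_nonneg _) h6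
    have h10 : n * (m + 1 + (s + 2)) = n * (m + s + 3) := by ring
    rw [h10] at h2
    nlinarith
  obtain ⟨d, e, hd, he, ho, hS⟩ := key
  rw [orth_iff] at ho
  obtain ⟨h1, h2⟩ := FF_tuple' (sp d) (s + 2) e he ho
  refine ⟨FF (sp d) (sp e), ?_, ?_⟩
  · rw [h1]
    unfold Ind at hd
    rw [hd, ← pow_add]
    congr 1; ring
  · rw [h2, add_comm, hS]

end Pool.Agent.H727R3
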