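import Pool.Agent.H727R3.Dual

set_option autoImplicit false
set_option linter.unusedSectionVars false

namespace Pool.Agent.H727R3

open scoped Classical

theorem main_one (n : ℕ) (hodd : Odd n) (h7 : 7 ≤ n) (k : ℕ) :
      ((1 ≤ k ∧ k ≤ n - 1 ∧
        ∃ F : Subspace (ZMod 2) (GaloisField 2 n),
          Module.finrank (ZMod 2) F = k ∧
          ∑ᶠ v ∈ (F : Set (GaloisField 2 n)), v⁻¹ = 0) ↔
        (3 ≤ k ∧ k ≤ n - 3)) := by
  letI : Fintype (GaloisField 2 n) := Fintype.ofFinite _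
  have hn : Fintype.card (GaloisField 2 n) = 2 ^ n := by
    rw [← Nat.card_eq_fintype_card, GaloisField.card 2 n (by omega)]
  have ho : n % 2 = 1 := Nat.odd_iff.mp hodd
  have hiff : (∃ F : Subspace (ZMod 2) (GaloisField 2 n),
          Module.finrank (ZMod 2) F = k ∧
          ∑ᶠ v ∈ (F : Set (GaloisField 2 n)), v⁻¹ = 0) ↔
      ∃ F : Submodule (ZMod 2) (GaloisField 2 n), (el F).card = 2 ^ k ∧ S F = 0 := by
    constructor
    · rintro ⟨F, h1, h2⟩
      refine ⟨F, (card_el_iff F k).mp h1, ?_⟩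
      rw [finsum_el F (fun v => v⁻¹)] at h2
      exact h2
    · rintro ⟨F, h1, h2⟩
      refine ⟨F, (card_el_iff F k).mpr h1, ?_⟩
      rw [finsum_el F (fun v => v⁻¹)]
      exact h2
  rw [hiff]
  constructor
  · rintro ⟨h1, h2, h3⟩
    by_contra hcon
    exact not_exists (K := GaloisField 2 n) (k := k) hn ho (by omega) (by omega) h3
  · rintro ⟨h1, h2⟩
    exact ⟨by omega, by omega, exists_all hn ho h1 (by omega)⟩

theorem main_two (n : ℕ) (h3 : 3 ≤ n) (hodd : Odd n) (k : ℕ) (hk1 : 1 ≤ k) (hk2 : k ≤ n - 1) :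
      ((∀ V : Submodule (ZMod 2) (GaloisField 2 n),
          Module.finrank (ZMod 2) V = k →
            ∀ a : GaloisField 2 n,
              ∑ᶠ x ∈ (V : Set (GaloisField 2 n)), (a + x)⁻¹ ≠ 0) ↔
        (k = 1 ∨ k = 2 ∨ k = n - 2 ∨ k = n - 1)) := by
  letI : Fintype (GaloisField 2 n) := Fintype.ofFinite _
  have hn : Fintype.card (GaloisField 2 n) = 2 ^ n := by
    rw [← Nat.card_eq_fintype_card, GaloisField.card 2 n (by omega)]
  have ho : n % 2 = 1 := Nat.odd_iff.mp hodd
  constructor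
  · intro h
    by_contra hcon
    obtain ⟨F, h1, h2⟩ := exists_all (K := GaloisField 2 n) (k := k) hn ho (by omega) (by omega)
    apply h F ((card_el_iff F k).mpr h1) 0
    rw [finsum_el F (fun x => (0 + x)⁻¹)]
    refine Eq.trans ?_ h2
    unfold S
    exact Finset.sum_congr rfl (fun v _ => by rw [zero_add])
  · intro h V hV a
    rw [finsum_el V (fun x => (a + x)⁻¹)]
    have h1 : ∑ x ∈ el V, (a + x)⁻¹ = g V a := by
      unfold g
      exact Finset.sum_congr rfl (fun v _ => by rw [add_comm])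
    rw [h1]
    by_cases ha : a ∈ V
    · rw [g_mem ha]
      intro h0
      exact not_exists (K := GaloisField 2 n) (k := k) hn ho h3 (by omega)
        ⟨V, (card_el_iff V k).mp hV, h0⟩
    · exact g_ne_zero ha

end Pool.Agent.H727R3
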