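import Pool.Agent.H727R3.Beta

set_option autoImplicit false
set_option linter.unusedSectionVars false

namespace Pool.Agent.H727R3

open Finset
open scoped Classical

variable {K : Type} [Field K] [Fintype K] [DecidableEq K] [CharP K 2] [Algebra (ZMod 2) K]

/-- rank one shift -/
def sh {m : ℕ} (q : Fin m → ZMod 2) (v : K) : Fin m → K := fun i => q i • v

/-- reduced tuple -/
def red {m : ℕ} (l : Fin (m + 1)) (q : Fin (m + 1) → ZMod 2) (d : Fin (m + 1) → K) : Fin m → K :=
  fun i => d (l.succAbove i) + q (l.succAbove i) • d l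

theorem two_smul_self (c : ZMod 2) (x : K) : c • x + c • x = 0 := CharTwo.add_self_eq_zero _

theorem sp_shift {m : ℕ} (l : Fin (m + 1)) (q : Fin (m + 1) → ZMod 2) (hl : q l = 1)
    (d : Fin (m + 1) → K) (v : K) : sp (d + sh q v) = adj (sp (red l q d)) (d l + v) := by
  have hr : ∀ i, red l q d i = (d + sh q v) (l.succAbove i) + q (l.succAbove i) • (d l + v) := by
    intro i
    simp only [red, Pi.add_apply, sh, smul_add]
    have := two_smul_self (q (l.succAbove i)) v
    linear_combination this.symm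
  have hl2 : (d + sh q v) l = d l + v := by simp [sh, hl]
  apply le_antisymm
  · unfold sp
    rw [Submodule.span_le]
    rintro x ⟨i, rfl⟩
    rcases Fin.eq_self_or_eq_succAbove l i with h | ⟨j, h⟩
    · rw [h, hl2]
      change d l + v ∈ adj (sp (red l q d)) (d l + v)
      rw [mem_adj]; right
      rw [CharTwo.add_self_eq_zero]; exact Submodule.zero_mem _
    · rw [h]
      change (d + sh q v) (l.succAbove j) ∈ adj (sp (red l q d)) (d l + v)
      have h2 : (d + sh q v) (l.succAbove j) = red l q d j + q (l.succAbove j) • (d l + v) := by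
        rw [hr j, add_assoc, two_smul_self, add_zero]
      rw [h2]
      apply Submodule.add_mem
      · exact Submodule.mem_sup_left (Submodule.subset_span ⟨j, rfl⟩)
      · apply Submodule.smul_mem
        exact Submodule.mem_sup_right (Submodule.mem_span_singleton_self _)
  · unfold adj
    rw [sup_le_iff]
    constructor
    · unfold sp
      rw [Submodule.span_le]
      rintro x ⟨i, rfl⟩
      change red l q d i ∈ Submodule.span (ZMod 2) (Set.range (d + sh q v))
      rw [hr i]
      apply Submodule.add_mem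
      · exact Submodule.subset_span ⟨_, rfl⟩
      · apply Submodule.smul_mem
        rw [← hl2]
        exact Submodule.subset_span ⟨_, rfl⟩
    · rw [Submodule.span_singleton_le_iff_mem, ← hl2]
      exact Submodule.subset_span ⟨_, rfl⟩

theorem shift1 {m : ℕ} (f : Submodule (ZMod 2) K → ℝ) (l : Fin (m + 1)) (q : Fin (m + 1) → ZMod 2)
    (hl : q l = 1) (d : Fin (m + 1) → K) :
    ∑ v : K, f (sp (d + sh q v)) = ∑ x : K, f (adj (sp (red l q d)) x) := by
  simp only [sp_shift l q hl]
  exact Fintype.sum_equiv (Equiv.addLeft (d l)) _ _ (fun x => rfl)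

theorem sum_red {m : ℕ} (F : (Fin m → K) → ℝ) (l : Fin (m + 1)) (q : Fin (m + 1) → ZMod 2) :
    ∑ d : Fin (m + 1) → K, F (red l q d) = (Fintype.card K : ℝ) * ∑ d : Fin m → K, F d := by
  have h1 : ∑ d : Fin (m + 1) → K, F (red l q d) =
      ∑ p : K × (Fin m → K), F (red l q (l.insertNth (α := fun _ => K) p.1 p.2)) :=
    (Fintype.sum_equiv (Fin.insertNthEquiv (fun _ => K) l)
      (fun p => F (red l q (l.insertNth (α := fun _ => K) p.1 p.2)))
      (fun d => F (red l q d)) (fun p => rfl)).symm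
  rw [h1, Fintype.sum_prod_type]
  have h2 : ∀ x : K, ∑ y : Fin m → K, F (red l q (l.insertNth (α := fun _ => K) x y)) =
      ∑ d : Fin m → K, F d := by
    intro x
    refine Fintype.sum_equiv (Equiv.addRight (fun i => q (l.succAbove i) • x)) _ _ ?_
    intro y
    congr 1
    ext i
    simp [red]
  simp only [h2, Finset.sum_const, Finset.card_univ, nsmul_eq_mul]

theorem shift_sq {m : ℕ} (f : Submodule (ZMod 2) K → ℝ) (l : Fin (m + 1))
    (q : Fin (m + 1) → ZMod 2) (hl : q l = 1) :
    ∑ d : Fin (m + 1) → K, (∑ v : K, f (sp (d + sh q v))) ^ 2 =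
      (Fintype.card K : ℝ) * ∑ d : Fin m → K, (∑ v : K, f (adj (sp d) v)) ^ 2 := by
  simp only [shift1 f l q hl]
  exact sum_red (fun d => (∑ v : K, f (adj (sp d) v)) ^ 2) l q

theorem red_add_sh {m : ℕ} (l : Fin (m + 1)) (q c : Fin (m + 1) → ZMod 2) (d : Fin (m + 1) → K)
    (v : K) : red l q (d + sh c v) =
      red l q d + sh (fun i => c (l.succAbove i) + q (l.succAbove i) * c l) v := by
  ext i
  simp only [red, Pi.add_apply, sh, smul_add, add_smul, mul_smul]
  ring

/-- two independent shifts -/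
theorem shift2 {m : ℕ} (f : Submodule (ZMod 2) K → ℝ) (q c : Fin (m + 2) → ZMod 2)
    (hq : q ≠ 0) (hc : c ≠ 0) (hqc : q ≠ c) (d : Fin (m + 2) → K) :
    ∃ δ : Fin m → K, ∑ w : K, ∑ v : K, f (sp (d + sh c w + sh q v)) =
      ∑ b : K, ∑ a : K, f (adj (adj (sp δ) b) a) := by
  obtain ⟨l, hl⟩ : ∃ l, q l ≠ 0 := by
    by_contra h; push Not at h; exact hq (funext h)
  have hl1 : q l = 1 := (z2 (q l)).resolve_left hl
  set c2 : Fin (m + 1) → ZMod 2 := fun i => c (l.succAbove i) + q (l.succAbove i) * c l with hc2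
  have hc20 : ∃ l2, c2 l2 = 1 := by
    by_contra h
    push Not at h
    have h0 : ∀ i, c2 i = 0 := fun i => (z2 (c2 i)).resolve_right (h i)
    have h3 : ∀ i, c i = q i * c l := by
      intro i
      rcases Fin.eq_self_or_eq_succAbove l i with h | ⟨j, h⟩
      · rw [h, hl1, one_mul]
      · rw [h]
        have := h0 j
        simp only [hc2] at this
        exact CharTwo.add_eq_zero.mp this
    rcases z2 (c l) with h4 | h4
    · apply hc; ext i; rw [h3 i, h4]; simp
    · apply hqc; ext i; rw [h3 i, h4]; simp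
  obtain ⟨l2, hl2⟩ := hc20
  refine ⟨red l2 c2 (red l q d), ?_⟩
  have h1 : ∀ w : K, ∑ v : K, f (sp (d + sh c w + sh q v)) =
      ∑ a : K, f (adj (sp (red l q d + sh c2 w)) a) := by
    intro w
    rw [shift1 f l q hl1, red_add_sh]
  simp only [h1]
  have h2 := shift1 (fun D => ∑ a : K, f (adj D a)) l2 c2 hl2 (red l q d)
  exact h2

section phase
variable {h r : ℕ}

/-- the phase -/
noncomputable def ph (A : Matrix (Fin h) (Fin r) (ZMod 2)) (d : Fin h → K) (e : Fin r → K) : ℝ :=
  chi (∑ i, ∑ j, A i j • (d i * e j))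

theorem ph_add_left (A : Matrix (Fin h) (Fin r) (ZMod 2)) (d d' : Fin h → K) (e : Fin r → K) :
    ph A (d + d') e = ph A d e * ph A d' e := by
  unfold ph
  rw [← chi_add]
  congr 1
  simp only [Pi.add_apply, add_mul, smul_add, Finset.sum_add_distrib]

theorem ph_add_right (A : Matrix (Fin h) (Fin r) (ZMod 2)) (d : Fin h → K) (e e' : Fin r → K) :
    ph A d (e + e') = ph A d e * ph A d e' := by
  unfold ph
  rw [← chi_add]
  congr 1
  simp only [Pi.add_apply, mul_add, smul_add, Finset.sum_add_distrib]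

theorem ph_cases (A : Matrix (Fin h) (Fin r) (ZMod 2)) (d : Fin h → K) (e : Fin r → K) :
    ph A d e = 1 ∨ ph A d e = -1 := chi_cases _

/-- kernel set -/
noncomputable def GA (A : Matrix (Fin h) (Fin r) (ZMod 2)) : Finset (Fin h → K) :=
  univ.filter (fun g => ∀ j, ∑ i, A i j • g i = 0)

theorem mem_GA {A : Matrix (Fin h) (Fin r) (ZMod 2)} {g : Fin h → K} :
    g ∈ GA A ↔ ∀ j, ∑ i, A i j • g i = 0 := by simp [GA]

theorem GA_add {A : Matrix (Fin h) (Fin r) (ZMod 2)} {g g' : Fin h → K} (hg : g ∈ GA A)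
    (hg' : g' ∈ GA A) : g + g' ∈ GA A := by
  rw [mem_GA] at *
  intro j
  simp only [Pi.add_apply, smul_add, Finset.sum_add_distrib, hg j, hg' j, add_zero]

theorem ph_all_iff (A : Matrix (Fin h) (Fin r) (ZMod 2)) (g : Fin h → K) :
    (∀ e : Fin r → K, ph A g e = 1) ↔ g ∈ GA A := by
  have hph : ∀ e : Fin r → K, ph A g e = chi (∑ j, (∑ i, A i j • g i) * e j) := by
    intro e
    unfold ph
    congr 1
    rw [Finset.sum_comm]
    apply Finset.sum_congr rfl
    intro j _
    rw [Finset.sum_mul]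
    apply Finset.sum_congr rfl
    intro i _
    rw [smul_mul_assoc]
  rw [mem_GA]
  constructor
  · intro h1 j
    by_contra hne
    obtain ⟨y, hy⟩ := exists_chi_neg hne
    have h2 := h1 (Pi.single j y)
    rw [hph, Finset.sum_eq_single j] at h2
    · rw [Pi.single_eq_same, hy] at h2; norm_num at h2
    · intro b _ hb; rw [Pi.single_eq_of_ne hb, mul_zero]
    · intro h; exact absurd (Finset.mem_univ j) h
  · intro h1 e
    rw [hph]
    simp only [h1, zero_mul, Finset.sum_const_zero, chi_zero]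

theorem sum_ph_right (A : Matrix (Fin h) (Fin r) (ZMod 2)) (g : Fin h → K) :
    ∑ e : Fin r → K, ph A g e = if g ∈ GA A then (Fintype.card K : ℝ) ^ r else 0 := by
  rw [sum_signchar (fun e => ph A g e) (fun x y => ph_add_right A g x y) (fun e => ph_cases A g e)]
  simp only [ph_all_iff, Fintype.card_pi_const]
  push_cast
  rfl

/-- Cauchy-Schwarz and Parseval -/
theorem theta_sq (A : Matrix (Fin h) (Fin r) (ZMod 2)) (U : (Fin h → K) → ℝ) (W : (Fin r → K) → ℝ) :
    (∑ d : Fin h → K, ∑ e : Fin r → K, U d * W e * ph A d e) ^ 2 ≤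
      (∑ e : Fin r → K, W e ^ 2) *
        ((Fintype.card K : ℝ) ^ r * ∑ d : Fin h → K, ∑ g ∈ GA A, U d * U (d + g)) := by
  have h1 : ∑ d : Fin h → K, ∑ e : Fin r → K, U d * W e * ph A d e =
      ∑ e : Fin r → K, W e * ∑ d : Fin h → K, U d * ph A d e := by
    rw [Finset.sum_comm]
    apply Finset.sum_congr rfl
    intro e _
    rw [Finset.mul_sum]
    apply Finset.sum_congr rfl
    intro d _
    ring
  rw [h1]
  refine (Finset.sum_mul_sq_le_sq_mul_sq _ _ _).trans (le_of_eq ?_)
  congr 1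
  have h2 : ∀ e : Fin r → K, (∑ d : Fin h → K, U d * ph A d e) ^ 2 =
      ∑ d : Fin h → K, ∑ g : Fin h → K, U d * U (d + g) * ph A g e := by
    intro e
    rw [sq, Finset.sum_mul_sum]
    apply Finset.sum_congr rfl
    intro d _
    refine (Fintype.sum_equiv (Equiv.addLeft d) _ _ ?_).symm
    intro g
    simp only [Equiv.coe_addLeft]
    rw [ph_add_left]
    have := chi_mul_self (∑ i, ∑ j, A i j • (d i * e j))
    change ph A d e * ph A d e = 1 at this
    linear_combination (-U d * U (d + g) * ph A g e) * this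
  simp only [h2]
  rw [Finset.sum_comm, Finset.mul_sum]
  apply Finset.sum_congr rfl
  intro d _
  rw [Finset.sum_comm]
  have h3 : ∀ g : Fin h → K, ∑ e : Fin r → K, U d * U (d + g) * ph A g e =
      if g ∈ GA A then (Fintype.card K : ℝ) ^ r * (U d * U (d + g)) else 0 := by
    intro g
    rw [← Finset.mul_sum, sum_ph_right]
    split_ifs <;> ring
  simp only [h3]
  rw [← Finset.sum_filter, Finset.mul_sum]
  apply Finset.sum_congr _ (fun _ _ => rfl)
  ext g; simp

theorem add_add_cancel_char {m : ℕ} (a b : Fin m → K) : a + b + b = a := by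
  ext i
  simp only [Pi.add_apply]
  rw [add_assoc, CharTwo.add_self_eq_zero, add_zero]

theorem sh_mem_GA {A : Matrix (Fin h) (Fin r) (ZMod 2)} {q : Fin h → ZMod 2}
    (hq : ∀ j, ∑ i, A i j * q i = 0) (v : K) : sh q v ∈ GA A := by
  rw [mem_GA]
  intro j
  have : ∑ i, A i j • sh q v i = (∑ i, A i j * q i) • v := by
    rw [Finset.sum_smul]
    apply Finset.sum_congr rfl
    intro i _
    simp only [sh, smul_smul]
  rw [this, hq j, zero_smul]

theorem Q_bound (A : Matrix (Fin h) (Fin r) (ZMod 2)) (U : (Fin h → K) → ℝ)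
    (q : Fin h → ZMod 2) (hq : ∀ j, ∑ i, A i j * q i = 0) :
    (Fintype.card K : ℝ) ^ 2 * ∑ d : Fin h → K, ∑ g ∈ GA A, U d * U (d + g) ≤
      ((GA (K := K) A).card : ℝ) * ∑ d : Fin h → K, (∑ v : K, U (d + sh q v)) ^ 2 := by
  set Y : (Fin h → K) → ℝ := fun d => ∑ v : K, U (d + sh q v) with hY
  have h1 : ∀ v w : K, ∑ d : Fin h → K, ∑ g ∈ GA A, U d * U (d + g) =
      ∑ d : Fin h → K, ∑ g ∈ GA A, U (d + sh q v) * U (d + g + sh q w) := by
    intro v w
    have e1 : ∑ d : Fin h → K, ∑ g ∈ GA A, U d * U (d + g) =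
        ∑ d : Fin h → K, ∑ g ∈ GA A, U (d + sh q v) * U (d + sh q v + g) :=
      (Fintype.sum_equiv (Equiv.addRight (sh q v)) _ _ (fun d => rfl)).symm
    rw [e1]
    apply Finset.sum_congr rfl
    intro d _
    refine Finset.sum_bij' (fun g _ => g + sh q v + sh q w) (fun g _ => g + sh q w + sh q v)
      ?_ ?_ ?_ ?_ ?_
    · intro g hg; exact GA_add (GA_add hg (sh_mem_GA hq v)) (sh_mem_GA hq w)
    · intro g hg; exact GA_add (GA_add hg (sh_mem_GA hq w)) (sh_mem_GA hq v)
    · intro g _
      rw [add_add_cancel_char, add_add_cancel_char]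
    · intro g _
      rw [add_add_cancel_char, add_add_cancel_char]
    · intro g _
      congr 2
      ext i
      simp only [Pi.add_apply]
      have := CharTwo.add_self_eq_zero (sh q w i)
      linear_combination (-1 : K) * this
  have h2 : (Fintype.card K : ℝ) ^ 2 * ∑ d : Fin h → K, ∑ g ∈ GA A, U d * U (d + g) =
      ∑ g ∈ GA A, ∑ d : Fin h → K, Y d * Y (d + g) := by
    have e2 : (Fintype.card K : ℝ) ^ 2 * ∑ d : Fin h → K, ∑ g ∈ GA A, U d * U (d + g) =
        ∑ v : K, ∑ w : K, ∑ d : Fin h → K, ∑ g ∈ GA A, U (d + sh q v) * U (d + g + sh q w) := by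
      simp only [← h1, Finset.sum_const, Finset.card_univ, nsmul_eq_mul]
      ring
    rw [e2]
    have e3 : ∀ g d, Y d * Y (d + g) = ∑ v : K, ∑ w : K, U (d + sh q v) * U (d + g + sh q w) := by
      intro g d
      rw [hY, Finset.sum_mul_sum]
    simp only [e3]
    rw [Finset.sum_comm' (t' := univ) (s' := fun _ => univ) (by simp)]
    rw [Finset.sum_congr rfl (fun w _ => Finset.sum_comm)]
    rw [Finset.sum_comm]
    have : ∀ d : Fin h → K, ∑ w : K, ∑ v : K, ∑ g ∈ GA A, U (d + sh q v) * U (d + g + sh q w) =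
        ∑ g ∈ GA A, ∑ v : K, ∑ w : K, U (d + sh q v) * U (d + g + sh q w) := by
      intro d
      rw [Finset.sum_comm]
      rw [Finset.sum_congr rfl (fun v _ => Finset.sum_comm)]
      rw [Finset.sum_comm]
    simp only [this]
    rw [Finset.sum_comm]
  rw [h2]
  have h3 : ∀ g ∈ GA A, ∑ d : Fin h → K, Y d * Y (d + g) ≤ ∑ d : Fin h → K, Y d ^ 2 := by
    intro g _
    have e4 : ∑ d : Fin h → K, Y (d + g) ^ 2 = ∑ d : Fin h → K, Y d ^ 2 :=
      Fintype.sum_equiv (Equiv.addRight g) _ _ (fun d => rfl)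
    have e5 : ∑ d : Fin h → K, Y d * Y (d + g) ≤ ∑ d : Fin h → K, (Y d ^ 2 + Y (d + g) ^ 2) / 2 := by
      apply Finset.sum_le_sum
      intro d _
      nlinarith [sq_nonneg (Y d - Y (d + g))]
    rw [← Finset.sum_div, Finset.sum_add_distrib, e4] at e5
    linarith
  refine (Finset.sum_le_sum h3).trans ?_
  rw [Finset.sum_const, nsmul_eq_mul]

end phase

end Pool.Agent.H727R3
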