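import Pool.Agent.H727R3.Chi

set_option autoImplicit false
set_option linter.unusedSectionVars false

namespace Pool.Agent.H727R3

open Finset Polynomial
open scoped Classical

variable {K : Type} [Field K] [Fintype K] [DecidableEq K] [CharP K 2] [Algebra (ZMod 2) K]

/-- the additive function with kernel `E` -/
noncomputable def L (E : Submodule (ZMod 2) K) (x : K) : K := ∏ v ∈ el E, (x + v)

/-- the sum of inverses -/
noncomputable def S (E : Submodule (ZMod 2) K) : K := ∑ v ∈ el E, v⁻¹

/-- the sum of inverses over a translate -/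
noncomputable def g (E : Submodule (ZMod 2) K) (x : K) : K := ∑ v ∈ el E, (v + x)⁻¹

/-- adjoin a vector -/
def adj (E : Submodule (ZMod 2) K) (e : K) : Submodule (ZMod 2) K :=
  E ⊔ Submodule.span (ZMod 2) {e}

/-- the polynomial -/
noncomputable def P (E : Submodule (ZMod 2) K) : K[X] := ∏ v ∈ el E, (X + C v)

theorem P_eval (E : Submodule (ZMod 2) K) (x : K) : (P E).eval x = L E x := by
  simp [P, L, eval_prod]

theorem P_monic (E : Submodule (ZMod 2) K) : (P E).Monic :=
  monic_prod_of_monic _ _ (fun v _ => monic_X_add_C v)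

theorem P_natDegree (E : Submodule (ZMod 2) K) : (P E).natDegree = (el E).card := by
  unfold P
  rw [natDegree_prod_of_monic _ _ (fun v _ => monic_X_add_C v)]
  simp

theorem L_eq_zero {E : Submodule (ZMod 2) K} {x : K} : L E x = 0 ↔ x ∈ E := by
  unfold L
  rw [Finset.prod_eq_zero_iff]
  constructor
  · rintro ⟨v, hv, h⟩
    have := CharTwo.add_eq_zero.mp h
    rw [this]; exact mem_el.mp hv
  · intro h
    exact ⟨x, mem_el.mpr h, CharTwo.add_self_eq_zero x⟩

theorem L_transl {E : Submodule (ZMod 2) K} {v : K} (hv : v ∈ E) (x : K) :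
    L E (v + x) = L E x := by
  unfold L
  refine Finset.prod_bij' (fun w _ => w + v) (fun w _ => w + v) ?_ ?_ ?_ ?_ ?_
  · intro w hw; rw [mem_el] at hw ⊢; exact E.add_mem hw hv
  · intro w hw; rw [mem_el] at hw ⊢; exact E.add_mem hw hv
  · intro w _; rw [add_assoc, CharTwo.add_self_eq_zero, add_zero]
  · intro w _; rw [add_assoc, CharTwo.add_self_eq_zero, add_zero]
  · intro w _; ring

theorem P_comp (E : Submodule (ZMod 2) K) (y : K) :
    (P E).comp (X + C y) = P E + C (L E y) := by
  by_contra hne
  set Q := (P E).comp (X + C y) - (P E + C (L E y)) with hQ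
  have hQ0 : Q ≠ 0 := sub_ne_zero.mpr hne
  have hcard := card_el_pos E
  have hdegP : (P E).degree = ((el E).card : WithBot ℕ) := by
    rw [degree_eq_natDegree (P_monic E).ne_zero, P_natDegree]
  have hdeg2 : (P E + C (L E y)).degree = ((el E).card : WithBot ℕ) := by
    rw [degree_add_eq_left_of_degree_lt, hdegP]
    rw [hdegP]
    exact lt_of_le_of_lt degree_C_le (by exact_mod_cast hcard)
  have hm1 : ((P E).comp (X + C y)).Monic := (P_monic E).comp_X_add_C y
  have hnd : ((P E).comp (X + C y)).natDegree = (el E).card := by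
    rw [natDegree_comp, P_natDegree, natDegree_X_add_C, mul_one]
  have hdeg1 : ((P E).comp (X + C y)).degree = ((el E).card : WithBot ℕ) := by
    rw [degree_eq_natDegree hm1.ne_zero, hnd]
  have hm2 : (P E + C (L E y)).Monic := by
    apply (P_monic E).add_of_left
    rw [hdegP]
    exact lt_of_le_of_lt degree_C_le (by exact_mod_cast hcard)
  have hlt : Q.degree < ((el E).card : WithBot ℕ) := by
    rw [← hdeg1]
    apply degree_sub_lt_left (by rw [hdeg1, hdeg2]) hm1.ne_zero
    rw [hm1.leadingCoeff, hm2.leadingCoeff]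
  have hroots : ∀ v ∈ el E, Q.eval v = 0 := by
    intro v hv
    rw [mem_el] at hv
    simp only [hQ, eval_sub, eval_comp, eval_add, eval_X, eval_C, P_eval]
    rw [L_transl hv, L_eq_zero.mpr hv]
    ring
  have := Polynomial.card_roots' Q
  have hsub : (el E).card ≤ Q.roots.toFinset.card := by
    apply Finset.card_le_card
    intro v hv
    rw [Multiset.mem_toFinset, mem_roots hQ0]
    exact hroots v hv
  have h3 : Q.roots.toFinset.card ≤ Q.roots.card := Multiset.toFinset_card_le _
  have h4 : Q.natDegree < (el E).card := by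
    rw [degree_eq_natDegree hQ0] at hlt
    exact_mod_cast hlt
  omega

theorem L_add (E : Submodule (ZMod 2) K) (x y : K) : L E (x + y) = L E x + L E y := by
  have := congrArg (fun q => q.eval x) (P_comp E y)
  simpa [eval_comp, P_eval] using this

theorem L_zero (E : Submodule (ZMod 2) K) : L E 0 = 0 := L_eq_zero.mpr E.zero_mem

/-- the constant derivative -/
noncomputable def pc (E : Submodule (ZMod 2) K) : K := (derivative (P E)).eval 0

theorem deriv_const (E : Submodule (ZMod 2) K) (y : K) : (derivative (P E)).eval y = pc E := by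
  have := congrArg (fun q => (derivative q).eval 0) (P_comp E y)
  simpa [derivative_comp, eval_comp, pc] using this

theorem pc_ne_zero (E : Submodule (ZMod 2) K) : pc E ≠ 0 := by
  unfold pc P
  rw [derivative_prod_finset]
  simp only [eval_finset_sum, eval_mul, eval_prod, derivative_add, derivative_X, derivative_C,
    eval_add, eval_X, eval_C, eval_one, add_zero, zero_add, mul_one]
  rw [Finset.sum_eq_single (0 : K)]
  · rw [Finset.prod_ne_zero_iff]
    intro v hv
    exact (Finset.mem_erase.mp hv).1
  · intro v _ hv0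
    apply Finset.prod_eq_zero (i := (0 : K))
    · exact Finset.mem_erase.mpr ⟨hv0.symm, by simp⟩
    · rfl
  · intro h; exact absurd (by simp) h

theorem L_mul_g {E : Submodule (ZMod 2) K} {x : K} (hx : x ∉ E) : L E x * g E x = pc E := by
  rw [← deriv_const E x]
  unfold P L g
  rw [derivative_prod_finset]
  simp only [eval_finset_sum, eval_mul, eval_prod, derivative_add, derivative_X, derivative_C,
    eval_add, eval_X, eval_C, eval_one, add_zero, mul_one]
  rw [Finset.mul_sum]
  apply Finset.sum_congr rfl
  intro v hv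
  have hne : x + v ≠ 0 := by
    intro h
    have := CharTwo.add_eq_zero.mp h
    rw [this] at hx
    exact hx (mem_el.mp hv)
  rw [← Finset.mul_prod_erase (el E) (fun v => x + v) hv, add_comm v x]
  field_simp

theorem g_eq {E : Submodule (ZMod 2) K} {x : K} (hx : x ∉ E) : g E x = pc E / L E x := by
  have h : L E x ≠ 0 := fun h => hx (L_eq_zero.mp h)
  rw [← L_mul_g hx]; field_simp

theorem L_inj {E : Submodule (ZMod 2) K} {x y : K} (h : L E x = L E y) : x + y ∈ E := by
  apply L_eq_zero.mp
  rw [L_add, h, CharTwo.add_self_eq_zero]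

theorem g_inj {E : Submodule (ZMod 2) K} {x y : K} (hx : x ∉ E) (hy : y ∉ E)
    (h : g E x = g E y) : x + y ∈ E := by
  rw [g_eq hx, g_eq hy] at h
  have h1 : L E x ≠ 0 := fun h => hx (L_eq_zero.mp h)
  have h2 : L E y ≠ 0 := fun h => hy (L_eq_zero.mp h)
  have h3 := pc_ne_zero E
  apply L_inj
  field_simp at h
  exact h.symm

theorem mem_adj {E : Submodule (ZMod 2) K} {e x : K} : x ∈ adj E e ↔ x ∈ E ∨ x + e ∈ E := by
  unfold adj
  rw [Submodule.mem_sup]
  constructor
  · rintro ⟨y, hy, z, hz, rfl⟩
    rw [Submodule.mem_span_singleton] at hz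
    obtain ⟨c, rfl⟩ := hz
    rcases z2 c with rfl | rfl
    · left; simpa using hy
    · right
      rw [one_smul, add_assoc, CharTwo.add_self_eq_zero, add_zero]; exact hy
  · rintro (h | h)
    · exact ⟨x, h, 0, Submodule.zero_mem _, by simp⟩
    · exact ⟨x + e, h, e, Submodule.mem_span_singleton_self e, by
        rw [add_assoc, CharTwo.add_self_eq_zero, add_zero]⟩

theorem el_adj {E : Submodule (ZMod 2) K} {e : K} :
    el (adj E e) = el E ∪ (el E).image (· + e) := by
  ext x
  rw [mem_el, mem_adj, Finset.mem_union, Finset.mem_image, mem_el]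
  constructor
  · rintro (h | h)
    · exact Or.inl h
    · exact Or.inr ⟨x + e, mem_el.mpr h, by rw [add_assoc, CharTwo.add_self_eq_zero, add_zero]⟩
  · rintro (h | ⟨y, hy, rfl⟩)
    · exact Or.inl h
    · right; rw [add_assoc, CharTwo.add_self_eq_zero, add_zero]; exact mem_el.mp hy

theorem el_adj_disj {E : Submodule (ZMod 2) K} {e : K} (he : e ∉ E) :
    Disjoint (el E) ((el E).image (· + e)) := by
  rw [Finset.disjoint_left]
  intro x hx hx2
  rw [Finset.mem_image] at hx2
  obtain ⟨y, hy, rfl⟩ := hx2
  rw [mem_el] at hx hy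
  apply he
  have := E.add_mem hy hx
  rwa [← add_assoc, CharTwo.add_self_eq_zero, zero_add] at this

theorem prod_adj {M : Type*} [CommMonoid M] {E : Submodule (ZMod 2) K} {e : K} (he : e ∉ E)
    (f : K → M) : ∏ v ∈ el (adj E e), f v = (∏ v ∈ el E, f v) * ∏ v ∈ el E, f (v + e) := by
  rw [el_adj, Finset.prod_union (el_adj_disj he), Finset.prod_image]
  intro x _ y _ h
  exact add_right_cancel h

theorem sum_adj {M : Type*} [AddCommMonoid M] {E : Submodule (ZMod 2) K} {e : K} (he : e ∉ E)
    (f : K → M) : ∑ v ∈ el (adj E e), f v = (∑ v ∈ el E, f v) + ∑ v ∈ el E, f (v + e) := by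
  rw [el_adj, Finset.sum_union (el_adj_disj he), Finset.sum_image]
  intro x _ y _ h
  exact add_right_cancel h

theorem card_adj {E : Submodule (ZMod 2) K} {e : K} (he : e ∉ E) :
    (el (adj E e)).card = 2 * (el E).card := by
  have := sum_adj he (fun _ => (1 : ℕ))
  simp only [Finset.sum_const, smul_eq_mul, mul_one] at this
  omega

theorem S_adj {E : Submodule (ZMod 2) K} {e : K} (he : e ∉ E) :
    S (adj E e) = S E + g E e := by
  unfold S g; exact sum_adj he _

theorem L_adj {E : Submodule (ZMod 2) K} {e : K} (he : e ∉ E) (x : K) :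
    L (adj E e) x = L E x ^ 2 + L E e * L E x := by
  have h1 : L (adj E e) x = L E x * L E (x + e) := by
    unfold L
    rw [prod_adj he]
    congr 1
    exact Finset.prod_congr rfl (fun v _ => by ring)
  rw [h1, L_add]; ring

theorem L_bot (x : K) : L (⊥ : Submodule (ZMod 2) K) x = x := by
  have : el (⊥ : Submodule (ZMod 2) K) = {0} := by ext x; simp
  simp [L, this]

theorem S_bot : S (⊥ : Submodule (ZMod 2) K) = 0 := by
  have : el (⊥ : Submodule (ZMod 2) K) = {0} := by ext x; simp
  simp [S, this]

end Pool.Agent.H727R3
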