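import Pool.Agent.H727R3.Core

set_option autoImplicit false
set_option linter.unusedSectionVars false

namespace Pool.Agent.H727R3

open Finset
open scoped Classical

variable {K : Type} [Field K] [Fintype K] [DecidableEq K] [CharP K 2] [Algebra (ZMod 2) K]

/-! ### cardinalities of spans -/

theorem adj_of_mem {E : Submodule (ZMod 2) K} {e : K} (he : e ∈ E) : adj E e = E := by
  unfold adj
  rw [sup_eq_left, Submodule.span_singleton_le_iff_mem]
  exact he

theorem card_adj_le (E : Submodule (ZMod 2) K) (e : K) :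
    (el (adj E e)).card ≤ 2 * (el E).card := by
  by_cases he : e ∈ E
  · rw [adj_of_mem he]; omega
  · rw [card_adj he]

theorem card_sp_le : ∀ (m : ℕ) (d : Fin m → K), (el (sp d)).card ≤ 2 ^ m := by
  intro m
  induction m with
  | zero =>
    intro d
    rw [sp_zero]
    have : el (⊥ : Submodule (ZMod 2) K) = {0} := by ext x; simp
    rw [this]; simp
  | succ m ih =>
    intro d
    have hcons : d = Fin.cons (d 0) (Fin.tail d) := (Fin.cons_self_tail d).symm
    rw [hcons, sp_cons]
    have h1 := card_adj_le (sp (Fin.tail d)) (d 0)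
    have h2 := ih (Fin.tail d)
    rw [pow_succ]; omega

/-- independence of a tuple, expressed by cardinality -/
def Ind {m : ℕ} (d : Fin m → K) : Prop := (el (sp d)).card = 2 ^ m

theorem card_adj_eq_iff {m : ℕ} (d : Fin m → K) (x : K) :
    (el (adj (sp d) x)).card = 2 ^ (m + 1) ↔ Ind d ∧ x ∉ sp d := by
  have hle := card_sp_le m d
  have h2m : 0 < 2 ^ m := by positivity
  unfold Ind
  constructor
  · intro h
    by_cases hx : x ∈ sp d
    · rw [adj_of_mem hx, pow_succ] at h; omega
    · rw [card_adj hx, pow_succ] at h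
      exact ⟨by omega, hx⟩
  · rintro ⟨h1, h2⟩
    rw [card_adj h2, h1, pow_succ]; ring

theorem Ind_cons {m : ℕ} (x : K) (d : Fin m → K) :
    Ind (Fin.cons x d : Fin (m + 1) → K) ↔ Ind d ∧ x ∉ sp d := by
  rw [← card_adj_eq_iff, Ind, sp_cons]

theorem FF_tuple' (D : Submodule (ZMod 2) K) : ∀ (r : ℕ) (e : Fin r → K), Ind e →
    (∀ i, e i ∈ perp D) →
    (el (FF D (sp e))).card = 2 ^ r * (el D).card ∧
    S (FF D (sp e)) = S (FF ⊥ (sp e)) + S D ^ (2 ^ r) := by
  intro r
  induction r with
  | zero =>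
    intro e _ _
    rw [sp_zero, FF_bot, FF_bot, S_bot]
    simp
  | succ r ih =>
    intro e he hp
    have hcons : e = Fin.cons (e 0) (Fin.tail e) := (Fin.cons_self_tail e).symm
    rw [hcons] at he ⊢
    rw [Ind_cons] at he
    obtain ⟨h1, h2⟩ := ih (Fin.tail e) he.1 (fun i => hp _)
    have hne : e 0 ∉ sp (Fin.tail e) := he.2
    rw [sp_cons]
    have hp0 : e 0 ∈ perp (⊥ : Submodule (ZMod 2) K) := by
      intro d hd
      rw [Submodule.mem_bot] at hd
      rw [hd, zero_mul, chi_zero]
    constructor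
    · rw [card_FF_adj hne (hp 0), h1]; ring
    · rw [S_FF_adj hne (hp 0), S_FF_adj hne hp0, h2, add_pow_char _ _ (p := 2)]
      ring

/-! ### scaling -/

/-- scaled subspace -/
def scal (c : K) (D : Submodule (ZMod 2) K) : Submodule (ZMod 2) K :=
  D.map (LinearMap.mulLeft (ZMod 2) c)

theorem mem_scal {c : K} (hc : c ≠ 0) {D : Submodule (ZMod 2) K} {x : K} :
    c * x ∈ scal c D ↔ x ∈ D := by
  unfold scal
  rw [Submodule.mem_map]
  constructor
  · rintro ⟨y, hy, h⟩
    rw [LinearMap.mulLeft_apply] at h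
    rw [← mul_left_cancel₀ hc h]; exact hy
  · intro h; exact ⟨x, h, rfl⟩

theorem el_scal {c : K} (hc : c ≠ 0) (D : Submodule (ZMod 2) K) :
    el (scal c D) = (el D).image (c * ·) := by
  ext x
  rw [mem_el, Finset.mem_image]
  constructor
  · intro h
    refine ⟨c⁻¹ * x, ?_, by field_simp⟩
    rw [mem_el, ← mem_scal hc]
    rwa [← mul_assoc, mul_inv_cancel₀ hc, one_mul]
  · rintro ⟨y, hy, rfl⟩
    rw [mem_scal hc]; exact mem_el.mp hy

theorem card_scal {c : K} (hc : c ≠ 0) (D : Submodule (ZMod 2) K) :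
    (el (scal c D)).card = (el D).card := by
  rw [el_scal hc, Finset.card_image_of_injective]
  exact mul_right_injective₀ hc

theorem sum_scal {M : Type*} [AddCommMonoid M] {c : K} (hc : c ≠ 0) (D : Submodule (ZMod 2) K)
    (f : K → M) : ∑ v ∈ el (scal c D), f v = ∑ v ∈ el D, f (c * v) := by
  rw [el_scal hc, Finset.sum_image (fun a _ b _ h => mul_right_injective₀ hc h)]

theorem prod_scal {M : Type*} [CommMonoid M] {c : K} (hc : c ≠ 0) (D : Submodule (ZMod 2) K)
    (f : K → M) : ∏ v ∈ el (scal c D), f v = ∏ v ∈ el D, f (c * v) := by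
  rw [el_scal hc, Finset.prod_image (fun a _ b _ h => mul_right_injective₀ hc h)]

theorem S_scal {c : K} (hc : c ≠ 0) (D : Submodule (ZMod 2) K) : S (scal c D) = c⁻¹ * S D := by
  unfold S
  rw [sum_scal hc, Finset.mul_sum]
  exact Finset.sum_congr rfl (fun v _ => by rw [mul_inv])

theorem g_scal {c : K} (hc : c ≠ 0) (D : Submodule (ZMod 2) K) (x : K) :
    g (scal c D) (c * x) = c⁻¹ * g D x := by
  unfold g
  rw [sum_scal hc, Finset.mul_sum]
  exact Finset.sum_congr rfl (fun v _ => by rw [← mul_add, mul_inv])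

theorem L_scal {c : K} (hc : c ≠ 0) (D : Submodule (ZMod 2) K) (x : K) :
    L (scal c D) (c * x) = c ^ (el D).card * L D x := by
  unfold L
  rw [prod_scal hc, ← Finset.prod_const, ← Finset.prod_mul_distrib]
  exact Finset.prod_congr rfl (fun v _ => by rw [← mul_add])

theorem sp_scal {m : ℕ} (c : K) (d : Fin m → K) : sp (fun i => c * d i) = scal c (sp d) := by
  unfold sp scal
  rw [Submodule.map_span]
  congr 1
  ext x
  simp [Set.mem_range]

theorem FF_scal {c : K} (hc : c ≠ 0) (E : Submodule (ZMod 2) K) :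
    FF ⊥ (scal c E) = scal ((c ^ (el E).card)⁻¹) (FF ⊥ E) := by
  have hc2 : (c ^ (el E).card)⁻¹ ≠ 0 := inv_ne_zero (pow_ne_zero _ hc)
  have hc3 : (c ^ (el E).card) ≠ 0 := pow_ne_zero _ hc
  ext u
  have hu : u = (c ^ (el E).card)⁻¹ * (c ^ (el E).card * u) := by
    rw [← mul_assoc, inv_mul_cancel₀ hc3, one_mul]
  conv_rhs => rw [hu, mem_scal hc2]
  rw [mem_FF, mem_FF]
  have hperp : ∀ w : K, w ∈ perp (⊥ : Submodule (ZMod 2) K) := by
    intro w d hd
    rw [Submodule.mem_bot] at hd
    rw [hd, zero_mul, chi_zero]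
  constructor
  · intro h w _
    have := h (c * w) (hperp _)
    rw [L_scal hc] at this
    rw [← this]; congr 1; ring
  · intro h w _
    have := h (c⁻¹ * w) (hperp _)
    have hw : w = c * (c⁻¹ * w) := by rw [← mul_assoc, mul_inv_cancel₀ hc, one_mul]
    rw [hw, L_scal hc, ← this]; congr 1; ring

theorem S_FF_scal {c : K} (hc : c ≠ 0) (E : Submodule (ZMod 2) K) :
    S (FF ⊥ (scal c E)) = c ^ (el E).card * S (FF ⊥ E) := by
  rw [FF_scal hc, S_scal (inv_ne_zero (pow_ne_zero _ hc)), inv_inv]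

/-! ### the mean square lemma -/

/-- inner sum -/
noncomputable def inner (z : Submodule (ZMod 2) K → K → K) (D : Submodule (ZMod 2) K) (c : K) : ℝ :=
  ∑ v ∈ univ.filter (fun v => v ∉ D), chi (c * z D v)

theorem sum_chi_bij (σ : K → K) (hσ : Function.Bijective σ) (a : K) :
    ∑ c : K, chi (σ c * a) = if a = 0 then (Fintype.card K : ℝ) else 0 := by
  rw [← sum_chi_mul' a]
  exact Function.Bijective.sum_comp hσ (fun x => chi (x * a))

theorem sum_inner_sq (z : Submodule (ZMod 2) K → K → K)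
    (hz : ∀ D : Submodule (ZMod 2) K, ∀ x y, x ∉ D → y ∉ D → z D x = z D y → x + y ∈ D)
    (σ : K → K) (hσ : Function.Bijective σ) (D : Submodule (ZMod 2) K) :
    ∑ c : K, (inner z D (σ c)) ^ 2 ≤
      (Fintype.card K : ℝ) * ((Fintype.card K : ℝ) - 1) * ((el D).card : ℝ) := by
  have h1 : ∑ c : K, (inner z D (σ c)) ^ 2 =
      ∑ v ∈ univ.filter (fun v => v ∉ D), ∑ w ∈ univ.filter (fun v => v ∉ D),
        ∑ c : K, chi (σ c * (z D v + z D w)) := by
    unfold inner
    simp only [sq, Finset.sum_mul_sum]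
    rw [Finset.sum_comm]
    apply Finset.sum_congr rfl
    intro v _
    rw [Finset.sum_comm]
    apply Finset.sum_congr rfl
    intro w _
    apply Finset.sum_congr rfl
    intro c _
    rw [mul_add, chi_add]
  rw [h1]
  simp only [sum_chi_bij σ hσ]
  have h2 : ∀ v ∈ univ.filter (fun v => v ∉ D), ∑ w ∈ univ.filter (fun v => v ∉ D),
      (if z D v + z D w = 0 then (Fintype.card K : ℝ) else 0) ≤
        (Fintype.card K : ℝ) * ((el D).card : ℝ) := by
    intro v hv
    rw [Finset.mem_filter] at hv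
    rw [← Finset.sum_filter, Finset.sum_const, nsmul_eq_mul, mul_comm]
    apply mul_le_mul_of_nonneg_left _ (by positivity)
    norm_cast
    have h3 : (filter (fun w => z D v + z D w = 0) (univ.filter (fun v => v ∉ D))) ⊆
        (el D).image (fun x => v + x) := by
      intro w hw
      rw [Finset.mem_filter, Finset.mem_filter] at hw
      rw [Finset.mem_image]
      refine ⟨v + w, ?_, by rw [← add_assoc, CharTwo.add_self_eq_zero, zero_add]⟩
      rw [mem_el]
      exact hz D v w hv.2 hw.1.2 (CharTwo.add_eq_zero.mp hw.2)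
    exact (Finset.card_le_card h3).trans Finset.card_image_le
  refine (Finset.sum_le_sum h2).trans ?_
  rw [Finset.sum_const, nsmul_eq_mul]
  have h4 : ((filter (fun v => v ∉ D) (univ : Finset K)).card : ℝ) ≤ (Fintype.card K : ℝ) - 1 := by
    have h5 : (filter (fun v => v ∉ D) (univ : Finset K)).card < (univ : Finset K).card := by
      apply Finset.card_lt_card
      rw [Finset.filter_ssubset]
      exact ⟨0, Finset.mem_univ _, by simp⟩
    rw [Finset.card_univ] at h5
    have h6 : (filter (fun v => v ∉ D) (univ : Finset K)).card + 1 ≤ Fintype.card K := h5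
    have h7 : ((filter (fun v => v ∉ D) (univ : Finset K)).card : ℝ) + 1 ≤ (Fintype.card K : ℝ) := by
      exact_mod_cast h6
    linarith
  have h8 : (0 : ℝ) ≤ (Fintype.card K : ℝ) * ((el D).card : ℝ) := by positivity
  nlinarith

theorem inner_scal (z : Submodule (ZMod 2) K → K → K) {c s : K} (hc : c ≠ 0)
    (D : Submodule (ZMod 2) K) (hs : ∀ x, z (scal c D) (c * x) = s * z D x) :
    inner z (scal c D) 1 = inner z D s := by
  unfold inner
  refine (Finset.sum_bij (fun v _ => c * v) ?_ ?_ ?_ ?_).symm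
  · intro v hv
    rw [Finset.mem_filter] at hv ⊢
    exact ⟨Finset.mem_univ _, by rw [mem_scal hc]; exact hv.2⟩
  · intro a _ b _ h; exact mul_right_injective₀ hc h
  · intro w hw
    rw [Finset.mem_filter] at hw
    refine ⟨c⁻¹ * w, ?_, by field_simp⟩
    rw [Finset.mem_filter]
    refine ⟨Finset.mem_univ _, ?_⟩
    rw [← mem_scal hc, ← mul_assoc, mul_inv_cancel₀ hc, one_mul]
    exact hw.2
  · intro v _
    rw [hs v, one_mul]

/-- the mean square bound -/
theorem mean_square (z : Submodule (ZMod 2) K → K → K) (m : ℕ)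
    (hz : ∀ D : Submodule (ZMod 2) K, ∀ x y, x ∉ D → y ∉ D → z D x = z D y → x + y ∈ D)
    (σ : K → K) (hσ : Function.Bijective σ) (hK : 1 < Fintype.card K)
    (hs : ∀ c : K, c ≠ 0 → ∀ D : Submodule (ZMod 2) K, (el D).card = 2 ^ m → ∀ x,
      z (scal c D) (c * x) = σ c * z D x) :
    ∑ d : Fin m → K, (if Ind d then (inner z (sp d) 1) ^ 2 else 0) ≤
      (Fintype.card K : ℝ) ^ (m + 1) * 2 ^ m := by
  set F : ℝ := ∑ d : Fin m → K, (if Ind d then (inner z (sp d) 1) ^ 2 else 0) with hF
  have h1 : ∀ c : K, c ≠ 0 →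
      ∑ d : Fin m → K, (if Ind d then (inner z (sp d) (σ c)) ^ 2 else 0) = F := by
    intro c hc
    have e1 : ∀ d : Fin m → K, (if Ind d then (inner z (sp d) (σ c)) ^ 2 else 0) =
        (if Ind (fun i => c * d i) then (inner z (sp (fun i => c * d i)) 1) ^ 2 else 0) := by
      intro d
      have h3 : Ind (fun i => c * d i) ↔ Ind d := by
        unfold Ind; rw [sp_scal, card_scal hc]
      simp only [h3]
      split_ifs with h
      · rw [sp_scal, inner_scal z hc (sp d) (s := σ c) (hs c hc (sp d) h)]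
      · rfl
    simp only [e1]
    rw [hF]
    refine Fintype.sum_equiv (Equiv.piCongrRight (fun _ => Equiv.mulLeft₀ c hc)) _ _ ?_
    intro d
    rfl
  have h2 : ((Fintype.card K : ℝ) - 1) * F ≤
      ∑ c : K, ∑ d : Fin m → K, (if Ind d then (inner z (sp d) (σ c)) ^ 2 else 0) := by
    rw [← Finset.add_sum_erase univ _ (Finset.mem_univ (0 : K))]
    have h4 : ∑ c ∈ univ.erase (0 : K),
        ∑ d : Fin m → K, (if Ind d then (inner z (sp d) (σ c)) ^ 2 else 0) =
        ((Fintype.card K : ℝ) - 1) * F := by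
      rw [Finset.sum_congr rfl (g := fun _ => F)]
      · rw [Finset.sum_const, Finset.card_erase_of_mem (Finset.mem_univ _), Finset.card_univ,
          nsmul_eq_mul, Nat.cast_sub hK.le, Nat.cast_one]
      · intro c hc
        exact h1 c (Finset.mem_erase.mp hc).1
    rw [h4]
    have h5 : (0 : ℝ) ≤ ∑ d : Fin m → K, (if Ind d then (inner z (sp d) (σ 0)) ^ 2 else 0) := by
      apply Finset.sum_nonneg
      intro d _
      split_ifs <;> positivity
    linarith
  have h6 : ∑ c : K, ∑ d : Fin m → K, (if Ind d then (inner z (sp d) (σ c)) ^ 2 else 0) ≤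
      (Fintype.card K : ℝ) ^ m * ((Fintype.card K : ℝ) * ((Fintype.card K : ℝ) - 1) * 2 ^ m) := by
    rw [Finset.sum_comm]
    have h7 : ∀ d ∈ (univ : Finset (Fin m → K)),
        ∑ c : K, (if Ind d then (inner z (sp d) (σ c)) ^ 2 else 0) ≤
          (Fintype.card K : ℝ) * ((Fintype.card K : ℝ) - 1) * 2 ^ m := by
      intro d _
      by_cases hd : Ind d
      · simp only [hd, if_true]
        have := sum_inner_sq z hz σ hσ (sp d)
        unfold Ind at hd
        rw [hd] at this
        exact_mod_cast this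
      · simp only [hd, if_false, Finset.sum_const_zero]
        have : (1 : ℝ) < (Fintype.card K : ℝ) := by exact_mod_cast hK
        have h9 : (0 : ℝ) ≤ (Fintype.card K : ℝ) - 1 := by linarith
        positivity
    refine (Finset.sum_le_sum h7).trans ?_
    rw [Finset.sum_const, nsmul_eq_mul, Finset.card_univ, Fintype.card_pi_const]
    push_cast
    exact le_refl _
  have hK' : (0 : ℝ) < (Fintype.card K : ℝ) - 1 := by
    have : (1 : ℝ) < (Fintype.card K : ℝ) := by exact_mod_cast hK
    linarith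
  have h8 : ((Fintype.card K : ℝ) - 1) * F ≤
      ((Fintype.card K : ℝ) - 1) * ((Fintype.card K : ℝ) ^ (m + 1) * 2 ^ m) := by
    refine (h2.trans h6).trans (le_of_eq ?_)
    ring
  exact le_of_mul_le_mul_left h8 hK'

theorem pow2_bij (m : ℕ) : Function.Bijective (fun c : K => c ^ (2 ^ m)) := by
  induction m with
  | zero => simpa using Function.bijective_id
  | succ m ih =>
    have h : (fun c : K => c ^ 2 ^ (m + 1)) = (fun c : K => c ^ 2) ∘ (fun c : K => c ^ (2 ^ m)) := by
      ext c; simp only [Function.comp]; rw [← pow_mul, pow_succ]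
    rw [h]
    refine Function.Bijective.comp ⟨fun a b h => sq_inj h, fun x => exists_sqrt x⟩ ih

/-- functions of a subspace used on both sides -/
noncomputable def uD (h : ℕ) (D : Submodule (ZMod 2) K) : ℝ :=
  if (el D).card = 2 ^ h then chi (S D) else 0

/-- the second function -/
noncomputable def vE (r : ℕ) (E : Submodule (ZMod 2) K) : ℝ :=
  if (el E).card = 2 ^ r then chi (S (FF ⊥ E)) else 0

theorem abs_uD_le (h : ℕ) (D : Submodule (ZMod 2) K) : |uD h D| ≤ 1 := by
  unfold uD; split_ifs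
  · rw [abs_chi]
  · simp

theorem abs_vE_le (h : ℕ) (D : Submodule (ZMod 2) K) : |vE h D| ≤ 1 := by
  unfold vE; split_ifs
  · rw [abs_chi]
  · simp

theorem mem_perp_bot (w : K) : w ∈ perp (⊥ : Submodule (ZMod 2) K) := by
  intro d hd
  rw [Submodule.mem_bot] at hd
  rw [hd, zero_mul, chi_zero]

theorem sum_f_adj (f : Submodule (ZMod 2) K → ℝ) (z : Submodule (ZMod 2) K → K → K) (m : ℕ)
    (ε : Submodule (ZMod 2) K → ℝ) 
    (h0 : ∀ D : Submodule (ZMod 2) K, (el D).card ≠ 2 ^ (m + 1) → f D = 0)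
    (h1 : ∀ D : Submodule (ZMod 2) K, ∀ v, v ∉ D → (el D).card = 2 ^ m → f (adj D v) = ε D * chi (z D v))
    (d : Fin m → K) :
    ∑ v : K, f (adj (sp d) v) = if Ind d then ε (sp d) * inner z (sp d) 1 else 0 := by
  split_ifs with h
  · unfold inner
    rw [Finset.mul_sum, Finset.sum_filter]
    apply Finset.sum_congr rfl
    intro v _
    by_cases hv : v ∈ sp d
    · rw [if_neg (not_not.mpr hv)]
      apply h0
      intro h2
      exact ((card_adj_eq_iff d v).mp h2).2 hv
    · rw [if_pos hv, h1 (sp d) v hv h, one_mul]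
  · apply Finset.sum_eq_zero
    intro v _
    apply h0
    intro h2
    exact h ((card_adj_eq_iff d v).mp h2).1

theorem uD_adj {m : ℕ} {D : Submodule (ZMod 2) K} {v : K} (hv : v ∉ D) (hD : (el D).card = 2 ^ m) :
    uD (m + 1) (adj D v) = chi (S D) * chi (g D v) := by
  unfold uD
  rw [if_pos (by rw [card_adj hv, hD, pow_succ]; ring), S_adj hv, chi_add]

theorem vE_adj {m : ℕ} {D : Submodule (ZMod 2) K} {v : K} (hv : v ∉ D) (hD : (el D).card = 2 ^ m) :
    vE (m + 1) (adj D v) = chi (S (FF ⊥ D)) * chi (L D v) := by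
  unfold vE
  rw [if_pos (by rw [card_adj hv, hD, pow_succ]; ring), S_FF_adj hv (mem_perp_bot v), chi_add,
    chi_sq, chi_sq, mul_comm]

theorem HU (m : ℕ) (hK : 1 < Fintype.card K) :
    ∑ d : Fin m → K, (∑ v : K, uD (m + 1) (adj (sp d) v)) ^ 2 ≤
      (Fintype.card K : ℝ) ^ (m + 1) * 2 ^ m := by
  have h := mean_square g m (fun D x y hx hy h => g_inj hx hy h) (fun c => c⁻¹)
    inv_involutive.bijective hK (fun c hc D _ x => g_scal hc D x)
  refine le_trans (le_of_eq ?_) h
  apply Finset.sum_congr rfl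
  intro d _
  rw [sum_f_adj (uD (m + 1)) g m (fun D => chi (S D))
    (fun D hD => by unfold uD; rw [if_neg hD]) (fun D v hv hD => uD_adj hv hD) d]
  split_ifs
  · rw [mul_pow, sq (chi _), chi_mul_self, one_mul]
  · simp

theorem HV (m : ℕ) (hK : 1 < Fintype.card K) :
    ∑ d : Fin m → K, (∑ v : K, vE (m + 1) (adj (sp d) v)) ^ 2 ≤
      (Fintype.card K : ℝ) ^ (m + 1) * 2 ^ m := by
  have h := mean_square L m (fun D x y hx hy h => L_inj h) (fun c => c ^ (2 ^ m))
    (pow2_bij m) hK (fun c hc D hD x => by rw [L_scal hc, hD])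
  refine le_trans (le_of_eq ?_) h
  apply Finset.sum_congr rfl
  intro d _
  rw [sum_f_adj (vE (m + 1)) L m (fun D => chi (S (FF ⊥ D)))
    (fun D hD => by unfold vE; rw [if_neg hD]) (fun D v hv hD => vE_adj hv hD) d]
  split_ifs
  · rw [mul_pow, sq (chi _), chi_mul_self, one_mul]
  · simp

end Pool.Agent.H727R3
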