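import Pool.Agent.H727R3.Theta

set_option autoImplicit false
set_option linter.unusedSectionVars false

namespace Pool.Agent.H727R3

open Finset
open scoped Classical

variable {K : Type} [Field K] [Fintype K] [DecidableEq K] [CharP K 2] [Algebra (ZMod 2) K]

/-- orthogonality of tuples -/
def orth {h r : ℕ} (d : Fin h → K) (e : Fin r → K) : Prop := ∀ i j, chi (d i * e j) = 1

theorem mem_perp_sp {h : ℕ} (d : Fin h → K) (x : K) :
    x ∈ perp (sp d) ↔ ∀ i, chi (d i * x) = 1 := by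
  constructor
  · intro hx i
    exact hx (d i) (Submodule.subset_span ⟨i, rfl⟩)
  · intro hx
    have h1 : sp d ≤ perp (perp (sp d)) := by rw [perp_perp]
    have h2 : sp d ≤ mkSub {y | chi (y * x) = 1} (by show chi ((0 : K) * x) = 1; rw [zero_mul, chi_zero])
        (by
          intro a ha b hb
          show chi ((a + b) * x) = 1
          have ha' : chi (a * x) = 1 := ha
          have hb' : chi (b * x) = 1 := hb
          rw [add_mul, chi_add, ha', hb', one_mul]) := by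
      unfold sp
      rw [Submodule.span_le]
      rintro y ⟨i, rfl⟩
      exact hx i
    intro y hy
    exact h2 hy

theorem orth_iff {h r : ℕ} (d : Fin h → K) (e : Fin r → K) :
    orth d e ↔ ∀ j, e j ∈ perp (sp d) := by
  unfold orth
  rw [forall_comm]
  apply forall_congr'
  intro j
  rw [mem_perp_sp]

theorem ph_add_mat {h r : ℕ} (A B : Matrix (Fin h) (Fin r) (ZMod 2)) (d : Fin h → K)
    (e : Fin r → K) : ph (A + B) d e = ph A d e * ph B d e := by
  unfold ph
  rw [← chi_add]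
  congr 1
  simp only [Matrix.add_apply, add_smul, Finset.sum_add_distrib]

theorem sum_ph_mat {h r : ℕ} (d : Fin h → K) (e : Fin r → K) :
    ∑ A : Matrix (Fin h) (Fin r) (ZMod 2), ph A d e = if orth d e then (2 : ℝ) ^ (h * r) else 0 := by
  rw [sum_signchar (fun A => ph A d e) (fun A B => ph_add_mat A B d e) (fun A => ph_cases A d e)]
  have h1 : (∀ A : Matrix (Fin h) (Fin r) (ZMod 2), ph A d e = 1) ↔ orth d e := by
    constructor
    · intro h i j
      have := h (Matrix.single i j 1)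
      unfold ph at this
      rw [Finset.sum_eq_single i, Finset.sum_eq_single j] at this
      · simpa using this
      · intro b _ hb
        rw [Matrix.single_apply_of_ne _ _ _ _ _ (by tauto), zero_smul]
      · intro h; exact absurd (Finset.mem_univ j) h
      · intro b _ hb
        apply Finset.sum_eq_zero
        intro c _
        rw [Matrix.single_apply_of_ne _ _ _ _ _ (by tauto), zero_smul]
      · intro h; exact absurd (Finset.mem_univ i) h
    · intro h A
      unfold ph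
      rw [chi_sum]
      apply Finset.prod_eq_one
      intro i _
      rw [chi_sum]
      apply Finset.prod_eq_one
      intro j _
      rcases z2 (A i j) with h0 | h0 <;> rw [h0]
      · rw [zero_smul, chi_zero]
      · rw [one_smul]; exact h i j
  have hc : Fintype.card (Matrix (Fin h) (Fin r) (ZMod 2)) = 2 ^ (h * r) := by
    rw [← Fintype.card_congr (Matrix.of (m := Fin h) (n := Fin r) (α := ZMod 2)),
      Fintype.card_pi_const, Fintype.card_pi_const, ZMod.card, ← pow_mul, mul_comm]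
  rw [hc]
  simp only [h1]
  push_cast
  rfl

/-- the weighted sum over orthogonal pairs -/
noncomputable def TT (K : Type) [Field K] [Fintype K] [DecidableEq K] [CharP K 2]
    [Algebra (ZMod 2) K] (m s : ℕ) : ℝ :=
  ∑ d : Fin (m + 1) → K, ∑ e : Fin (s + 2) → K,
    uD (m + 1) (sp d) * vE (s + 2) (sp e) * (if orth d e then 1 else 0)

theorem TT_eq (m s : ℕ) : (2 : ℝ) ^ ((m + 1) * (s + 2)) * TT K m s =
    ∑ A : Matrix (Fin (m + 1)) (Fin (s + 2)) (ZMod 2), Th K A := by
  unfold TT Th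
  rw [Finset.mul_sum, Finset.sum_comm]
  apply Finset.sum_congr rfl
  intro d _
  rw [Finset.mul_sum, Finset.sum_comm]
  apply Finset.sum_congr rfl
  intro e _
  rw [← Finset.mul_sum, sum_ph_mat]
  split_ifs <;> ring

section bound
variable {m s n : ℕ}

theorem abs_le_of_sq_le_pow {x : ℝ} {a b : ℕ} (hx : x ^ 2 ≤ 2 ^ a) (hab : a ≤ 2 * b) :
    |x| ≤ 2 ^ b := by
  apply abs_le_of_sq_le_sq _ (by positivity)
  refine hx.trans ?_
  rw [← pow_mul]
  exact pow_le_pow_right₀ (by norm_num) (by omega)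

theorem T1' (hms : s + 2 ≤ m) (hn : Fintype.card K = 2 ^ n) (hn0 : 0 < n)
    (A : Matrix (Fin (m + 1)) (Fin (s + 2)) (ZMod 2)) (hr : A.rank = s + 2) :
    |Th K A| ≤ 2 ^ ((n * (2 * m + s + 3) + m + 1) / 2) := by
  have hK : 1 < Fintype.card K := by rw [hn]; exact Nat.one_lt_two_pow (by omega)
  have h1 := T1 (K := K) hms hK A hr
  rw [hn] at h1
  push_cast at h1
  rw [← pow_mul, ← pow_add] at h1
  exact abs_le_of_sq_le_pow h1 (by omega)

theorem T2' (hms : s + 2 ≤ m) (hn : Fintype.card K = 2 ^ n) (hn0 : 0 < n)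
    (A : Matrix (Fin (m + 1)) (Fin (s + 2)) (ZMod 2)) (hr : A.rank = s + 1) :
    |Th K A| ≤ 2 ^ ((n * (2 * m + s + 3) + m + s + 2) / 2) := by
  have hK : 1 < Fintype.card K := by rw [hn]; exact Nat.one_lt_two_pow (by omega)
  have h1 := T2 (K := K) hms hK A hr
  rw [hn] at h1
  push_cast at h1
  rw [← pow_mul, ← pow_add] at h1
  exact abs_le_of_sq_le_pow h1 (by omega)

theorem T3' (hms : s + 2 ≤ m) (hn : Fintype.card K = 2 ^ n) (hn0 : 0 < n)
    (A : Matrix (Fin (m + 1)) (Fin (s + 2)) (ZMod 2)) (hr : A.rank ≤ s) :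
    |Th K A| ≤ 2 ^ ((n * (2 * m + 2 * s + 3 - A.rank) + m + 1) / 2) * (2 ^ (2 * s) + 2 ^ (s + 1)) := by
  have hK : 1 < Fintype.card K := by rw [hn]; exact Nat.one_lt_two_pow (by omega)
  have h1 := T3 (K := K) hms hK A hr
  rw [hn] at h1
  push_cast at h1
  rw [← pow_mul, ← pow_add] at h1
  apply abs_le_of_sq_le_sq _ (by positivity)
  refine h1.trans ?_
  rw [mul_pow]
  apply mul_le_mul_of_nonneg_right _ (by positivity)
  rw [← pow_mul]
  exact pow_le_pow_right₀ (by norm_num) (by omega)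

theorem sum_Th_le (hms : s + 2 ≤ m) (hn : Fintype.card K = 2 ^ n) (hkn : 2 * (m + s + 3) ≤ n) :
    ∑ A : Matrix (Fin (m + 1)) (Fin (s + 2)) (ZMod 2), |Th K A| ≤
      2 ^ ((m + 1) * (s + 2)) * 2 ^ ((n * (2 * m + s + 3) + m + 1) / 2) +
      (2 ^ (s + 2) - 1) * 2 ^ ((s + 1) * (m + 1)) * 2 ^ ((n * (2 * m + s + 3) + m + s + 2) / 2) +
      (s + 1) * (2 ^ ((n * (2 * m + 2 * s + 3) + m + 1) / 2) * (2 ^ (2 * s) + 2 ^ (s + 1))) := by
  have hn0 : 0 < n := by omega
  -- pointwise bound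
  set b1 : ℝ := 2 ^ ((n * (2 * m + s + 3) + m + 1) / 2) with hb1
  set b2 : ℝ := 2 ^ ((n * (2 * m + s + 3) + m + s + 2) / 2) with hb2
  set b3 : ℕ → ℝ := fun i => 2 ^ ((n * (2 * m + 2 * s + 3 - i) + m + 1) / 2) *
    (2 ^ (2 * s) + 2 ^ (s + 1)) with hb3
  have h1 : ∀ A ∈ (univ : Finset (Matrix (Fin (m + 1)) (Fin (s + 2)) (ZMod 2))), |Th K A| ≤
      b1 + (if A.rank < s + 2 then b2 else 0) +
      ∑ i ∈ range (s + 1), (if A.rank = i then b3 i else 0) := by
    intro A _
    have hle : A.rank ≤ s + 2 := A.rank_le_width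
    have hb1' : 0 ≤ b1 := by positivity
    have hb2' : 0 ≤ (if A.rank < s + 2 then b2 else 0) := by split_ifs <;> positivity
    have hb3' : 0 ≤ ∑ i ∈ range (s + 1), (if A.rank = i then b3 i else 0) := by
      apply Finset.sum_nonneg
      intro i _
      split_ifs <;> positivity
    rcases Nat.lt_or_ge s A.rank with h2 | h2
    · rcases Nat.lt_or_ge (s + 1) A.rank with h3 | h3
      · have := T1' (K := K) hms hn hn0 A (by omega)
        linarith
      · have := T2' (K := K) hms hn hn0 A (by omega)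
        rw [if_pos (by omega)]
        linarith
    · have := T3' (K := K) hms hn hn0 A h2
      have h4 : b3 A.rank ≤ ∑ i ∈ range (s + 1), (if A.rank = i then b3 i else 0) := by
        rw [Finset.sum_ite_eq, if_pos (Finset.mem_range.mpr (by omega))]
      change |Th K A| ≤ b3 A.rank at this
      linarith
  refine (Finset.sum_le_sum h1).trans ?_
  rw [Finset.sum_add_distrib, Finset.sum_add_distrib, Finset.sum_comm]
  have hcard : Fintype.card (Matrix (Fin (m + 1)) (Fin (s + 2)) (ZMod 2)) = 2 ^ ((m + 1) * (s + 2)) := by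
    rw [← Fintype.card_congr (Matrix.of (m := Fin (m + 1)) (n := Fin (s + 2)) (α := ZMod 2)),
      Fintype.card_pi_const, Fintype.card_pi_const, ZMod.card, ← pow_mul, mul_comm]
  apply add_le_add
  · apply add_le_add
    · rw [Finset.sum_const, Finset.card_univ, hcard, nsmul_eq_mul]
      push_cast
      exact le_refl _
    · rw [← Finset.sum_filter, Finset.sum_const, nsmul_eq_mul]
      apply mul_le_mul_of_nonneg_right _ (by positivity)
      have h5 := card_rank_defect (h := m + 1) (r := s + 2)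
      have h6 : (1 : ℕ) ≤ 2 ^ (s + 2) := Nat.one_le_two_pow
      have h7 : (((2 ^ (s + 2) - 1) * 2 ^ ((s + 2 - 1) * (m + 1)) : ℕ) : ℝ) =
        (2 ^ (s + 2) - 1) * 2 ^ ((s + 1) * (m + 1)) := by
        rw [Nat.cast_mul, Nat.cast_sub h6]
        push_cast
        rfl
      rw [← h7]
      exact_mod_cast h5
  · have h8 : ∀ i ∈ range (s + 1), ∑ A : Matrix (Fin (m + 1)) (Fin (s + 2)) (ZMod 2),
        (if A.rank = i then b3 i else 0) ≤
        2 ^ ((n * (2 * m + 2 * s + 3) + m + 1) / 2) * (2 ^ (2 * s) + 2 ^ (s + 1)) := by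
      intro i hi
      rw [Finset.mem_range] at hi
      rw [← Finset.sum_filter, Finset.sum_const, nsmul_eq_mul]
      have h9 := card_rank_eq (h := m + 1) (r := s + 2) i
      have h10 : ((univ.filter (fun A : Matrix (Fin (m + 1)) (Fin (s + 2)) (ZMod 2) => A.rank = i)).card : ℝ)
          ≤ 2 ^ (i * (m + 1 + (s + 2))) := by exact_mod_cast h9
      refine (mul_le_mul_of_nonneg_right h10 (by positivity)).trans ?_
      rw [hb3]
      simp only
      rw [← mul_assoc, ← pow_add]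
      apply mul_le_mul_of_nonneg_right _ (by positivity)
      apply pow_le_pow_right₀ (by norm_num)
      have h11 : n * (2 * m + 2 * s + 3 - i) + i * (2 * (m + 1 + (s + 2))) ≤ n * (2 * m + 2 * s + 3) := by
        have h12 : i * (2 * (m + 1 + (s + 2))) ≤ i * n := Nat.mul_le_mul_left i (by omega)
        have h13 : n * (2 * m + 2 * s + 3) = n * (2 * m + 2 * s + 3 - i) + i * n := by
          have h130 : 2 * m + 2 * s + 3 = (2 * m + 2 * s + 3 - i) + i := by omega
          calc n * (2 * m + 2 * s + 3) = n * ((2 * m + 2 * s + 3 - i) + i) := congrArg (fun z => n * z) h130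
            _ = _ := by ring
        omega
      have h14 : i * (2 * (m + 1 + (s + 2))) = 2 * (i * (m + 1 + (s + 2))) := by ring
      omega
    refine (Finset.sum_le_sum h8).trans ?_
    rw [Finset.sum_const, Finset.card_range, nsmul_eq_mul]
    push_cast
    exact le_refl _

end bound

/-! ### counting pairs -/

/-- number of independent tuples in a subspace -/
noncomputable def cnt (r : ℕ) (W : Submodule (ZMod 2) K) : ℕ :=
  (univ.filter (fun e : Fin r → K => Ind e ∧ ∀ j, e j ∈ W)).card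

theorem cnt_succ (r : ℕ) (W : Submodule (ZMod 2) K) :
    (cnt (r + 1) W : ℝ) = cnt r W * (((el W).card : ℝ) - 2 ^ r) := by
  have h1 : (cnt (r + 1) W : ℝ) = ∑ e : Fin (r + 1) → K, if (Ind e ∧ ∀ j, e j ∈ W) then (1 : ℝ) else 0 := by
    unfold cnt
    rw [Finset.sum_boole]
  have h2 : (cnt r W : ℝ) = ∑ e : Fin r → K, if (Ind e ∧ ∀ j, e j ∈ W) then (1 : ℝ) else 0 := by
    unfold cnt
    rw [Finset.sum_boole]
  rw [h1, h2]
  have h3 : ∑ e : Fin (r + 1) → K, (if (Ind e ∧ ∀ j, e j ∈ W) then (1 : ℝ) else 0) =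
      ∑ p : K × (Fin r → K), (if (Ind (Fin.cons p.1 p.2 : Fin (r + 1) → K) ∧
        ∀ j, (Fin.cons p.1 p.2 : Fin (r + 1) → K) j ∈ W) then (1 : ℝ) else 0) :=
    (Fintype.sum_equiv (Fin.consEquiv (fun _ => K)) _ _ (fun p => rfl)).symm
  rw [h3, Fintype.sum_prod_type, Finset.sum_comm, Finset.sum_mul]
  apply Finset.sum_congr rfl
  intro e _
  by_cases he : Ind e ∧ ∀ j, e j ∈ W
  · rw [if_pos he, one_mul]
    have h4 : ∀ x : K, (Ind (Fin.cons x e : Fin (r + 1) → K) ∧
        ∀ j, (Fin.cons x e : Fin (r + 1) → K) j ∈ W) ↔ x ∈ el W \ el (sp e) := by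
      intro x
      rw [Ind_cons, Finset.mem_sdiff, mem_el, mem_el, Fin.forall_fin_succ]
      simp only [Fin.cons_zero, Fin.cons_succ]
      constructor
      · rintro ⟨⟨_, h5⟩, h6, _⟩; exact ⟨h6, h5⟩
      · rintro ⟨h5, h6⟩; exact ⟨⟨he.1, h6⟩, h5, he.2⟩
    simp only [h4]
    rw [Finset.sum_boole]
    have h5 : el (sp e) ⊆ el W := by
      intro x hx
      rw [mem_el] at hx ⊢
      have : sp e ≤ W := by
        unfold sp
        rw [Submodule.span_le]
        rintro y ⟨i, rfl⟩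
        exact he.2 i
      exact this hx
    have h6 : (univ.filter (fun x => x ∈ el W \ el (sp e))) = el W \ el (sp e) := by
      ext x; simp
    rw [h6, Finset.card_sdiff_of_subset h5]
    have h7 : (el (sp e)).card = 2 ^ r := he.1
    rw [Nat.cast_sub (Finset.card_le_card h5), h7]
    push_cast
    rfl
  · rw [if_neg he, zero_mul]
    apply Finset.sum_eq_zero
    intro x _
    rw [if_neg]
    rw [Ind_cons, Fin.forall_fin_succ]
    rintro ⟨⟨h5, _⟩, _, h6⟩
    exact he ⟨h5, h6⟩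

theorem cnt_zero (W : Submodule (ZMod 2) K) : cnt 0 W = 1 := by
  unfold cnt
  have h1 : (univ.filter (fun e : Fin 0 → K => Ind e ∧ ∀ j, e j ∈ W)) = univ := by
    ext e
    simp only [Finset.mem_filter, Finset.mem_univ, true_and, iff_true]
    constructor
    · unfold Ind
      rw [sp_zero]
      have : el (⊥ : Submodule (ZMod 2) K) = {0} := by ext x; simp
      rw [this]; simp
    · intro j; exact j.elim0
  rw [h1]; simp

theorem cnt_ge (W : Submodule (ZMod 2) K) (r : ℕ) (hr : 2 ^ r ≤ (el W).card) :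
    ((el W).card : ℝ) ^ r * (((el W).card : ℝ) - 2 ^ r + 1) ≤ ((el W).card : ℝ) * cnt r W := by
  induction r with
  | zero => rw [cnt_zero]; simp
  | succ r ih =>
    have h1 : 2 ^ r ≤ (el W).card := le_trans (Nat.pow_le_pow_right (by norm_num) (by omega)) hr
    have h2 := ih h1
    rw [cnt_succ]
    set M : ℝ := ((el W).card : ℝ) with hM
    have h3 : (2 : ℝ) ^ (r + 1) ≤ M := by rw [hM]; exact_mod_cast hr
    have h4 : (1 : ℝ) ≤ 2 ^ r := one_le_pow₀ (by norm_num)
    have h5 : (0 : ℝ) ≤ M - 2 ^ r := by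
      rw [pow_succ] at h3; linarith
    have h6 := mul_le_mul_of_nonneg_right h2 h5
    have h7 : (0 : ℝ) < M := by
      have : (0 : ℝ) < 2 ^ (r + 1) := by positivity
      linarith
    calc M ^ (r + 1) * (M - 2 ^ (r + 1) + 1)
        ≤ M ^ r * (M - 2 ^ r + 1) * (M - 2 ^ r) := by
          rw [pow_succ, mul_assoc, mul_assoc]
          apply mul_le_mul_of_nonneg_left _ (by positivity)
          have : (M - 2 ^ r + 1) * (M - 2 ^ r) - M * (M - 2 ^ (r + 1) + 1) = 2 ^ r * (2 ^ r - 1) := by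
            rw [pow_succ]; ring
          nlinarith
      _ ≤ M * cnt r W * (M - 2 ^ r) := h6
      _ = M * (cnt r W * (M - 2 ^ r)) := by ring

/-- number of orthogonal pairs -/
noncomputable def PP (K : Type) [Field K] [Fintype K] [DecidableEq K] [CharP K 2]
    [Algebra (ZMod 2) K] (h r : ℕ) : ℝ :=
  ∑ d : Fin h → K, ∑ e : Fin r → K, (if (Ind d ∧ Ind e) ∧ orth d e then 1 else 0)

theorem PP_ge {h r n : ℕ} (hn : Fintype.card K = 2 ^ n) (h1 : 1 ≤ h) (r1 : 1 ≤ r)
    (hk : h + r + 4 ≤ n) :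
    7 * (2 : ℝ) ^ (n * (h + r)) ≤ 8 * (2 ^ (h * r) * PP K h r) := by
  obtain ⟨h', rfl⟩ : ∃ h', h = h' + 1 := ⟨h - 1, by omega⟩
  obtain ⟨r', rfl⟩ : ∃ r', r = r' + 1 := ⟨r - 1, by omega⟩
  obtain ⟨t, ht⟩ : ∃ t, n = t + (h' + 1) + (r' + 1) + 4 := ⟨n - ((h' + 1) + (r' + 1) + 4), by omega⟩
  have hM : ∀ d : Fin (h' + 1) → K, Ind d → (el (perp (sp d))).card = 2 ^ (n - (h' + 1)) := by
    intro d hd
    have h2 := card_mul_card_perp (sp d)
    unfold Ind at hd
    rw [hd, hn] at h2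
    have h3 : 2 ^ n = 2 ^ (h' + 1) * 2 ^ (n - (h' + 1)) := by rw [← pow_add]; congr 1; omega
    rw [h3] at h2
    exact Nat.eq_of_mul_eq_mul_left (by positivity) h2
  have h2 : PP K (h' + 1) (r' + 1) = ∑ d : Fin (h' + 1) → K,
      (if Ind d then (cnt (r' + 1) (perp (sp d)) : ℝ) else 0) := by
    unfold PP
    apply Finset.sum_congr rfl
    intro d _
    split_ifs with hd
    · unfold cnt
      rw [← Finset.sum_boole]
      apply Finset.sum_congr rfl
      intro e _
      simp only [hd, true_and, orth_iff]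
    · simp [hd]
  have h3 : ∀ d : Fin (h' + 1) → K, Ind d →
      (2 : ℝ) ^ ((n - (h' + 1)) * r') * (2 ^ (n - (h' + 1)) - 2 ^ (r' + 1)) ≤
        (cnt (r' + 1) (perp (sp d)) : ℝ) := by
    intro d hd
    have h4 := cnt_ge (perp (sp d)) (r' + 1) (by
      rw [hM d hd]; exact Nat.pow_le_pow_right (by norm_num) (by omega))
    rw [hM d hd] at h4
    push_cast at h4
    have h5 : (0 : ℝ) < 2 ^ (n - (h' + 1)) := by positivity
    have h6 : (2 : ℝ) ^ (n - (h' + 1)) * ((2 : ℝ) ^ ((n - (h' + 1)) * r') *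
        (2 ^ (n - (h' + 1)) - 2 ^ (r' + 1))) ≤
        (2 : ℝ) ^ (n - (h' + 1)) * (cnt (r' + 1) (perp (sp d)) : ℝ) := by
      refine le_trans ?_ h4
      rw [pow_mul, ← mul_assoc]
      have h7 : ((2 : ℝ) ^ (n - (h' + 1))) * ((2 : ℝ) ^ (n - (h' + 1))) ^ r' =
        ((2 : ℝ) ^ (n - (h' + 1))) ^ (r' + 1) := by rw [pow_succ']
      rw [h7]
      apply mul_le_mul_of_nonneg_left _ (by positivity)
      linarith
    exact le_of_mul_le_mul_left h6 h5
  have hnonneg : (0 : ℝ) ≤ (2 : ℝ) ^ ((n - (h' + 1)) * r') * (2 ^ (n - (h' + 1)) - 2 ^ (r' + 1)) := by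
    apply mul_nonneg (by positivity)
    have : (2 : ℝ) ^ (r' + 1) ≤ 2 ^ (n - (h' + 1)) := pow_le_pow_right₀ (by norm_num) (by omega)
    linarith
  have h4 : (cnt (h' + 1) (⊤ : Submodule (ZMod 2) K) : ℝ) *
      ((2 : ℝ) ^ ((n - (h' + 1)) * r') * (2 ^ (n - (h' + 1)) - 2 ^ (r' + 1))) ≤ PP K (h' + 1) (r' + 1) := by
    rw [h2]
    have h5 : (cnt (h' + 1) (⊤ : Submodule (ZMod 2) K) : ℝ) =
        ∑ d : Fin (h' + 1) → K, (if Ind d then (1 : ℝ) else 0) := by
      unfold cnt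
      rw [Finset.sum_boole]
      congr 2
      ext d; simp
    rw [h5, Finset.sum_mul]
    apply Finset.sum_le_sum
    intro d _
    split_ifs with hd
    · rw [one_mul]; exact h3 d hd
    · simp
  have htop : (el (⊤ : Submodule (ZMod 2) K)).card = 2 ^ n := by
    rw [← hn, ← Finset.card_univ]
    congr 1
    ext x; simp
  have h6 := cnt_ge (⊤ : Submodule (ZMod 2) K) (h' + 1) (by
    rw [htop]; exact Nat.pow_le_pow_right (by norm_num) (by omega))
  rw [htop] at h6
  push_cast at h6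
  have h7 : (2 : ℝ) ^ (n * h') * (2 ^ n - 2 ^ (h' + 1)) ≤ (cnt (h' + 1) (⊤ : Submodule (ZMod 2) K) : ℝ) := by
    have h8 : (0 : ℝ) < 2 ^ n := by positivity
    have h9 : (2 : ℝ) ^ n * ((2 : ℝ) ^ (n * h') * (2 ^ n - 2 ^ (h' + 1))) ≤
        (2 : ℝ) ^ n * (cnt (h' + 1) (⊤ : Submodule (ZMod 2) K) : ℝ) := by
      refine le_trans ?_ h6
      rw [pow_mul, ← mul_assoc]
      have h7 : ((2 : ℝ) ^ n) * ((2 : ℝ) ^ n) ^ h' = ((2 : ℝ) ^ n) ^ (h' + 1) := by rw [pow_succ']
      rw [h7]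
      apply mul_le_mul_of_nonneg_left _ (by positivity)
      linarith
    exact le_of_mul_le_mul_left h9 h8
  have h8 : (2 : ℝ) ^ (n * h') * (2 ^ n - 2 ^ (h' + 1)) *
      ((2 : ℝ) ^ ((n - (h' + 1)) * r') * (2 ^ (n - (h' + 1)) - 2 ^ (r' + 1))) ≤ PP K (h' + 1) (r' + 1) :=
    le_trans (mul_le_mul_of_nonneg_right h7 hnonneg) h4
  have h9 : (2 : ℝ) ^ n - 2 ^ (h' + 1) = 2 ^ (h' + 1) * (2 ^ (t + (r' + 1) + 4) - 1) := by
    rw [ht]; ring
  have h10 : n - (h' + 1) = t + (r' + 1) + 4 := by omega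
  have h11 : (2 : ℝ) ^ (t + (r' + 1) + 4) - 2 ^ (r' + 1) = 2 ^ (r' + 1) * (2 ^ (t + 4) - 1) := by ring
  rw [h9, h10, h11] at h8
  have ha : (15 : ℝ) / 16 * 2 ^ (t + 4) ≤ 2 ^ (t + 4) - 1 := by
    have : (1 : ℝ) ≤ 2 ^ t := one_le_pow₀ (by norm_num)
    rw [pow_add]; linarith
  have hb : (15 : ℝ) / 16 * 2 ^ (t + (r' + 1) + 4) ≤ 2 ^ (t + (r' + 1) + 4) - 1 := by
    have : (1 : ℝ) ≤ 2 ^ (t + (r' + 1)) := one_le_pow₀ (by norm_num)
    rw [pow_add _ _ 4]; linarith
  have h12 : (2 : ℝ) ^ (n * h') * (2 ^ (h' + 1) * ((15 : ℝ) / 16 * 2 ^ (t + (r' + 1) + 4))) *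
      ((2 : ℝ) ^ ((t + (r' + 1) + 4) * r') * (2 ^ (r' + 1) * ((15 : ℝ) / 16 * 2 ^ (t + 4)))) ≤
      PP K (h' + 1) (r' + 1) := by
    refine le_trans ?_ h8
    apply mul_le_mul
    · apply mul_le_mul_of_nonneg_left _ (by positivity)
      exact mul_le_mul_of_nonneg_left hb (by positivity)
    · apply mul_le_mul_of_nonneg_left _ (by positivity)
      exact mul_le_mul_of_nonneg_left ha (by positivity)
    · positivity
    · apply mul_nonneg (by positivity)
      apply mul_nonneg (by positivity)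
      have : (1 : ℝ) ≤ 2 ^ (t + (r' + 1) + 4) := one_le_pow₀ (by norm_num)
      linarith
  have h13 : (2 : ℝ) ^ ((h' + 1) * (r' + 1)) * ((2 : ℝ) ^ (n * h') * (2 ^ (h' + 1) * ((15 : ℝ) / 16 * 2 ^ (t + (r' + 1) + 4))) *
      ((2 : ℝ) ^ ((t + (r' + 1) + 4) * r') * (2 ^ (r' + 1) * ((15 : ℝ) / 16 * 2 ^ (t + 4))))) =
      (225 : ℝ) / 256 * 2 ^ (n * (h' + 1 + (r' + 1))) := by
    have : (2 : ℝ) ^ (n * (h' + 1 + (r' + 1))) = 2 ^ ((h' + 1) * (r' + 1)) * ((2 : ℝ) ^ (n * h') * (2 ^ (h' + 1) * (2 ^ (t + (r' + 1) + 4))) *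
      ((2 : ℝ) ^ ((t + (r' + 1) + 4) * r') * (2 ^ (r' + 1) * (2 ^ (t + 4))))) := by
      simp only [← pow_add]
      congr 1
      rw [ht]; ring
    rw [this]; ring
  have h14 := mul_le_mul_of_nonneg_left h12 (show (0 : ℝ) ≤ 2 ^ ((h' + 1) * (r' + 1)) by positivity)
  rw [h13] at h14
  have h15 : (0 : ℝ) < 2 ^ (n * (h' + 1 + (r' + 1))) := by positivity
  linarith

end Pool.Agent.H727R3
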