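import Pool.Agent.H727R3.Fourier

set_option autoImplicit false
set_option linter.unusedSectionVars false

namespace Pool.Agent.H727R3

open Finset
open scoped Classical

section matrices
variable {h r : ℕ}

theorem card_ker (A : Matrix (Fin h) (Fin r) (ZMod 2)) :
    Fintype.card (LinearMap.ker A.mulVecLin) = 2 ^ (r - A.rank) := by
  have h1 := LinearMap.finrank_range_add_finrank_ker A.mulVecLin
  rw [Module.card_eq_pow_finrank (K := ZMod 2), ZMod.card]
  congr 1
  have h2 : Module.finrank (ZMod 2) (LinearMap.range A.mulVecLin) = A.rank := rfl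
  rw [h2, Module.finrank_fin_fun] at h1
  omega

theorem exists_ker1 (A : Matrix (Fin h) (Fin r) (ZMod 2)) (hA : A.rank < r) :
    ∃ c : Fin r → ZMod 2, c ≠ 0 ∧ A.mulVec c = 0 := by
  have h1 := card_ker A
  have h2 : 1 < Fintype.card (LinearMap.ker A.mulVecLin) := by
    rw [h1]; exact Nat.one_lt_two_pow (by omega)
  obtain ⟨x, hx⟩ := Fintype.exists_ne_of_one_lt_card h2 0
  refine ⟨x.1, fun h => hx (Subtype.ext h), ?_⟩
  exact x.2

theorem exists_ker2 (A : Matrix (Fin h) (Fin r) (ZMod 2)) (hA : A.rank + 1 < r) :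
    ∃ c c' : Fin r → ZMod 2, c ≠ 0 ∧ c' ≠ 0 ∧ c ≠ c' ∧ A.mulVec c = 0 ∧ A.mulVec c' = 0 := by
  have h1 := card_ker A
  have h2 : 2 < Fintype.card (LinearMap.ker A.mulVecLin) := by
    rw [h1]
    have : 2 ^ 2 ≤ 2 ^ (r - A.rank) := Nat.pow_le_pow_right (by norm_num) (by omega)
    omega
  obtain ⟨x, hx0, hx⟩ := exists_ker1 A (by omega)
  have h3 : ∃ y : LinearMap.ker A.mulVecLin, y ∉ ({0, ⟨x, hx⟩} : Finset (LinearMap.ker A.mulVecLin)) := by
    by_contra hcon
    push Not at hcon
    have : Fintype.card (LinearMap.ker A.mulVecLin) ≤ ({0, ⟨x, hx⟩} : Finset (LinearMap.ker A.mulVecLin)).card := by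
      rw [← Finset.card_univ]
      exact Finset.card_le_card (fun y _ => hcon y)
    have h4 := Finset.card_le_two (a := (0 : LinearMap.ker A.mulVecLin)) (b := ⟨x, hx⟩)
    omega
  obtain ⟨y, hy⟩ := h3
  simp only [Finset.mem_insert, Finset.mem_singleton, not_or] at hy
  refine ⟨x, y.1, hx0, fun h => hy.1 (Subtype.ext h), fun h => hy.2 (Subtype.ext h.symm), hx, y.2⟩

theorem exists_left (A : Matrix (Fin h) (Fin r) (ZMod 2)) (hr : r < h) :
    ∃ q : Fin h → ZMod 2, q ≠ 0 ∧ ∀ j, ∑ i, A i j * q i = 0 := by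
  have h1 : A.transpose.rank < h := by
    have := A.transpose.rank_le_height
    omega
  obtain ⟨q, hq0, hq⟩ := exists_ker1 A.transpose h1
  refine ⟨q, hq0, fun j => ?_⟩
  have := congrFun hq j
  simpa [Matrix.mulVec, dotProduct] using this

theorem card_dot {c : Fin r → ZMod 2} (hc : c ≠ 0) :
    (univ.filter (fun a : Fin r → ZMod 2 => a ⬝ᵥ c = 0)).card * 2 = 2 ^ r := by
  have h1 := sum_signchar (fun a : Fin r → ZMod 2 => if a ⬝ᵥ c = 0 then (1 : ℝ) else -1)
    (by
      intro x y
      rw [add_dotProduct]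
      have h11 : (1 : ZMod 2) + 1 = 0 := by decide
      rcases z2 (x ⬝ᵥ c) with hx | hx <;> rcases z2 (y ⬝ᵥ c) with hy | hy <;>
        simp [hx, hy, h11])
    (by intro x; split_ifs <;> simp)
  rw [if_neg] at h1
  · have h2 := Finset.card_filter_add_card_filter_not (s := (univ : Finset (Fin r → ZMod 2)))
      (fun a : Fin r → ZMod 2 => a ⬝ᵥ c = 0)
    rw [Finset.sum_ite] at h1
    simp only [Finset.sum_const, nsmul_eq_mul, mul_one, mul_neg] at h1
    have h3 : (univ.filter (fun a : Fin r → ZMod 2 => a ⬝ᵥ c = 0)).card =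
        (univ.filter (fun a : Fin r → ZMod 2 => ¬ a ⬝ᵥ c = 0)).card := by
      have h4 : ((univ.filter (fun a : Fin r → ZMod 2 => a ⬝ᵥ c = 0)).card : ℝ) =
        ((univ.filter (fun a : Fin r → ZMod 2 => ¬ a ⬝ᵥ c = 0)).card : ℝ) := by linarith
      exact_mod_cast h4
    have h5 : (univ : Finset (Fin r → ZMod 2)).card = 2 ^ r := by
      rw [Finset.card_univ, Fintype.card_pi_const, ZMod.card]
    rw [h5] at h2
    omega
  · intro hall
    obtain ⟨l, hl⟩ : ∃ l, c l ≠ 0 := by
      by_contra h; push Not at h; exact hc (funext h)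
    have := hall (Pi.single l 1)
    rw [single_one_dotProduct, if_neg hl] at this
    norm_num at this

theorem card_mulVec_zero {c : Fin r → ZMod 2} (hc : c ≠ 0) :
    (univ.filter (fun A : Matrix (Fin h) (Fin r) (ZMod 2) => A.mulVec c = 0)).card ≤
      2 ^ ((r - 1) * h) := by
  have h1 : (univ.filter (fun A : Matrix (Fin h) (Fin r) (ZMod 2) => A.mulVec c = 0)).card ≤
      (Fintype.piFinset (fun _ : Fin h => univ.filter (fun a : Fin r → ZMod 2 => a ⬝ᵥ c = 0))).card := by
    apply Finset.card_le_card_of_injOn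
      (fun (A : Matrix (Fin h) (Fin r) (ZMod 2)) => (fun i => A i : Fin h → Fin r → ZMod 2))
    · intro A hA
      have hA2 := (Finset.mem_filter.mp hA).2
      refine Fintype.mem_piFinset.mpr ?_
      intro i
      exact Finset.mem_filter.mpr ⟨Finset.mem_univ _, congrFun hA2 i⟩
    · intro A _ B _ hAB
      exact hAB
  refine h1.trans ?_
  rw [Fintype.card_piFinset_const]
  have h2 := card_dot hc
  have hr : 0 < r := by
    rcases Nat.eq_zero_or_pos r with h0 | h0
    · subst h0; exact absurd (Subsingleton.elim c 0) hc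
    · exact h0
  have h3 : (univ.filter (fun a : Fin r → ZMod 2 => a ⬝ᵥ c = 0)).card = 2 ^ (r - 1) := by
    have : 2 ^ r = 2 ^ (r - 1) * 2 := by rw [← pow_succ]; congr 1; omega
    omega
  rw [h3, ← pow_mul]

theorem card_rank_defect :
    (univ.filter (fun A : Matrix (Fin h) (Fin r) (ZMod 2) => A.rank < r)).card ≤
      (2 ^ r - 1) * 2 ^ ((r - 1) * h) := by
  have h1 : (univ.filter (fun A : Matrix (Fin h) (Fin r) (ZMod 2) => A.rank < r)) ⊆
      (univ.erase (0 : Fin r → ZMod 2)).biUnion
        (fun c => univ.filter (fun A : Matrix (Fin h) (Fin r) (ZMod 2) => A.mulVec c = 0)) := by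
    intro A hA
    rw [Finset.mem_filter] at hA
    obtain ⟨c, hc0, hc⟩ := exists_ker1 A hA.2
    rw [Finset.mem_biUnion]
    exact ⟨c, Finset.mem_erase.mpr ⟨hc0, Finset.mem_univ _⟩,
      Finset.mem_filter.mpr ⟨Finset.mem_univ _, hc⟩⟩
  refine (Finset.card_le_card h1).trans ?_
  refine Finset.card_biUnion_le.trans ?_
  refine (Finset.sum_le_sum (g := fun _ => 2 ^ ((r - 1) * h)) ?_).trans ?_
  · intro c hc
    exact card_mulVec_zero (Finset.mem_erase.mp hc).1
  · rw [Finset.sum_const, Finset.card_erase_of_mem (Finset.mem_univ _), Finset.card_univ,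
      Fintype.card_pi_const, ZMod.card, smul_eq_mul]

theorem exists_factor (A : Matrix (Fin h) (Fin r) (ZMod 2)) :
    ∃ (B : Matrix (Fin h) (Fin A.rank) (ZMod 2)) (C : Matrix (Fin A.rank) (Fin r) (ZMod 2)),
      A = B * C := by
  have hfr : Module.finrank (ZMod 2) (LinearMap.range A.mulVecLin) = A.rank := rfl
  set b := Module.finBasisOfFinrankEq (ZMod 2) (LinearMap.range A.mulVecLin) hfr with hb
  refine ⟨Matrix.of (fun a k => (b k : Fin h → ZMod 2) a),
    Matrix.of (fun k j => b.repr ⟨A.mulVecLin (Pi.single j 1), LinearMap.mem_range_self _ _⟩ k), ?_⟩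
  ext a j
  rw [Matrix.mul_apply]
  have h1 := b.sum_repr ⟨A.mulVecLin (Pi.single j 1), LinearMap.mem_range_self _ _⟩
  have h2 := congrArg (fun x : LinearMap.range A.mulVecLin => (x : Fin h → ZMod 2) a) h1
  simp only [Matrix.mulVecLin_apply, Matrix.mulVec_single_one] at h2
  have h3 : (Matrix.col A j) a = A a j := rfl
  rw [h3] at h2
  rw [← h2]
  simp only [Submodule.coe_sum, Submodule.coe_smul, Finset.sum_apply, Pi.smul_apply, smul_eq_mul,
    Matrix.of_apply, Matrix.mulVecLin_apply, Matrix.mulVec_single_one]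
  exact Finset.sum_congr rfl (fun k _ => mul_comm _ _)

theorem card_rank_eq (i : ℕ) :
    (univ.filter (fun A : Matrix (Fin h) (Fin r) (ZMod 2) => A.rank = i)).card ≤
      2 ^ (i * (h + r)) := by
  have h1 : (univ.filter (fun A : Matrix (Fin h) (Fin r) (ZMod 2) => A.rank = i)) ⊆
      (univ : Finset (Matrix (Fin h) (Fin i) (ZMod 2) × Matrix (Fin i) (Fin r) (ZMod 2))).image
        (fun p => p.1 * p.2) := by
    intro A hA
    rw [Finset.mem_filter] at hA
    obtain ⟨_, rfl⟩ := hA
    obtain ⟨B, C, hBC⟩ := exists_factor A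
    rw [Finset.mem_image]
    exact ⟨(B, C), Finset.mem_univ _, hBC.symm⟩
  refine (Finset.card_le_card h1).trans (Finset.card_image_le.trans ?_)
  have hc : ∀ a b : ℕ, Fintype.card (Matrix (Fin a) (Fin b) (ZMod 2)) = 2 ^ (b * a) := by
    intro a b
    rw [← Fintype.card_congr (Matrix.of (m := Fin a) (n := Fin b) (α := ZMod 2)),
      Fintype.card_pi_const, Fintype.card_pi_const, ZMod.card, pow_mul]
  rw [Finset.card_univ, Fintype.card_prod, hc, hc, ← pow_add]
  apply le_of_eq; congr 1; ring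

end matrices

variable {K : Type} [Field K] [Fintype K] [DecidableEq K] [CharP K 2] [Algebra (ZMod 2) K]

theorem card_GA_le {h r : ℕ} (A : Matrix (Fin h) (Fin r) (ZMod 2)) :
    (GA (K := K) A).card ≤ Fintype.card K ^ (h - A.rank) := by
  have hf : Module.Finite (ZMod 2) K := Module.Finite.of_finite
  set n := Module.finrank (ZMod 2) K with hn
  set b := Module.finBasis (ZMod 2) K with hb
  have hmem : ∀ g ∈ GA (K := K) A, ∀ s : Fin n,
      (fun i => b.repr (g i) s) ∈ LinearMap.ker A.transpose.mulVecLin := by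
    intro g hg s
    rw [LinearMap.mem_ker]
    ext j
    rw [mem_GA] at hg
    have h1 := congrArg (fun x => b.repr x s) (hg j)
    simp only [map_sum, map_smul, Finsupp.coe_finsetSum, Finset.sum_apply, Finsupp.smul_apply,
      smul_eq_mul, map_zero, Finsupp.coe_zero, Pi.zero_apply] at h1
    change (A.transpose.mulVec (fun i => b.repr (g i) s)) j = 0
    simp only [Matrix.mulVec, dotProduct, Matrix.transpose_apply]
    exact h1
  have h1 : (GA (K := K) A).card ≤ Fintype.card (Fin n → LinearMap.ker A.transpose.mulVecLin) := by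
    rw [← Fintype.card_coe]
    apply Fintype.card_le_of_injective
      (fun g : GA (K := K) A => (fun s => (⟨_, hmem g.1 g.2 s⟩ : LinearMap.ker A.transpose.mulVecLin)))
    intro g g' hgg
    apply Subtype.ext
    ext i
    apply b.repr.injective
    ext s
    have := congrArg (fun x => (x s).1 i) hgg
    exact this
  refine h1.trans (le_of_eq ?_)
  rw [Fintype.card_pi_const, card_ker, Matrix.rank_transpose]
  have h2 : Fintype.card K = 2 ^ n := by
    rw [Module.card_eq_pow_finrank (K := ZMod 2) (V := K), ZMod.card]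
  rw [h2, ← pow_mul, ← pow_mul, mul_comm]

end Pool.Agent.H727R3
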