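import Pool.Agent.H727R3.Rank

set_option autoImplicit false
set_option linter.unusedSectionVars false

namespace Pool.Agent.H727R3

open Finset
open scoped Classical

variable {K : Type} [Field K] [Fintype K] [DecidableEq K] [CharP K 2] [Algebra (ZMod 2) K]

theorem ph_sh {h r : ℕ} {A : Matrix (Fin h) (Fin r) (ZMod 2)} {c : Fin r → ZMod 2}
    (hc : A.mulVec c = 0) (d : Fin h → K) (v : K) : ph A d (sh c v) = 1 := by
  unfold ph
  have h1 : ∑ i, ∑ j, A i j • (d i * sh c v j) = 0 := by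
    apply Finset.sum_eq_zero
    intro i _
    have h2 : ∑ j, A i j • (d i * sh c v j) = (∑ j, A i j * c j) • (d i * v) := by
      rw [Finset.sum_smul]
      apply Finset.sum_congr rfl
      intro j _
      simp only [sh, mul_smul_comm, smul_smul]
    have h3 : ∑ j, A i j * c j = 0 := congrFun hc i
    rw [h2, h3, zero_smul]
  rw [h1, chi_zero]

theorem theta_shift {h r : ℕ} {A : Matrix (Fin h) (Fin r) (ZMod 2)} {c : Fin r → ZMod 2}
    (hc : A.mulVec c = 0) (U : (Fin h → K) → ℝ) (W : (Fin r → K) → ℝ) :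
    (Fintype.card K : ℝ) * ∑ d : Fin h → K, ∑ e : Fin r → K, U d * W e * ph A d e =
      ∑ d : Fin h → K, ∑ e : Fin r → K, U d * (∑ v : K, W (e + sh c v)) * ph A d e := by
  rw [Finset.mul_sum]
  apply Finset.sum_congr rfl
  intro d _
  have h1 : ∀ v : K, ∑ e : Fin r → K, U d * W e * ph A d e =
      ∑ e : Fin r → K, U d * W (e + sh c v) * ph A d e := by
    intro v
    refine (Fintype.sum_equiv (Equiv.addRight (sh c v)) _ _ ?_).symm
    intro e
    simp only [Equiv.coe_addRight]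
    rw [ph_add_right, ph_sh hc, mul_one]
  have h2 : (Fintype.card K : ℝ) * ∑ e : Fin r → K, U d * W e * ph A d e =
      ∑ v : K, ∑ e : Fin r → K, U d * W (e + sh c v) * ph A d e := by
    simp only [← h1, Finset.sum_const, Finset.card_univ, nsmul_eq_mul]
  rw [h2, Finset.sum_comm]
  apply Finset.sum_congr rfl
  intro e _
  rw [Finset.mul_sum, Finset.sum_mul]

section fixed
variable {m s : ℕ}

/-- the exponential sums attached to a matrix -/
noncomputable def Th (K : Type) [Field K] [Fintype K] [DecidableEq K] [CharP K 2]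
    [Algebra (ZMod 2) K] {m s : ℕ} (A : Matrix (Fin (m + 1)) (Fin (s + 2)) (ZMod 2)) : ℝ :=
  ∑ d : Fin (m + 1) → K, ∑ e : Fin (s + 2) → K, uD (m + 1) (sp d) * vE (s + 2) (sp e) * ph A d e

theorem Qb (hms : s + 2 ≤ m) (hK : 1 < Fintype.card K)
    (A : Matrix (Fin (m + 1)) (Fin (s + 2)) (ZMod 2)) :
    ∑ d : Fin (m + 1) → K, ∑ g ∈ GA A, uD (m + 1) (sp d) * uD (m + 1) (sp (d + g)) ≤
      (Fintype.card K : ℝ) ^ (m + 1 - A.rank) * (Fintype.card K : ℝ) ^ m * 2 ^ m := by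
  obtain ⟨q, hq0, hq⟩ := exists_left A (by omega)
  obtain ⟨l, hl⟩ : ∃ l, q l ≠ 0 := by
    by_contra h; push Not at h; exact hq0 (funext h)
  have hl1 : q l = 1 := (z2 (q l)).resolve_left hl
  have h1 := Q_bound (K := K) A (fun d => uD (m + 1) (sp d)) q hq
  rw [shift_sq (uD (m + 1)) l q hl1] at h1
  have h2 := HU (K := K) m hK
  have hN : (0 : ℝ) < (Fintype.card K : ℝ) := by
    have : 0 < Fintype.card K := by omega
    exact_mod_cast this
  have h3 : ((GA (K := K) A).card : ℝ) ≤ (Fintype.card K : ℝ) ^ (m + 1 - A.rank) := by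
    exact_mod_cast card_GA_le (K := K) A
  have h4 : (Fintype.card K : ℝ) ^ 2 *
      ∑ d : Fin (m + 1) → K, ∑ g ∈ GA A, uD (m + 1) (sp d) * uD (m + 1) (sp (d + g)) ≤
      (Fintype.card K : ℝ) ^ 2 *
        ((Fintype.card K : ℝ) ^ (m + 1 - A.rank) * (Fintype.card K : ℝ) ^ m * 2 ^ m) := by
    refine h1.trans ?_
    have h5 : ((GA (K := K) A).card : ℝ) * ((Fintype.card K : ℝ) *
        ∑ d : Fin m → K, (∑ v : K, uD (m + 1) (adj (sp d) v)) ^ 2) ≤
        (Fintype.card K : ℝ) ^ (m + 1 - A.rank) * ((Fintype.card K : ℝ) *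
        ((Fintype.card K : ℝ) ^ (m + 1) * 2 ^ m)) := by
      apply mul_le_mul h3 _ _ (by positivity)
      · exact mul_le_mul_of_nonneg_left h2 hN.le
      · positivity
    refine h5.trans (le_of_eq ?_)
    ring
  exact le_of_mul_le_mul_left h4 (by positivity)

theorem sumV (s : ℕ) : ∑ e : Fin (s + 2) → K, vE (s + 2) (sp e) ^ 2 ≤ (Fintype.card K : ℝ) ^ (s + 2) := by
  have h1 : ∀ e ∈ (univ : Finset (Fin (s + 2) → K)), vE (s + 2) (sp e) ^ 2 ≤ 1 := by
    intro e _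
    have := abs_vE_le (s + 2) (sp e)
    rw [← sq_abs]
    have h0 := abs_nonneg (vE (s + 2) (sp e))
    nlinarith
  refine (Finset.sum_le_sum h1).trans ?_
  rw [Finset.sum_const, Finset.card_univ, Fintype.card_pi_const, nsmul_eq_mul, mul_one]
  push_cast
  exact le_refl _

theorem T1 (hms : s + 2 ≤ m) (hK : 1 < Fintype.card K)
    (A : Matrix (Fin (m + 1)) (Fin (s + 2)) (ZMod 2)) (hr : A.rank = s + 2) :
    Th K A ^ 2 ≤ (Fintype.card K : ℝ) ^ (2 * m + s + 3) * 2 ^ m := by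
  have hN : (0 : ℝ) < (Fintype.card K : ℝ) := by
    have : 0 < Fintype.card K := by omega
    exact_mod_cast this
  have h1 := theta_sq (K := K) A (fun d => uD (m + 1) (sp d)) (fun e => vE (s + 2) (sp e))
  have h2 := Qb (K := K) hms hK A
  have h3 := sumV (K := K) s
  unfold Th
  refine h1.trans ?_
  have h4 : (∑ e : Fin (s + 2) → K, vE (s + 2) (sp e) ^ 2) * ((Fintype.card K : ℝ) ^ (s + 2) *
      ∑ d : Fin (m + 1) → K, ∑ g ∈ GA A, uD (m + 1) (sp d) * uD (m + 1) (sp (d + g))) ≤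
      (Fintype.card K : ℝ) ^ (s + 2) * ((Fintype.card K : ℝ) ^ (s + 2) *
      ((Fintype.card K : ℝ) ^ (m + 1 - A.rank) * (Fintype.card K : ℝ) ^ m * 2 ^ m)) := by
    have h5 : (Fintype.card K : ℝ) ^ (s + 2) *
      ∑ d : Fin (m + 1) → K, ∑ g ∈ GA A, uD (m + 1) (sp d) * uD (m + 1) (sp (d + g)) ≤
      (Fintype.card K : ℝ) ^ (s + 2) *
      ((Fintype.card K : ℝ) ^ (m + 1 - A.rank) * (Fintype.card K : ℝ) ^ m * 2 ^ m) :=
      mul_le_mul_of_nonneg_left h2 (by positivity)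
    refine (mul_le_mul_of_nonneg_left h5 (Finset.sum_nonneg (fun _ _ => sq_nonneg _))).trans ?_
    exact mul_le_mul_of_nonneg_right h3 (by positivity)
  refine h4.trans (le_of_eq ?_)
  obtain ⟨t, ht⟩ : ∃ t, m = t + (s + 2) := ⟨m - (s + 2), by omega⟩
  have h6 : m + 1 - A.rank = t + 1 := by omega
  rw [h6]
  subst ht
  ring

theorem T2 (hms : s + 2 ≤ m) (hK : 1 < Fintype.card K)
    (A : Matrix (Fin (m + 1)) (Fin (s + 2)) (ZMod 2)) (hr : A.rank = s + 1) :
    Th K A ^ 2 ≤ (Fintype.card K : ℝ) ^ (2 * m + s + 3) * 2 ^ (m + s + 1) := by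
  have hN : (0 : ℝ) < (Fintype.card K : ℝ) := by
    have : 0 < Fintype.card K := by omega
    exact_mod_cast this
  obtain ⟨c, hc0, hc⟩ := exists_ker1 A (by omega)
  obtain ⟨l, hl⟩ : ∃ l, c l ≠ 0 := by
    by_contra h; push Not at h; exact hc0 (funext h)
  have hl1 : c l = 1 := (z2 (c l)).resolve_left hl
  have h0 := theta_shift (K := K) hc (fun d => uD (m + 1) (sp d)) (fun e => vE (s + 2) (sp e))
  have h1 := theta_sq (K := K) A (fun d => uD (m + 1) (sp d))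
    (fun e => ∑ v : K, vE (s + 2) (sp (e + sh c v)))
  rw [← h0, shift_sq (vE (s + 2)) l c hl1] at h1
  have h2 := Qb (K := K) hms hK A
  have h3 := HV (K := K) (s + 1) hK
  have h4 : ((Fintype.card K : ℝ) * Th K A) ^ 2 ≤
      ((Fintype.card K : ℝ) * ((Fintype.card K : ℝ) ^ (s + 1 + 1) * 2 ^ (s + 1))) *
      ((Fintype.card K : ℝ) ^ (s + 2) *
      ((Fintype.card K : ℝ) ^ (m + 1 - A.rank) * (Fintype.card K : ℝ) ^ m * 2 ^ m)) := by
    refine h1.trans ?_
    have h5 : (Fintype.card K : ℝ) ^ (s + 2) *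
      ∑ d : Fin (m + 1) → K, ∑ g ∈ GA A, uD (m + 1) (sp d) * uD (m + 1) (sp (d + g)) ≤
      (Fintype.card K : ℝ) ^ (s + 2) *
      ((Fintype.card K : ℝ) ^ (m + 1 - A.rank) * (Fintype.card K : ℝ) ^ m * 2 ^ m) :=
      mul_le_mul_of_nonneg_left h2 (by positivity)
    refine (mul_le_mul_of_nonneg_left h5 (by positivity)).trans ?_
    apply mul_le_mul_of_nonneg_right _ (by positivity)
    exact mul_le_mul_of_nonneg_left h3 hN.le
  obtain ⟨t, ht⟩ : ∃ t, m = t + (s + 2) := ⟨m - (s + 2), by omega⟩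
  have h6 : m + 1 - A.rank = t + 2 := by omega
  rw [h6] at h4
  subst ht
  have h7 : (Fintype.card K : ℝ) ^ 2 * Th K A ^ 2 ≤
      (Fintype.card K : ℝ) ^ 2 *
      ((Fintype.card K : ℝ) ^ (2 * (t + (s + 2)) + s + 3) * 2 ^ (t + (s + 2) + s + 1)) := by
    rw [← mul_pow]
    refine h4.trans (le_of_eq ?_)
    ring
  exact le_of_mul_le_mul_left h7 (by positivity)

theorem T3 (hms : s + 2 ≤ m) (hK : 1 < Fintype.card K)
    (A : Matrix (Fin (m + 1)) (Fin (s + 2)) (ZMod 2)) (hr : A.rank ≤ s) :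
    Th K A ^ 2 ≤ (Fintype.card K : ℝ) ^ (2 * m + 2 * s + 3 - A.rank) * 2 ^ m *
      (2 ^ (2 * s) + 2 ^ (s + 1)) ^ 2 := by
  have hN : (0 : ℝ) < (Fintype.card K : ℝ) := by
    have : 0 < Fintype.card K := by omega
    exact_mod_cast this
  obtain ⟨c, c', hc0, hc0', hcc, hc, hc'⟩ := exists_ker2 A (by omega)
  have h0 := theta_shift (K := K) hc (fun d => uD (m + 1) (sp d)) (fun e => vE (s + 2) (sp e))
  have h0' := theta_shift (K := K) hc' (fun d => uD (m + 1) (sp d))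
    (fun e => ∑ v : K, vE (s + 2) (sp (e + sh c v)))
  have h1 := theta_sq (K := K) A (fun d => uD (m + 1) (sp d))
    (fun e => ∑ w : K, ∑ v : K, vE (s + 2) (sp (e + sh c' w + sh c v)))
  rw [← h0', ← h0] at h1
  have h2 := Qb (K := K) hms hK A
  have h3 : ∑ e : Fin (s + 2) → K, (∑ w : K, ∑ v : K, vE (s + 2) (sp (e + sh c' w + sh c v))) ^ 2 ≤
      (Fintype.card K : ℝ) ^ (s + 2) * ((Fintype.card K : ℝ) * (2 ^ (2 * s) + 2 ^ (s + 1))) ^ 2 := by
    have h4 : ∀ e ∈ (univ : Finset (Fin (s + 2) → K)),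
        (∑ w : K, ∑ v : K, vE (s + 2) (sp (e + sh c' w + sh c v))) ^ 2 ≤
        ((Fintype.card K : ℝ) * (2 ^ (2 * s) + 2 ^ (s + 1))) ^ 2 := by
      intro e _
      obtain ⟨δ, hδ⟩ := shift2 (K := K) (vE (s + 2)) c c' hc0 hc0' hcc e
      rw [hδ]
      have h5 := HV2 (K := K) s δ
      rw [← sq_abs]
      exact pow_le_pow_left₀ (abs_nonneg _) h5 2
    refine (Finset.sum_le_sum h4).trans ?_
    rw [Finset.sum_const, Finset.card_univ, Fintype.card_pi_const, nsmul_eq_mul]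
    push_cast
    exact le_refl _
  have h4 : ((Fintype.card K : ℝ) * ((Fintype.card K : ℝ) * Th K A)) ^ 2 ≤
      ((Fintype.card K : ℝ) ^ (s + 2) * ((Fintype.card K : ℝ) * (2 ^ (2 * s) + 2 ^ (s + 1))) ^ 2) *
      ((Fintype.card K : ℝ) ^ (s + 2) *
      ((Fintype.card K : ℝ) ^ (m + 1 - A.rank) * (Fintype.card K : ℝ) ^ m * 2 ^ m)) := by
    refine h1.trans ?_
    have h5 : (Fintype.card K : ℝ) ^ (s + 2) *
      ∑ d : Fin (m + 1) → K, ∑ g ∈ GA A, uD (m + 1) (sp d) * uD (m + 1) (sp (d + g)) ≤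
      (Fintype.card K : ℝ) ^ (s + 2) *
      ((Fintype.card K : ℝ) ^ (m + 1 - A.rank) * (Fintype.card K : ℝ) ^ m * 2 ^ m) :=
      mul_le_mul_of_nonneg_left h2 (by positivity)
    refine (mul_le_mul_of_nonneg_left h5 (Finset.sum_nonneg (fun _ _ => sq_nonneg _))).trans ?_
    exact mul_le_mul_of_nonneg_right h3 (by positivity)
  obtain ⟨t, ht⟩ : ∃ t, s = t + A.rank := ⟨s - A.rank, by omega⟩
  obtain ⟨t2, ht2⟩ : ∃ t2, m = t2 + A.rank := ⟨m - A.rank, by omega⟩
  have h6 : m + 1 - A.rank = t2 + 1 := by omega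
  have h7 : 2 * m + 2 * s + 3 - A.rank = m + t2 + 2 * s + 3 := by omega
  rw [h7]
  rw [h6] at h4
  have h8 : (Fintype.card K : ℝ) ^ 4 * Th K A ^ 2 ≤
      (Fintype.card K : ℝ) ^ 4 *
      ((Fintype.card K : ℝ) ^ (m + t2 + 2 * s + 3) * 2 ^ m * (2 ^ (2 * s) + 2 ^ (s + 1)) ^ 2) := by
    have h9 : (Fintype.card K : ℝ) ^ 4 * Th K A ^ 2 =
      ((Fintype.card K : ℝ) * ((Fintype.card K : ℝ) * Th K A)) ^ 2 := by ring
    rw [h9]
    refine h4.trans (le_of_eq ?_)
    ring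
  exact le_of_mul_le_mul_left h8 (by positivity)

end fixed

end Pool.Agent.H727R3
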